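import Pool.Agent.TH800.MS.Pn
import Pool.Agent.H382L.EFWm
import Pool.Agent.H370R2.PC1

/-! The explicit formula for the local sums, on both sides of `0`. -/

open Complex Filter Topology Set MeasureTheory
open ArithmeticFunction (vonMangoldt vonMangoldt_nonneg vonMangoldt_apply_prime vonMangoldt_le_log)
open scoped ComplexConjugate

namespace Pool.Agent.TH800.MS

open SP
open H370 (Zf good_zeta)

/-- the local sum over the zeros in `(T, 2T]` -/
noncomputable def Zt (T t v : ℝ) : ℂ :=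
  ∑ s ∈ Zf riemannZeta T (2 * T), (mu s : ℂ) * (Real.exp (-(s.im - t) ^ 2 / 2) : ℂ) *
    cexp (I * ((v * (s.im - t) : ℝ) : ℂ))

/-- coefficients of the prime sum -/
noncomputable def ef (t : ℝ) (p : ℕ) : ℂ := (aa p : ℂ) * cexp (((t * (-Real.log p) : ℝ) : ℂ) * I)

/-- the prime sum -/
noncomputable def P1 (N : ℕ) (t v : ℝ) : ℂ :=
  ∑ p ∈ PX N, ef t p * ((gau0 (v - Real.log p) : ℝ) : ℂ)

lemma ef_norm (t : ℝ) (p : ℕ) : ‖ef t p‖ = aa p := by
  unfold ef
  rw [norm_mul, Complex.norm_exp_ofReal_mul_I, mul_one, Complex.norm_real,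
    Real.norm_of_nonneg (aa_nonneg p)]

lemma efa_prime (t : ℝ) {p : ℕ} (hp : p.Prime) : efa t p = ef t p := by
  have hp0 : (0 : ℝ) < p := by exact_mod_cast hp.pos
  have hpc : (p : ℂ) ≠ 0 := by exact_mod_cast hp.ne_zero
  unfold efa ef aa
  rw [vonMangoldt_apply_prime hp, Complex.cpow_def_of_ne_zero hpc, ← Complex.natCast_log]
  have h1 : (((Real.log p / Real.sqrt p : ℝ)) : ℂ) = (Real.log p : ℂ) *
      cexp ((-(Real.log p / 2) : ℝ) : ℂ) := by
    rw [← ofReal_exp, ← ofReal_mul, div_eq_mul_inv]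
    congr 2
    rw [Real.exp_neg, Real.sqrt_eq_rpow, Real.rpow_def_of_pos hp0]
    congr 2
    ring
  rw [h1, mul_assoc, ← Complex.exp_add]
  congr 2
  push_cast
  ring

lemma Zt_conj (T t v : ℝ) : Zt T t (-v) = conj (Zt T t v) := by
  unfold Zt
  rw [map_sum]
  refine Finset.sum_congr rfl fun s _ => ?_
  rw [map_mul, map_mul, conj_ofReal, ← Complex.exp_conj, map_mul, conj_I, conj_ofReal,
    Complex.conj_natCast]
  congr 2
  push_cast
  ring

lemma P1_neg_bound : ∃ C : ℝ, 0 < C ∧ ∀ (N : ℕ) (t v : ℝ), 0 ≤ v → ‖P1 N t (-v)‖ ≤ C := by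
  have hs := ppG_summable (1 / 2) (by norm_num)
  refine ⟨(∑' n, ppG (1 / 2) n) + 1, by
    have : 0 ≤ ∑' n, ppG (1 / 2) n := tsum_nonneg (ppG_nonneg _)
    linarith, fun N t v hv => ?_⟩
  unfold P1
  calc ‖∑ p ∈ PX N, ef t p * ((gau0 (-v - Real.log p) : ℝ) : ℂ)‖ ≤
      ∑ p ∈ PX N, ppG (1 / 2) p := by
        refine (norm_sum_le _ _).trans (Finset.sum_le_sum fun p hp => ?_)
        have hpp := (mem_PX.1 hp).1
        have hp0 : (0 : ℝ) < p := by exact_mod_cast hpp.pos
        have hl := Real.log_natCast_nonneg p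
        rw [norm_mul, ef_norm, Complex.norm_real, Real.norm_of_nonneg (gau0_pos _).le]
        unfold ppG aa
        have h1 : gau0 (-v - Real.log p) ≤ Real.exp (-(1 / 2) * Real.log p ^ 2) := by
          unfold gau0
          have h2 : Real.exp (-(-v - Real.log p) ^ 2 / 2) ≤
              Real.exp (-(1 / 2) * Real.log p ^ 2) := by
            apply Real.exp_le_exp.2
            nlinarith [mul_nonneg hv hl, sq_nonneg v]
          have h3 := pp_inv_sqrt_le
          have h4 := s2pi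
          calc _ ≤ 1 * Real.exp (-(1 / 2) * Real.log p ^ 2) := by gcongr
            _ = _ := one_mul _
        have h5 : Real.log p / Real.sqrt p = Real.log p * (p : ℝ) ^ (-(1 / 2) : ℝ) := by
          rw [div_eq_mul_inv, Real.rpow_neg hp0.le, Real.sqrt_eq_rpow]
        rw [h5]
        gcongr
    _ ≤ ∑' n, ppG (1 / 2) n := hs.sum_le_tsum _ fun n _ => ppG_nonneg _ n
    _ ≤ _ := by linarith

/-- the prime side is a short sum over primes, up to a bounded error -/
lemma prime_side (μ1 μ2 : ℝ) (h0 : 0 < μ1) (h12 : μ1 < μ2) : ∃ C : ℝ, 0 < C ∧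
    ∀ (L : ℝ) (N : ℕ) (t v : ℝ), 0 < L → μ2 * L ≤ Real.log (N + 1) → 0 ≤ v → v ≤ μ1 * L →
    ‖(1 / Real.sqrt (2 * Real.pi) : ℝ) * (∑' n : ℕ, efa t n *
      (Real.exp (-(v - Real.log n) ^ 2 / 2) : ℂ)) - P1 N t v‖ ≤ C := by
  obtain ⟨C1, hC1, h1⟩ := nonprime_gau
  set c : ℝ := 1 - μ1 / μ2 with hc
  have hμ2 : 0 < μ2 := h0.trans h12
  have hc0 : 0 < c := by
    rw [hc, sub_pos, div_lt_one hμ2]
    exact h12
  have hs := ppG_summable (c ^ 2 / 2) (by positivity)
  have hS0 : 0 ≤ ∑' n, ppG (c ^ 2 / 2) n := tsum_nonneg (ppG_nonneg _)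
  refine ⟨C1 + ∑' n, ppG (c ^ 2 / 2) n, by positivity, fun L N t v hL hN hv hvL => ?_⟩
  set f : ℕ → ℂ := fun n => efa t n * (Real.exp (-(v - Real.log n) ^ 2 / 2) : ℂ) with hf
  have hfs : Summable f := by
    refine Summable.of_norm_bounded (g := fun n => Real.exp (v ^ 2 / 2) * ppG (1 / 4) n)
      ((ppG_summable _ (by norm_num)).mul_left _) fun n => ?_
    exact efa_bound t v v ⟨hv, le_rfl⟩ n
  set g : ℕ → ℂ := fun n => if n ∈ PX N then 0 else f n with hg
  obtain ⟨hw1, hw2⟩ := h1 v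
  set w1 : ℕ → ℝ := fun n => (if n.Prime then 0 else vonMangoldt n / Real.sqrt n) *
      Real.exp (-(1 / 2) * (v - Real.log n) ^ 2) with hw
  have hgn : ∀ n, ‖g n‖ ≤ w1 n + ppG (c ^ 2 / 2) n := by
    intro n
    have hw10 : 0 ≤ w1 n := by
      simp only [hw]
      split_ifs
      · simp
      · exact mul_nonneg (div_nonneg vonMangoldt_nonneg (Real.sqrt_nonneg _)) (Real.exp_pos _).le
    simp only [hg]
    split_ifs with hn
    · rw [norm_zero]
      exact add_nonneg hw10 (ppG_nonneg _ _)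
    · rcases Nat.eq_zero_or_pos n with h | hn0
      · subst h
        have : f 0 = 0 := by simp [hf, efa]
        rw [this, norm_zero]
        exact add_nonneg hw10 (ppG_nonneg _ _)
      have hn0' : (0 : ℝ) < n := by exact_mod_cast hn0
      by_cases hp : n.Prime
      · have hnN : N < n := by
          by_contra h
          exact hn (mem_PX.2 ⟨hp, by omega⟩)
        have hlog : μ2 * L ≤ Real.log n := by
          refine hN.trans (Real.log_le_log (by positivity) ?_)
          exact_mod_cast hnN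
        have hl := Real.log_natCast_nonneg n
        have h5 : v ≤ μ1 / μ2 * Real.log n := by
          calc v ≤ μ1 * L := hvL
            _ = μ1 / μ2 * (μ2 * L) := by field_simp
            _ ≤ _ := by gcongr
        have h6 : c * Real.log n ≤ Real.log n - v := by
          rw [hc]; linarith
        have h7 : Real.exp (-(v - Real.log n) ^ 2 / 2) ≤
            Real.exp (-(c ^ 2 / 2) * Real.log n ^ 2) := by
          apply Real.exp_le_exp.2
          have h8 : 0 ≤ c * Real.log n := by positivity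
          nlinarith
        have h9 : ‖f n‖ ≤ ppG (c ^ 2 / 2) n := by
          simp only [hf]
          rw [norm_mul, Complex.norm_real, Real.norm_of_nonneg (Real.exp_pos _).le]
          unfold ppG
          apply mul_le_mul (efa_norm_le t n) h7 (Real.exp_pos _).le
          positivity
        linarith
      · have h9 : ‖f n‖ ≤ w1 n := by
          simp only [hf, hw]
          rw [norm_mul, Complex.norm_real, Real.norm_of_nonneg (Real.exp_pos _).le, if_neg hp]
          have e : -(1 / 2) * (v - Real.log n) ^ 2 = -(v - Real.log n) ^ 2 / 2 := by ring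
          rw [e]
          apply mul_le_mul_of_nonneg_right _ (Real.exp_pos _).le
          unfold efa
          rw [norm_mul, Complex.norm_real, Real.norm_of_nonneg vonMangoldt_nonneg,
            Complex.norm_natCast_cpow_of_pos hn0, div_eq_mul_inv]
          apply le_of_eq
          congr 1
          rw [Real.sqrt_eq_rpow, ← Real.rpow_neg hn0'.le]
          congr 1
          simp
        have := ppG_nonneg (c ^ 2 / 2) n
        linarith
  have hgs : Summable g := Summable.of_norm_bounded (hw1.add hs) hgn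
  have hgb : ‖∑' n, g n‖ ≤ C1 + ∑' n, ppG (c ^ 2 / 2) n := by
    refine (tsum_of_norm_bounded (hw1.add hs).hasSum hgn).trans ?_
    rw [hw1.tsum_add hs]
    linarith
  have hsplit : ∑' n, f n = (∑ p ∈ PX N, f p) + ∑' n, g n := by
    have h2 : ∑' n, (f n - g n) = ∑ p ∈ PX N, (f p - g p) := by
      apply tsum_eq_sum
      intro n hn
      simp only [hg]
      rw [if_neg hn, sub_self]
    rw [hfs.tsum_sub hgs] at h2
    have h3 : ∑ p ∈ PX N, (f p - g p) = ∑ p ∈ PX N, f p := by
      refine Finset.sum_congr rfl fun p hp => ?_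
      simp only [hg]
      rw [if_pos hp, sub_zero]
    rw [h3] at h2
    rw [← h2]
    ring
  have hP : P1 N t v = (1 / Real.sqrt (2 * Real.pi) : ℝ) * ∑ p ∈ PX N, f p := by
    unfold P1
    rw [Finset.mul_sum]
    refine Finset.sum_congr rfl fun p hp => ?_
    simp only [hf]
    rw [efa_prime t (mem_PX.1 hp).1]
    unfold gau0
    push_cast
    ring
  rw [hP, hsplit, mul_add, add_sub_cancel_left, norm_mul, Complex.norm_real,
    Real.norm_of_nonneg (by have := s2pi; positivity)]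
  calc 1 / Real.sqrt (2 * Real.pi) * ‖∑' n, g n‖ ≤ 1 * (C1 + ∑' n, ppG (c ^ 2 / 2) n) := by
        apply mul_le_mul pp_inv_sqrt_le hgb (norm_nonneg _) zero_le_one
    _ = _ := one_mul _

/-- the explicit formula -/
theorem Zform (hRH : RHs) (μ1 μ2 : ℝ) (h0 : 0 < μ1) (h12 : μ1 < μ2) (h1 : μ1 ≤ 1) :
    ∃ C T0 : ℝ, 0 < C ∧ 10 ≤ T0 ∧ ∀ T : ℝ, T0 ≤ T → ∀ t : ℝ,
      T + Real.log T ≤ t → t ≤ 2 * T - Real.log T → ∀ N : ℕ,
      μ2 * Real.log T ≤ Real.log (N + 1) → ∀ v : ℝ, |v| ≤ μ1 * Real.log T →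
      ‖Zt T t v - (((Real.log T * gau0 v : ℝ) : ℂ) - P1 N t v - conj (P1 N t (-v)))‖ ≤ C := by
  obtain ⟨C, T0, hC, hT0, hEF⟩ := EF hRH
  obtain ⟨C2, hC2, h2⟩ := prime_side μ1 μ2 h0 h12
  obtain ⟨C3, hC3, h3⟩ := P1_neg_bound
  refine ⟨C + C2 + C3, T0, by positivity, hT0, fun T hT t ht1 ht2 N hN => ?_⟩
  have hT10 : 10 ≤ T := hT0.trans hT
  have hL1 : 0 < Real.log T := Real.log_pos (by linarith)
  set L := Real.log T with hL
  have key : ∀ v : ℝ, 0 ≤ v → v ≤ μ1 * L →
      ‖Zt T t v - (((L * gau0 v : ℝ) : ℂ) - P1 N t v - conj (P1 N t (-v)))‖ ≤ C + C2 + C3 := by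
    intro v hv hvL
    have hvL' : v ≤ L := by nlinarith
    have h4 := hEF T hT v t hv hvL' ht1 ht2
    have h5 := h2 L N t v hL1 hN hv hvL
    have h6 := h3 N t v hv
    have hZ : (∑ᶠ s ∈ ZZ T, (mu s : ℂ) * (Real.exp (-(s.im - t) ^ 2 / 2) : ℂ) *
        cexp (I * ((v * (s.im - t) : ℝ) : ℂ))) = Zt T t v := by
      unfold Zt ZZ
      rw [H370.finsum_Zf good_zeta (by linarith)]
    rw [hZ] at h4
    have hP : (∑' n : ℕ, (vonMangoldt n : ℂ) * (n : ℂ) ^ (-(1 / 2 : ℂ) - I * t) *
          (Real.exp (-(v - Real.log n) ^ 2 / 2) : ℂ)) =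
        ∑' n : ℕ, efa t n * (Real.exp (-(v - Real.log n) ^ 2 / 2) : ℂ) := rfl
    rw [hP] at h4
    set S := ∑' n : ℕ, efa t n * (Real.exp (-(v - Real.log n) ^ 2 / 2) : ℂ) with hS
    have e : Zt T t v - (((L * gau0 v : ℝ) : ℂ) - P1 N t v - conj (P1 N t (-v))) =
        (Zt T t v - (1 / Real.sqrt (2 * Real.pi) : ℝ) *
          ((Real.log T * Real.exp (-v ^ 2 / 2) : ℝ) - S)) -
        ((1 / Real.sqrt (2 * Real.pi) : ℝ) * S - P1 N t v) + conj (P1 N t (-v)) := by
      unfold gau0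
      rw [← hL]
      push_cast
      ring
    rw [e]
    have h7 : C * Real.exp (-v) ≤ C := by
      have : Real.exp (-v) ≤ 1 := by rw [Real.exp_le_one_iff]; linarith
      nlinarith
    have h8 : ‖conj (P1 N t (-v))‖ ≤ C3 := by rw [RCLike.norm_conj]; exact h6
    calc _ ≤ ‖(Zt T t v - (1 / Real.sqrt (2 * Real.pi) : ℝ) *
          ((Real.log T * Real.exp (-v ^ 2 / 2) : ℝ) - S)) -
        ((1 / Real.sqrt (2 * Real.pi) : ℝ) * S - P1 N t v)‖ + ‖conj (P1 N t (-v))‖ :=
          norm_add_le _ _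
      _ ≤ (C * Real.exp (-v) + C2) + C3 := by
          gcongr
          exact (norm_sub_le _ _).trans (add_le_add h4 h5)
      _ ≤ _ := by linarith
  intro v hv
  rcases le_total 0 v with h | h
  · exact key v h ((le_abs_self v).trans hv)
  · have h5 := key (-v) (by linarith) ((neg_le_abs v).trans hv)
    rw [← RCLike.norm_conj] at h5
    refine le_trans (le_of_eq ?_) h5
    congr 1
    rw [map_sub, map_sub, map_sub, Zt_conj, neg_neg, gau0_even]
    simp only [conj_conj, conj_ofReal]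
    ring

end Pool.Agent.TH800.MS
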