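import Pool.Agent.W198.TC.Gau

/-! A mean value bound for exponential sums with separated frequencies. -/

open Complex Filter Topology Set MeasureTheory
open scoped ComplexConjugate

namespace Pool.Agent.TH800.MS

open TC

lemma om_low {T t : ℝ} (hT : 0 < T) (h1 : T ≤ t) (h2 : t ≤ 2 * T) :
    Real.exp (-(1 / 8)) ≤ om (3 * T / 2) T t := by
  unfold om
  apply Real.exp_le_exp.2
  rw [neg_div, neg_le_neg_iff, div_le_iff₀ (by positivity)]
  nlinarith

theorem gm {ι : Type*} (s : Finset ι) (c : ι → ℂ) (f : ι → ℝ) (T : ℝ) (hT : 0 < T) :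
    ∫ t in T..(2 * T), ‖∑ i ∈ s, c i * cexp (((t * f i : ℝ) : ℂ) * I)‖ ^ 2 ≤
      4 * T * ∑ i ∈ s, ∑ j ∈ s, ‖c i‖ * ‖c j‖ *
        Real.exp (-(T ^ 2 * (f i - f j) ^ 2) / 2) := by
  set F : ℝ → ℂ := fun t => ∑ i ∈ s, c i * cexp (((t * f i : ℝ) : ℂ) * I) with hF
  have hFc : Continuous F := by
    rw [hF]; fun_prop
  have hsq : ∀ t, ((‖F t‖ ^ 2 : ℝ) : ℂ) = ∑ i ∈ s, ∑ j ∈ s, c i * conj (c j) *
      cexp (((t * (f i - f j) : ℝ) : ℂ) * I) := by
    intro t
    rw [ofReal_pow, ← Complex.mul_conj', hF]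
    simp only
    rw [map_sum, Finset.sum_mul_sum]
    refine Finset.sum_congr rfl fun i _ => Finset.sum_congr rfl fun j _ => ?_
    rw [map_mul, ← Complex.exp_conj, map_mul, conj_I, conj_ofReal]
    have : cexp (((t * (f i - f j) : ℝ) : ℂ) * I) =
        cexp (((t * f i : ℝ) : ℂ) * I) * cexp (((t * f j : ℝ) : ℂ) * -I) := by
      rw [← Complex.exp_add]
      congr 1
      push_cast
      ring
    rw [this]
    ring
  have hint : ∀ i j, Integrable (fun t : ℝ => c i * conj (c j) *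
      ((om (3 * T / 2) T t : ℂ) * cexp (((t * (f i - f j) : ℝ) : ℂ) * I))) := fun i j =>
    ((gau (3 * T / 2) T (f i - f j) hT).1).const_mul _
  have heq : ∀ t, ((om (3 * T / 2) T t * ‖F t‖ ^ 2 : ℝ) : ℂ) = ∑ i ∈ s, ∑ j ∈ s,
      c i * conj (c j) *
        ((om (3 * T / 2) T t : ℂ) * cexp (((t * (f i - f j) : ℝ) : ℂ) * I)) := by
    intro t
    rw [ofReal_mul, hsq, Finset.mul_sum]
    refine Finset.sum_congr rfl fun i _ => ?_
    rw [Finset.mul_sum]
    refine Finset.sum_congr rfl fun j _ => ?_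
    ring
  have hintF : Integrable (fun t => om (3 * T / 2) T t * ‖F t‖ ^ 2) := by
    have h1 : Integrable (fun t => ((om (3 * T / 2) T t * ‖F t‖ ^ 2 : ℝ) : ℂ)) := by
      simp_rw [heq]
      exact integrable_finsetSum _ fun i _ => integrable_finsetSum _ fun j _ => hint i j
    refine h1.re.congr (Eventually.of_forall fun t => ?_)
    exact Complex.ofReal_re _
  have hval : ((∫ t, om (3 * T / 2) T t * ‖F t‖ ^ 2 : ℝ) : ℂ) = ∑ i ∈ s, ∑ j ∈ s,
      c i * conj (c j) * (((Real.sqrt (2 * Real.pi) * T *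
        Real.exp (-(T ^ 2 * (f i - f j) ^ 2) / 2) : ℝ) : ℂ) *
      cexp (((3 * T / 2 * (f i - f j) : ℝ) : ℂ) * I)) := by
    rw [← integral_complex_ofReal]
    simp_rw [heq]
    rw [integral_finsetSum _ fun i _ => integrable_finsetSum _ fun j _ => hint i j]
    refine Finset.sum_congr rfl fun i _ => ?_
    rw [integral_finsetSum _ fun j _ => hint i j]
    refine Finset.sum_congr rfl fun j _ => ?_
    rw [integral_const_mul, (gau (3 * T / 2) T (f i - f j) hT).2]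
  have hb : ∫ t, om (3 * T / 2) T t * ‖F t‖ ^ 2 ≤ Real.sqrt (2 * Real.pi) * T *
      ∑ i ∈ s, ∑ j ∈ s, ‖c i‖ * ‖c j‖ * Real.exp (-(T ^ 2 * (f i - f j) ^ 2) / 2) := by
    have h0 : 0 ≤ ∫ t, om (3 * T / 2) T t * ‖F t‖ ^ 2 :=
      integral_nonneg fun t => mul_nonneg (om_pos _ _ _).le (by positivity)
    have h1 : ‖((∫ t, om (3 * T / 2) T t * ‖F t‖ ^ 2 : ℝ) : ℂ)‖ =
        ∫ t, om (3 * T / 2) T t * ‖F t‖ ^ 2 := by
      rw [Complex.norm_real, Real.norm_of_nonneg h0]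
    rw [← h1, hval, Finset.mul_sum]
    refine (norm_sum_le _ _).trans (Finset.sum_le_sum fun i _ => ?_)
    rw [Finset.mul_sum]
    refine (norm_sum_le _ _).trans (Finset.sum_le_sum fun j _ => ?_)
    rw [norm_mul, norm_mul, norm_mul, Complex.norm_exp_ofReal_mul_I, mul_one, RCLike.norm_conj,
      Complex.norm_real, Real.norm_of_nonneg (by positivity)]
    apply le_of_eq
    ring
  have hlow : ∫ t in T..(2 * T), ‖F t‖ ^ 2 ≤ Real.exp (1 / 8) *
      ∫ t, om (3 * T / 2) T t * ‖F t‖ ^ 2 := by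
    have h1 : ∫ t in T..(2 * T), ‖F t‖ ^ 2 ≤
        ∫ t in T..(2 * T), Real.exp (1 / 8) * (om (3 * T / 2) T t * ‖F t‖ ^ 2) := by
      refine intervalIntegral.integral_mono_on (by linarith)
        ((hFc.norm.pow 2).intervalIntegrable _ _)
        ((continuous_const.mul ((om_cont _ _).mul (hFc.norm.pow 2))).intervalIntegrable _ _)
        fun t ht => ?_
      have h2 := om_low hT ht.1 ht.2
      have h3 : 1 ≤ Real.exp (1 / 8) * om (3 * T / 2) T t := by
        calc (1 : ℝ) = Real.exp (1 / 8) * Real.exp (-(1 / 8)) := by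
              rw [← Real.exp_add]; simp
          _ ≤ _ := by gcongr
      calc ‖F t‖ ^ 2 = 1 * ‖F t‖ ^ 2 := by ring
        _ ≤ (Real.exp (1 / 8) * om (3 * T / 2) T t) * ‖F t‖ ^ 2 := by gcongr
        _ = _ := by ring
    refine h1.trans ?_
    rw [intervalIntegral.integral_const_mul, intervalIntegral.integral_of_le (by linarith)]
    apply mul_le_mul_of_nonneg_left _ (Real.exp_pos _).le
    exact setIntegral_le_integral hintF (Eventually.of_forall fun t =>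
      mul_nonneg (om_pos _ _ _).le (by positivity))
  have hconst : Real.exp (1 / 8) * Real.sqrt (2 * Real.pi) ≤ 4 := by
    have h1 : Real.sqrt (2 * Real.pi) ≤ 2.6 := by
      rw [Real.sqrt_le_left (by norm_num)]
      have := Real.pi_lt_d2
      nlinarith
    have h2 : Real.exp (1 / 8) ≤ 1.2 := by
      have h3 := Real.exp_bound' (x := 1 / 8) (by norm_num) (by norm_num) (n := 2) (by norm_num)
      refine h3.trans ?_
      norm_num [Finset.sum_range_succ, Nat.factorial]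
    calc Real.exp (1 / 8) * Real.sqrt (2 * Real.pi) ≤ 1.2 * 2.6 := by gcongr
      _ ≤ 4 := by norm_num
  have hS : 0 ≤ ∑ i ∈ s, ∑ j ∈ s, ‖c i‖ * ‖c j‖ * Real.exp (-(T ^ 2 * (f i - f j) ^ 2) / 2) :=
    Finset.sum_nonneg fun i _ => Finset.sum_nonneg fun j _ => by positivity
  calc _ ≤ Real.exp (1 / 8) * ∫ t, om (3 * T / 2) T t * ‖F t‖ ^ 2 := hlow
    _ ≤ Real.exp (1 / 8) * (Real.sqrt (2 * Real.pi) * T *
      ∑ i ∈ s, ∑ j ∈ s, ‖c i‖ * ‖c j‖ * Real.exp (-(T ^ 2 * (f i - f j) ^ 2) / 2)) := by gcongr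
    _ = (Real.exp (1 / 8) * Real.sqrt (2 * Real.pi)) * (T *
      ∑ i ∈ s, ∑ j ∈ s, ‖c i‖ * ‖c j‖ * Real.exp (-(T ^ 2 * (f i - f j) ^ 2) / 2)) := by ring
    _ ≤ 4 * (T *
      ∑ i ∈ s, ∑ j ∈ s, ‖c i‖ * ‖c j‖ * Real.exp (-(T ^ 2 * (f i - f j) ^ 2) / 2)) := by
        gcongr
    _ = _ := by ring

/-- separated frequencies -/
theorem gm_sep {ι : Type*} (s : Finset ι) (c : ι → ℂ) (f : ι → ℝ) (T δ : ℝ) (hT : 0 < T)
    (hδ : 0 < δ) (hsep : ∀ i ∈ s, ∀ j ∈ s, i ≠ j → δ ≤ |f i - f j|) :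
    ∫ t in T..(2 * T), ‖∑ i ∈ s, c i * cexp (((t * f i : ℝ) : ℂ) * I)‖ ^ 2 ≤
      4 * T * (∑ i ∈ s, ‖c i‖ ^ 2 + (∑ i ∈ s, ‖c i‖) ^ 2 *
        Real.exp (-(T ^ 2 * δ ^ 2) / 2)) := by
  classical
  refine (gm s c f T hT).trans ?_
  apply mul_le_mul_of_nonneg_left _ (by positivity)
  have h1 : ∑ i ∈ s, ∑ j ∈ s, ‖c i‖ * ‖c j‖ * Real.exp (-(T ^ 2 * (f i - f j) ^ 2) / 2) ≤
      ∑ i ∈ s, ∑ j ∈ s, ((if i = j then ‖c i‖ ^ 2 else 0) +
        ‖c i‖ * ‖c j‖ * Real.exp (-(T ^ 2 * δ ^ 2) / 2)) := by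
    refine Finset.sum_le_sum fun i hi => Finset.sum_le_sum fun j hj => ?_
    by_cases h : i = j
    · subst h
      rw [if_pos rfl, sub_self]
      have : 0 ≤ ‖c i‖ * ‖c i‖ * Real.exp (-(T ^ 2 * δ ^ 2) / 2) := by positivity
      simp only [ne_eq, OfNat.ofNat_ne_zero, not_false_eq_true, zero_pow, mul_zero, neg_zero,
        zero_div, Real.exp_zero, mul_one]
      nlinarith
    · rw [if_neg h, zero_add]
      have h2 := hsep i hi j hj h
      have h3 : δ ^ 2 ≤ (f i - f j) ^ 2 := by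
        rw [← sq_abs (f i - f j)]
        gcongr
      apply mul_le_mul_of_nonneg_left _ (by positivity)
      apply Real.exp_le_exp.2
      have h4 : T ^ 2 * δ ^ 2 ≤ T ^ 2 * (f i - f j) ^ 2 := by gcongr
      linarith
  refine h1.trans (le_of_eq ?_)
  simp_rw [Finset.sum_add_distrib]
  congr 1
  · refine Finset.sum_congr rfl fun i hi => ?_
    simp [hi]
  · rw [sq (∑ i ∈ s, ‖c i‖), Finset.sum_mul_sum, Finset.sum_mul]
    refine Finset.sum_congr rfl fun i _ => ?_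
    rw [Finset.sum_mul]

lemma log_sep {a b : ℕ} (ha : 1 ≤ a) (hb : 1 ≤ b) (hab : a ≠ b) {N : ℝ} (haN : (a : ℝ) ≤ N)
    (hbN : (b : ℝ) ≤ N) : 1 / N ≤ |Real.log a - Real.log b| := by
  have key : ∀ a b : ℕ, 1 ≤ a → a < b → (b : ℝ) ≤ N → 1 / N ≤ Real.log b - Real.log a := by
    intro a b ha hab hbN
    have ha' : (1 : ℝ) ≤ a := by exact_mod_cast ha
    have hab' : (a : ℝ) + 1 ≤ b := by exact_mod_cast hab
    have hb0 : (0 : ℝ) < b := by linarith
    have h1 := Real.one_sub_inv_le_log_of_pos (x := (b : ℝ) / a) (by positivity)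
    rw [Real.log_div hb0.ne' (by positivity), inv_div] at h1
    have h2 : 1 / N ≤ 1 / b := one_div_le_one_div_of_le hb0 hbN
    have h3 : 1 / (b : ℝ) ≤ 1 - a / b := by
      rw [le_sub_iff_add_le, ← add_div, div_le_one hb0]
      linarith
    linarith
  rcases lt_or_gt_of_ne hab with h | h
  · rw [abs_sub_comm]
    exact (key a b ha h hbN).trans (le_abs_self _)
  · exact (key b a hb h haN).trans (le_abs_self _)

end Pool.Agent.TH800.MS
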