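import Pool.Agent.TH800.MS.Sg3
import Pool.Agent.TH800.LD.Asm2

/-! Small gaps: from windows to indices. -/

open Complex Filter Topology Set MeasureTheory
open scoped ComplexConjugate

namespace Pool.Agent.TH800.MS

open SP hiding ps
open H370 (Zf good_zeta)
open H370.A3 (gg)
open SG (ord NZ zmult ZS)

lemma rhs_of (hRH : RiemannHypothesis) : RHs := by
  intro s h1 h2 h0
  apply hRH s h0
  · rintro ⟨k, hk⟩
    have := congrArg Complex.re hk
    simp at this
    have hk0 : (0 : ℝ) ≤ k := Nat.cast_nonneg k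
    linarith
  · intro h; rw [h] at h2; simp at h2

/-- separated consecutive ordinates give isolated zeros -/
theorem iso_of (hRH : RiemannHypothesis) {T r ρ t : ℝ} (hT : 1 ≤ T) (hρ : 0 < ρ)
    {n m : ℕ} (hn : 1 ≤ n) (hgap : ∀ i < m, ρ < ord (n + i + 1) - ord (n + i))
    (h1 : ord n + r + ρ ≤ t) (h2 : t ≤ ord (n + m) - r - ρ) : Iso T t r ρ := by
  have hmle : ∀ s ∈ Zf riemannZeta T (2 * T), mu s ≤ NZ s.im := by
    intro s hs
    obtain ⟨h1, h2, h3, h4⟩ := H370.A3.on_line hRH hT hs
    have := LG.CU.mult_le_NZ (by linarith : 0 < s.im) h4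
    rw [h1] at this
    exact this
  have hmpos : ∀ s ∈ Zf riemannZeta T (2 * T), 1 ≤ mu s := by
    intro s hs
    obtain ⟨h1, h2, h3, h4⟩ := H370.A3.on_line hRH hT hs
    have := SG.zmult_pos (s := s) (by linarith) (by rw [← h1]; exact h4)
    exact this
  have hord : ∀ s ∈ Zf riemannZeta T (2 * T), ∀ n, NZ s.im < n + mu s → n ≤ NZ s.im →
      1 ≤ n → ord n = s.im := by
    intro s hs n h5 h6 h7
    obtain ⟨h1, h2, h3, h4⟩ := H370.A3.on_line hRH hT hs
    exact LG.CU.ord_eq_of (by linarith) h4 (by rw [h1]; exact h5) h6 h7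
  have hgt : ∀ j : ℕ, 1 ≤ j → ord n < ord j → n < j := by
    intro j hj h
    by_contra hcon
    push Not at hcon
    have := SG.ord_mono hj hcon
    linarith
  have hlt : ∀ j : ℕ, 1 ≤ j → ord j < ord (n + m) → j < n + m := by
    intro j hj h
    by_contra hcon
    push Not at hcon
    have := SG.ord_mono (by omega : 1 ≤ n + m) hcon
    linarith
  intro s hs hst
  obtain ⟨c1, c2⟩ := abs_le.1 hst
  have hs1 : ord n + ρ ≤ s.im := by linarith
  have hs2 : s.im ≤ ord (n + m) - ρ := by linarith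
  have hp := hmpos s hs
  have hle := hmle s hs
  have ek := hord s hs (NZ s.im) (by omega) le_rfl (by omega)
  set k := NZ s.im with hk
  have hk1 : 1 ≤ k := by omega
  have hnk : n < k := hgt k hk1 (by rw [ek]; linarith)
  have hkm : k < n + m := hlt k hk1 (by rw [ek]; linarith)
  -- gaps
  have hgap' : ∀ j, n ≤ j → j < n + m → ρ < ord (j + 1) - ord j := by
    intro j h3 h4
    have := hgap (j - n) (by omega)
    have e : n + (j - n) = j := by omega
    rw [e] at this
    exact this
  refine ⟨?_, ?_⟩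
  · by_contra hne
    have hm2 : 2 ≤ mu s := by omega
    have ek' := hord s hs (k - 1) (by omega) (by omega) (by omega)
    have := hgap' (k - 1) (by omega) (by omega)
    have e : k - 1 + 1 = k := by omega
    rw [e, ek, ek'] at this
    linarith
  · intro s' hs' hne
    by_contra hcon
    push Not at hcon
    obtain ⟨d1, d2⟩ := abs_le.1 hcon
    obtain ⟨g1, g2, g3, g4⟩ := H370.A3.on_line hRH hT hs
    obtain ⟨q1, q2, q3, q4⟩ := H370.A3.on_line hRH hT hs'
    have hneim : s'.im ≠ s.im := by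
      intro h
      apply hne
      rw [← q1, ← g1, h]
    have hp' := hmpos s' hs'
    have hle' := hmle s' hs'
    have ek' := hord s' hs' (NZ s'.im) (by omega) le_rfl (by omega)
    set k' := NZ s'.im with hk'
    have hk1' : 1 ≤ k' := by omega
    rcases lt_or_gt_of_ne hneim with h | h
    · have h5 : k' < k := by
        by_contra h6
        push Not at h6
        have := SG.ord_mono hk1 h6
        rw [ek, ek'] at this
        linarith
      have h6 : s'.im ≤ ord (k - 1) := by
        rw [← ek']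
        exact SG.ord_mono hk1' (by omega)
      have := hgap' (k - 1) (by omega) (by omega)
      have e : k - 1 + 1 = k := by omega
      rw [e, ek] at this
      linarith
    · have h5 : k < k' := by
        by_contra h6
        push Not at h6
        have := SG.ord_mono hk1' h6
        rw [ek, ek'] at this
        linarith
      have h6 : ord (k + 1) ≤ s'.im := by
        rw [← ek']
        exact SG.ord_mono (by omega) (by omega)
      have := hgap' k (by omega) hkm
      rw [ek] at this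
      linarith

/-- at most `m` of the windows `[ord n, ord (n + m))` contain `t` -/
lemma overlap {m : ℕ} {t : ℝ} (F : Finset ℕ)
    (hF : ∀ n ∈ F, 1 ≤ n ∧ ord n ≤ t ∧ t < ord (n + m)) : F.card ≤ m := by
  have hsub : F ⊆ Finset.Ioc (NZ t - m) (NZ t) := by
    intro n hn
    obtain ⟨h1, h2, h3⟩ := hF n hn
    rw [Finset.mem_Ioc]
    have h4 := (SG.ord_le_iff h1 t).mp h2
    have h5 : ¬ n + m ≤ NZ t := fun h => by
      have := (SG.ord_le_iff (by omega : 1 ≤ n + m) t).mpr h
      linarith
    constructor <;> omega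
  have := Finset.card_le_card hsub
  rw [Nat.card_Ioc] at this
  omega

/-- sum of the gaps -/
lemma gap_sum {n m : ℕ} {ρ : ℝ} (hgap : ∀ i < m, ρ < ord (n + i + 1) - ord (n + i)) :
    m * ρ ≤ ord (n + m) - ord n := by
  have htel : ∑ i ∈ Finset.range m, (ord (n + i + 1) - ord (n + i)) = ord (n + m) - ord n := by
    have := Finset.sum_range_sub (fun i => ord (n + i)) m
    simp only [add_zero] at this
    rw [← this]
    rfl
  rw [← htel]
  calc (m : ℝ) * ρ = ∑ i ∈ Finset.range m, ρ := by
        rw [Finset.sum_const, Finset.card_range, nsmul_eq_mul]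
    _ ≤ _ := Finset.sum_le_sum fun i hi => (hgap i (Finset.mem_range.1 hi)).le

/-- runs of large gaps in a block -/
theorem run_block (hRH : RiemannHypothesis) (β lam : ℝ) (hβ : 0 < β) (hβ1 : β ≤ 1)
    (h0 : 0 < lam) (hlm : lam < 1 / 2) (hg : 1 < gg β lam) :
    ∃ K c T0 m0 : ℝ, 0 < K ∧ 0 < c ∧ 10 ≤ T0 ∧ 4 ≤ m0 ∧ ∀ T : ℝ, T0 ≤ T → ∀ m : ℕ, m0 ≤ m →
      (m : ℝ) ^ (3 / 4 : ℝ) ≤ c * Real.log T → ∀ F : Finset ℕ,
      (∀ n ∈ F, 1 ≤ n ∧ T + 6 * Real.log T ≤ ord n ∧ ord (n + m) ≤ 2 * T - 6 * Real.log T ∧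
        ∀ i < m, 2 * Real.pi * β / Real.log T < ord (n + i + 1) - ord (n + i)) →
      (F.card : ℝ) ≤ K * (m : ℝ) ^ (-(3 / 4) : ℝ) * (T * Real.log T) := by
  classical
  have hpi := Real.pi_pos
  have hpi3 := Real.pi_gt_three
  set μ1 := (lam + (lam + 1 / 2) / 2) / 2 with hμ1
  set μ2 := (lam + 1 / 2) / 2 with hμ2
  obtain ⟨K, T0, b0, M0, hK, hT0, hb0, hM0, h⟩ := phi (rhs_of hRH) β lam μ1 μ2 hβ hβ1 h0
    (by rw [hμ1]; linarith) (by rw [hμ1]; linarith) (by rw [hμ2]; linarith) hg
  set m1 := (M0 / β) ^ (4 / 3 : ℝ) with hm1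
  refine ⟨K * (1 / β + 1) / β, 1 / (b0 * β), T0, max 4 m1, by positivity, by positivity, hT0,
    le_max_left _ _, fun T hT m hm hmL F hF => ?_⟩
  have hm4 : (4 : ℝ) ≤ m := (le_max_left _ _).trans hm
  have hmm1 : m1 ≤ m := (le_max_right _ _).trans hm
  have hm0 : (0 : ℝ) < m := by linarith
  have hT10 : 10 ≤ T := hT0.trans hT
  have hL0 : 0 < Real.log T := Real.log_pos (by linarith)
  set L := Real.log T with hL
  set x := (m : ℝ) ^ (3 / 4 : ℝ) with hx
  set y := (m : ℝ) ^ (1 / 4 : ℝ) with hy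
  have hx0 : 0 < x := Real.rpow_pos_of_pos hm0 _
  have hy0 : 0 < y := Real.rpow_pos_of_pos hm0 _
  have hxy : x * y = m := by
    rw [hx, hy, ← Real.rpow_add hm0]
    norm_num
  have hy3 : y ^ 3 = x := by
    rw [hx, hy, ← Real.rpow_natCast, ← Real.rpow_mul hm0.le]
    norm_num
  set b := L / (β * x) with hb
  have hb0' : 0 < b := by positivity
  have hbb : b0 ≤ b := by
    rw [hb, le_div_iff₀ (by positivity)]
    have h3 : x ≤ 1 / (b0 * β) * L := hmL
    rw [div_mul_eq_mul_div, one_mul, le_div_iff₀ (by positivity)] at h3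
    linarith
  have hMb : M0 * b ≤ L := by
    have h3 : M0 ≤ β * x := by
      have h4 : (M0 / β) ≤ x := by
        have h5 : ((M0 / β) ^ (4 / 3 : ℝ)) ^ (3 / 4 : ℝ) ≤ (m : ℝ) ^ (3 / 4 : ℝ) :=
          Real.rpow_le_rpow (by positivity) hmm1 (by norm_num)
        rw [← Real.rpow_mul (by positivity)] at h5
        norm_num at h5
        exact h5
      rw [div_le_iff₀ hβ] at h4
      linarith
    calc M0 * b ≤ β * x * b := by gcongr
      _ = L := by rw [hb]; field_simp
  set r := y / b with hr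
  have hr0 : 0 < r := by positivity
  have hrm : r = β * m / L := by
    rw [hr, hb, ← hxy]
    field_simp
  obtain ⟨Φ, hΦc, hΦ0, hΦ1, hΦi⟩ := h T hT b hbb hMb r hr0
  rw [← hL] at hΦ1 hΦi
  set ρ := 2 * Real.pi * β / L with hρ
  have hρ0 : 0 < ρ := by positivity
  have hcount := LD.count_gen F (fun n => ord n + r + ρ) (fun n => ord (n + m) - r - ρ)
    (T + 6 * L) (2 * T - 6 * L) (β * m / L) (fun t => m * Φ t)
  by_cases hne : F.Nonempty
  · obtain ⟨n1, hn1⟩ := hne
    have hV : T + 6 * L ≤ 2 * T - 6 * L := by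
      obtain ⟨a1, a2, a3, a4⟩ := hF n1 hn1
      have := SG.ord_mono a1 (by omega : n1 ≤ n1 + m)
      linarith
    have h1 := hcount hV (continuous_const.mul hΦc) (by positivity) (fun n hn => by
      obtain ⟨a1, a2, a3, a4⟩ := hF n hn
      have h2 := gap_sum a4
      refine ⟨by linarith, by linarith, ?_⟩
      have h3 : β * m / L + 2 * (r + ρ) ≤ m * ρ := by
        rw [hrm, hρ]
        have e1 : β * m / L + 2 * (β * m / L + 2 * Real.pi * β / L) =
          (3 * m + 4 * Real.pi) * (β / L) := by ring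
        have e2 : (m : ℝ) * (2 * Real.pi * β / L) = (2 * Real.pi * m) * (β / L) := by ring
        rw [e1, e2]
        apply mul_le_mul_of_nonneg_right _ (by positivity)
        have hpi4 := Real.pi_lt_d2
        nlinarith [Real.pi_gt_d2]
      linarith) (fun t ht1 ht2 => by
      by_cases hfe : (F.filter (fun n => ord n + r + ρ ≤ t ∧ t ≤ ord (n + m) - r - ρ)).Nonempty
      · obtain ⟨n2, hn2⟩ := hfe
        rw [Finset.mem_filter] at hn2
        obtain ⟨hn2F, b1, b2⟩ := hn2
        obtain ⟨a1, a2, a3, a4⟩ := hF n2 hn2F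
        have h4 := hΦ1 t ht1 ht2 (iso_of hRH (by linarith) hρ0 a1 a4 b1 b2)
        have h5 : (F.filter (fun n => ord n + r + ρ ≤ t ∧ t ≤ ord (n + m) - r - ρ)).card ≤ m := by
          apply overlap (t := t)
          intro n hn
          rw [Finset.mem_filter] at hn
          obtain ⟨hnF, b3, b4⟩ := hn
          exact ⟨(hF n hnF).1, by linarith, by linarith⟩
        calc ((F.filter (fun n => ord n + r + ρ ≤ t ∧ t ≤ ord (n + m) - r - ρ)).card : ℝ) ≤
            m * 1 := by rw [mul_one]; exact_mod_cast h5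
          _ ≤ m * Φ t := by gcongr
      · rw [Finset.not_nonempty_iff_eq_empty] at hfe
        rw [hfe, Finset.card_empty, Nat.cast_zero]
        have := hΦ0 t
        positivity)
    have h2 : ∫ t in (T + 6 * L)..(2 * T - 6 * L), (m : ℝ) * Φ t ≤
        m * ∫ t in T..(2 * T), Φ t := by
      rw [intervalIntegral.integral_const_mul]
      gcongr
      refine intervalIntegral.integral_mono_interval (by linarith) hV (by linarith) ?_
        (hΦc.intervalIntegrable _ _)
      exact Filter.Eventually.of_forall fun t => hΦ0 t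
    have h3 : (F.card : ℝ) * (β * m / L) ≤ m * (K * (T * (b / L + 1 / (b * r) ^ 3))) :=
      h1.trans (h2.trans (by gcongr))
    have e1 : b / L = 1 / β * (1 / x) := by rw [hb]; field_simp
    have e2 : b * r = y := by rw [hr]; field_simp
    rw [e1, e2, hy3] at h3
    have e3 : (m : ℝ) ^ (-(3 / 4) : ℝ) = 1 / x := by
      rw [hx, Real.rpow_neg hm0.le, one_div]
    rw [e3]
    have h4 : (F.card : ℝ) * (β * m / L) = (F.card : ℝ) * β * (m / L) := by ring
    have h5 : m * (K * (T * (1 / β * (1 / x) + 1 / x))) =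
      (K * (1 / β + 1) * (1 / x) * (T * L)) * (m / L) := by field_simp
    rw [h4, h5] at h3
    have h6 := le_of_mul_le_mul_right h3 (by positivity)
    calc (F.card : ℝ) = (F.card : ℝ) * β / β := by field_simp
      _ ≤ (K * (1 / β + 1) * (1 / x) * (T * L)) / β := by gcongr
      _ = _ := by ring
  · rw [Finset.not_nonempty_iff_eq_empty] at hne
    rw [hne, Finset.card_empty, Nat.cast_zero]
    positivity

/-- the ordinates grow slowly -/
theorem ord_short (hRH : RHs) : ∃ A : ℝ, 10 ≤ A ∧ ∀ n : ℕ, 1 ≤ n → A ≤ ord n → ∀ m : ℕ,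
    ord (n + m) ≤ ord n + 60 + 30 * m := by
  obtain ⟨A1, hA1, h⟩ := LD.all_sum hRH 1 one_pos le_rfl 1 one_pos le_rfl
  obtain ⟨TL, hTL, hlog⟩ := LG.CTAux.log_ev 8
  refine ⟨max A1 TL, hA1.trans (le_max_left _ _), fun n hn hA m => ?_⟩
  obtain ⟨hL1, hL2⟩ := hlog (ord n) ((le_max_right _ _).trans hA)
  have hA10 : 10 ≤ ord n := hA1.trans ((le_max_left _ _).trans hA)
  have hpi := Real.pi_gt_three
  have hpi4 := Real.pi_lt_d2
  set a := ord n with ha
  have ha0 : 0 < a := by linarith
  set f := ⌈Real.log a⌉₊ with hf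
  have hf1 : Real.log a ≤ f := Nat.le_ceil _
  have hf2 : (f : ℝ) < Real.log a + 1 := Nat.ceil_lt_add_one (by linarith)
  set M := m + f with hM
  have hmono : a ≤ ord (n + M) := SG.ord_mono hn (by omega)
  have hmono2 : ord (n + m) ≤ ord (n + M) := SG.ord_mono (by omega) (by omega)
  have h1 := (abs_le.1 (h n hn ((le_max_left _ _).trans hA) M (by
    rw [one_mul, hM]
    push_cast
    have : (0 : ℝ) ≤ m := Nat.cast_nonneg _
    linarith))).2
  have hM' : (M : ℝ) = m + f := by rw [hM]; push_cast; ring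
  have htel : ∑ i ∈ Finset.range M, (ord (n + i + 1) - ord (n + i)) = ord (n + M) - ord n := by
    have := Finset.sum_range_sub (fun i => ord (n + i)) M
    simp only [add_zero] at this
    rw [← this]
    rfl
  have hlow : Real.log a - 2 ≤ Real.log (a / (2 * Real.pi)) := by
    rw [Real.log_div ha0.ne' (by positivity)]
    have h2 : Real.log (2 * Real.pi) ≤ 2 := by
      rw [Real.log_le_iff_le_exp (by positivity)]
      have e3 : Real.exp 2 = Real.exp 1 ^ 2 := by rw [← Real.exp_nat_mul]; norm_num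
      have e4 := Real.exp_one_gt_d9
      have e5 : (2.7182818283 : ℝ) ^ 2 ≤ Real.exp 1 ^ 2 := pow_le_pow_left₀ (by norm_num) e4.le 2
      rw [e3]
      norm_num at e5
      linarith
    linarith
  have h3 : (ord (n + M) - ord n) / (2 * Real.pi) * (Real.log a - 2) ≤
      ∑ i ∈ Finset.range M, LG.CU.del (n + i) := by
    rw [← htel, Finset.sum_div, Finset.sum_mul]
    refine Finset.sum_le_sum fun i _ => ?_
    unfold LG.CU.del
    have g1 : a ≤ ord (n + i) := SG.ord_mono hn (by omega)
    have g3 : ord (n + i) ≤ ord (n + i + 1) := SG.ord_mono (by omega) (by omega)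
    apply mul_le_mul_of_nonneg_left _ (div_nonneg (by linarith) (by linarith))
    refine hlow.trans (Real.log_le_log (by positivity) ?_)
    gcongr
  have h4 : (ord (n + M) - a) / (2 * Real.pi) * (Real.log a - 2) ≤ 2 * M := by
    rw [ha]
    linarith
  have h5 : (ord (n + M) - a) * (Real.log a - 2) ≤ 2 * M * (2 * Real.pi) := by
    rw [div_mul_eq_mul_div, div_le_iff₀ (by positivity)] at h4
    exact h4
  rw [hM'] at h5
  have hm0 : (0 : ℝ) ≤ m := Nat.cast_nonneg _
  have hf0 : (0 : ℝ) ≤ f := Nat.cast_nonneg _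
  by_contra hcon
  push Not at hcon
  have h6 : 60 + 30 * (m : ℝ) < ord (n + M) - a := by linarith
  have h7 : (60 + 30 * (m : ℝ)) * (Real.log a - 2) < 2 * (m + f) * (2 * Real.pi) :=
    lt_of_lt_of_le (mul_lt_mul_of_pos_right h6 (by linarith)) h5
  have h8 : 2 * ((m : ℝ) + f) * (2 * Real.pi) ≤ (m + Real.log a + 1) * 12.6 := by
    nlinarith
  nlinarith

end Pool.Agent.TH800.MS
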