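import Pool.Agent.TH800.MS.Core3

/-! The law of large numbers with a smooth weight. -/

open Complex Filter Topology Set MeasureTheory
open scoped ComplexConjugate

namespace Pool.Agent.TH800.MS

open SP
open H370 (Zf good_zeta)

theorem swapI {a b c d : ℝ} (h1 : a ≤ b) (h2 : c ≤ d) {F : ℝ → ℝ → ℝ}
    (hF : Continuous (Function.uncurry F)) :
    ∫ x in a..b, ∫ y in c..d, F x y = ∫ y in c..d, ∫ x in a..b, F x y := by
  simp only [intervalIntegral.integral_of_le h1, intervalIntegral.integral_of_le h2]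
  apply integral_integral_swap
  rw [Measure.prod_restrict]
  have : IntegrableOn (Function.uncurry F) (Icc a b ×ˢ Icc c d) (volume.prod volume) :=
    hF.continuousOn.integrableOn_compact (isCompact_Icc.prod isCompact_Icc)
  exact this.mono_set (prod_mono Ioc_subset_Icc_self Ioc_subset_Icc_self)

/-- comparison of a weighted integral with its expected value -/
lemma byparts {f ω ω' : ℝ → ℝ} (hf : Continuous f) (hω : ∀ x, HasDerivAt ω (ω' x) x)
    (hω' : Continuous ω') {X : ℝ} (L b : ℝ) :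
    (∫ u in (0 : ℝ)..X, ω u * f u) - (ω 0 * (L ^ 2 / (3 * b)) +
      ∫ x in (0 : ℝ)..X, ω x * (2 * x / (3 * b))) =
    ω X * ((∫ u in (0 : ℝ)..X, f u) - (L ^ 2 + X ^ 2) / (3 * b)) -
      ∫ x in (0 : ℝ)..X, ω' x * ((∫ u in (0 : ℝ)..x, f u) - (L ^ 2 + x ^ 2) / (3 * b)) := by
  set G : ℝ → ℝ := fun x => (∫ u in (0 : ℝ)..x, f u) - (L ^ 2 + x ^ 2) / (3 * b) with hG
  have hGd : ∀ x, HasDerivAt G (f x - 2 * x / (3 * b)) x := by
    intro x
    have h1 : HasDerivAt (fun x => ∫ u in (0 : ℝ)..x, f u) (f x) x :=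
      intervalIntegral.integral_hasDerivAt_right (hf.intervalIntegrable _ _)
        (hf.stronglyMeasurableAtFilter _ _) hf.continuousAt
    have h2 : HasDerivAt (fun x : ℝ => (L ^ 2 + x ^ 2) / (3 * b)) (2 * x / (3 * b)) x := by
      have h3 := ((hasDerivAt_pow 2 x).const_add (L ^ 2)).div_const (3 * b)
      refine h3.congr_deriv ?_
      norm_num
    exact h1.sub h2
  have hGc : Continuous G := continuous_iff_continuousAt.2 fun x => (hGd x).continuousAt
  have hωc : Continuous ω := continuous_iff_continuousAt.2 fun x => (hω x).continuousAt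
  have hGd'c : Continuous fun x => f x - 2 * x / (3 * b) := hf.sub (by fun_prop)
  have h4 := intervalIntegral.integral_mul_deriv_eq_deriv_mul_of_hasDerivAt (a := 0) (b := X)
    hωc.continuousOn hGc.continuousOn (fun x _ => hω x) (fun x _ => hGd x)
    (hω'.intervalIntegrable _ _) (hGd'c.intervalIntegrable _ _)
  have h5 : ∫ x in (0 : ℝ)..X, ω x * (f x - 2 * x / (3 * b)) =
      (∫ u in (0 : ℝ)..X, ω u * f u) - ∫ x in (0 : ℝ)..X, ω x * (2 * x / (3 * b)) := by
    have i1 : IntervalIntegrable (fun u => ω u * f u) volume 0 X :=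
      (hωc.mul hf).intervalIntegrable _ _
    have hq : Continuous fun x : ℝ => 2 * x / (3 * b) := by fun_prop
    have i2 : IntervalIntegrable (fun x => ω x * (2 * x / (3 * b))) volume 0 X :=
      (hωc.mul hq).intervalIntegrable _ _
    rw [← intervalIntegral.integral_sub i1 i2]
    refine intervalIntegral.integral_congr fun x _ => ?_
    ring
  rw [h5] at h4
  have h6 : G 0 = -(L ^ 2 / (3 * b)) := by simp [hG]
  rw [h6] at h4
  linarith

/-- the random part, for smooth weights -/
noncomputable def YY (L C : ℝ) (N : ℕ) (b X t : ℝ) : ℝ :=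
  Yf L C N b X t + Yf L C N b b t + 1 / L * ∫ x in b..X, Yf L C N b x t

lemma Yf_cont2 (L C : ℝ) (N : ℕ) (b : ℝ) :
    Continuous (Function.uncurry fun t x : ℝ => Yf L C N b x t) := by
  have hsq : Continuous (Function.uncurry fun (p : ℝ × ℝ) (u : ℝ) => ‖D1 N b p.1 u‖ ^ 2) := by
    show Continuous fun q : (ℝ × ℝ) × ℝ => ‖D1 N b q.1.1 q.2‖ ^ 2
    exact ((D1_cont2 N b).comp (by fun_prop : Continuous fun q : (ℝ × ℝ) × ℝ =>
      (q.1.1, q.2))).norm.pow 2
  have hno : Continuous (Function.uncurry fun (p : ℝ × ℝ) (u : ℝ) => ‖D1 N b p.1 u‖) := by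
    show Continuous fun q : (ℝ × ℝ) × ℝ => ‖D1 N b q.1.1 q.2‖
    exact ((D1_cont2 N b).comp (by fun_prop : Continuous fun q : (ℝ × ℝ) × ℝ =>
      (q.1.1, q.2))).norm
  have hli : Continuous (Function.uncurry fun (p : ℝ × ℝ) (u : ℝ) =>
      (be b u : ℂ) * D1 N b p.1 u) := by
    show Continuous fun q : (ℝ × ℝ) × ℝ => (be b q.2 : ℂ) * D1 N b q.1.1 q.2
    exact (Complex.continuous_ofReal.comp (be_cont.comp continuous_snd)).mul
      ((D1_cont2 N b).comp (by fun_prop : Continuous fun q : (ℝ × ℝ) × ℝ => (q.1.1, q.2)))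
  have hdg : Continuous fun p : ℝ × ℝ => diag N b 0 p.2 := by
    unfold diag Bc
    refine continuous_finsetSum _ fun p _ => continuous_const.mul ?_
    apply intervalIntegral.continuous_parametric_intervalIntegral_of_continuous _ continuous_snd
    show Continuous fun q : (ℝ × ℝ) × ℝ => be b (Real.log p - q.2) * be b (Real.log p - q.2)
    exact ((be_comp b _).comp continuous_snd).mul ((be_comp b _).comp continuous_snd)
  unfold Function.uncurry Yf
  have k1 := intervalIntegral.continuous_parametric_intervalIntegral_of_continuous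
    (μ := volume) (a₀ := 0) hsq (s := fun p : ℝ × ℝ => p.2) continuous_snd
  have k2 := intervalIntegral.continuous_parametric_intervalIntegral_of_continuous
    (μ := volume) (a₀ := 0) hno (s := fun p : ℝ × ℝ => p.2) continuous_snd
  have k3 := intervalIntegral.continuous_parametric_intervalIntegral_of_continuous
    (μ := volume) (a₀ := 0) hli (s := fun p : ℝ × ℝ => p.2) continuous_snd
  exact (((((k1.sub hdg).abs.add (continuous_const.mul k3.norm)).add
    (continuous_const.mul ((intL_cont N b (-b) 0).norm.comp continuous_fst))).add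
    (continuous_const.mul ((intD_cont N b (-b) b).comp continuous_fst))).add
    (continuous_const.mul k2))

lemma Yf_nonneg {L C b x : ℝ} (hL : 0 ≤ L) (hC : 0 ≤ C) (hb : 0 ≤ b) (hx : 0 ≤ x) (N : ℕ)
    (t : ℝ) : 0 ≤ Yf L C N b x t := by
  unfold Yf
  have h1 : 0 ≤ ∫ u in (-b)..b, ‖D1 N b t u‖ ^ 2 :=
    intervalIntegral.integral_nonneg (by linarith) fun u _ => by positivity
  have h2 : 0 ≤ ∫ u in (0 : ℝ)..x, ‖D1 N b t u‖ :=
    intervalIntegral.integral_nonneg hx fun u _ => norm_nonneg _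
  positivity

attribute [local irreducible] Yf

lemma Yf_sq_cont2 (L C : ℝ) (N : ℕ) (b : ℝ) :
    Continuous (Function.uncurry fun t x : ℝ => Yf L C N b x t ^ 2) :=
  (Yf_cont2 L C N b).pow 2

lemma Yf_cont_x (L C : ℝ) (N : ℕ) (b t : ℝ) : Continuous fun x => Yf L C N b x t :=
  (Yf_cont2 L C N b).comp (Continuous.prodMk_right t)

lemma Yf_sq_cont3 (L C : ℝ) (N : ℕ) (b : ℝ) :
    Continuous (Function.uncurry fun x t : ℝ => Yf L C N b x t ^ 2) :=
  (Yf_sq_cont2 L C N b).comp continuous_swap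

lemma YY_cont (L C : ℝ) (N : ℕ) (b X : ℝ) : Continuous (YY L C N b X) := by
  unfold YY
  exact ((Yf_cont L C N b X).add (Yf_cont L C N b b)).add (continuous_const.mul
    (intervalIntegral.continuous_parametric_intervalIntegral_of_continuous'
      (Yf_cont2 L C N b) b X))

lemma YY_nonneg {L C b X : ℝ} (hL : 0 ≤ L) (hC : 0 ≤ C) (hb : 0 ≤ b) (hX : b ≤ X) (N : ℕ)
    (t : ℝ) : 0 ≤ YY L C N b X t := by
  unfold YY
  have h1 := Yf_nonneg hL hC hb (hb.trans hX) N t
  have h2 := Yf_nonneg hL hC hb hb N t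
  have h3 : 0 ≤ ∫ x in b..X, Yf L C N b x t :=
    intervalIntegral.integral_nonneg hX fun x hx => Yf_nonneg hL hC hb (hb.trans hx.1) N t
  positivity

/-- Cauchy–Schwarz on an interval -/
lemma cs_int' {f : ℝ → ℝ} (hf : Continuous f) {a x : ℝ} (hx : a ≤ x) :
    (∫ u in a..x, f u) ^ 2 ≤ (x - a) * ∫ u in a..x, f u ^ 2 := by
  have h := cs_int (f := fun u => f (u + a)) (by fun_prop) (x := x - a) (by linarith)
  rw [intervalIntegral.integral_comp_add_right (fun u => f u),
    intervalIntegral.integral_comp_add_right (fun u => f u ^ 2)] at h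
  simpa using h

/-- second moment of the random part -/
theorem YY_var (μ2 C : ℝ) (h0 : 0 < μ2) (h2 : μ2 < 1 / 2) (hC : 0 ≤ C) :
    ∃ K T0 : ℝ, 0 < K ∧ 10 ≤ T0 ∧ ∀ T : ℝ, T0 ≤ T → ∀ b X : ℝ, 1 ≤ b → b ≤ X →
      X ≤ Real.log T →
      ∫ t in T..(2 * T), YY (Real.log T) C ⌊T ^ μ2⌋₊ b X t ^ 2 ≤
        K * (T * (Real.log T ^ 3 / b)) := by
  obtain ⟨K, T0, hK, hT0, h⟩ := core_var μ2 C h0 h2 hC
  refine ⟨9 * K, T0, by positivity, hT0, fun T hT b X hb1 hbX hXL => ?_⟩
  have hT10 : 10 ≤ T := hT0.trans hT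
  have hT2 : T ≤ 2 * T := by linarith
  have hb : 0 < b := by linarith
  have hL0 : 0 < Real.log T := by linarith
  set L := Real.log T with hL
  set N := ⌊T ^ μ2⌋₊ with hN
  set V := T * (L ^ 3 / b) with hV
  have hV0 : 0 < V := by
    have : 0 < T := by linarith
    positivity
  have a1 := h T hT b X hb1 hbX hXL
  have a2 := h T hT b b hb1 le_rfl (hbX.trans hXL)
  set Z : ℝ → ℝ := fun t => ∫ x in b..X, Yf L C N b x t with hZ
  have hZc : Continuous Z := intervalIntegral.continuous_parametric_intervalIntegral_of_continuous'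
      (Yf_cont2 L C N b) b X
  have hF := Yf_sq_cont2 L C N b
  have hF' := Yf_sq_cont3 L C N b
  have a3 : ∫ t in T..(2 * T), Z t ^ 2 ≤ L ^ 2 * (K * V) := by
    calc ∫ t in T..(2 * T), Z t ^ 2 ≤
        ∫ t in T..(2 * T), (X - b) * ∫ x in b..X, Yf L C N b x t ^ 2 := by
          refine intervalIntegral.integral_mono_on hT2 ((hZc.pow 2).intervalIntegrable _ _)
            ((continuous_const.mul
              (intervalIntegral.continuous_parametric_intervalIntegral_of_continuous' hF b X)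
              ).intervalIntegrable _ _) fun t _ => ?_
          exact cs_int' (Yf_cont_x L C N b t) hbX
      _ = (X - b) * ∫ x in b..X, ∫ t in T..(2 * T), Yf L C N b x t ^ 2 := by
          rw [intervalIntegral.integral_const_mul, swapI hT2 hbX hF]
      _ ≤ (X - b) * ∫ x in b..X, K * V := by
          have hXb : 0 ≤ X - b := by linarith
          apply mul_le_mul_of_nonneg_left _ hXb
          refine intervalIntegral.integral_mono_on hbX
            ((intervalIntegral.continuous_parametric_intervalIntegral_of_continuous'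
              hF' T (2 * T)).intervalIntegrable _ _)
            (continuous_const.intervalIntegrable _ _) fun x hx => ?_
          exact h T hT b x hb1 hx.1 (hx.2.trans hXL)
      _ = (X - b) ^ 2 * (K * V) := by
          rw [intervalIntegral.integral_const, smul_eq_mul]
          ring
      _ ≤ L ^ 2 * (K * V) := by
          have : 0 ≤ X - b := by linarith
          gcongr
          linarith
  have key : ∀ a b c : ℝ, (a + b + c) ^ 2 ≤ 3 * (a ^ 2 + b ^ 2 + c ^ 2) := by
    intro a b c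
    linarith [sq_nonneg (a - b), sq_nonneg (a - c), sq_nonneg (b - c)]
  have i1 : IntervalIntegrable (fun t => Yf L C N b X t ^ 2) volume T (2 * T) :=
    ((Yf_cont L C N b X).pow 2).intervalIntegrable _ _
  have i2 : IntervalIntegrable (fun t => Yf L C N b b t ^ 2) volume T (2 * T) :=
    ((Yf_cont L C N b b).pow 2).intervalIntegrable _ _
  have i3 : IntervalIntegrable (fun t => (1 / L * Z t) ^ 2) volume T (2 * T) :=
    ((continuous_const.mul hZc).pow 2).intervalIntegrable _ _
  have i4 := i1.add i2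
  have i5 := i4.add i3
  calc ∫ t in T..(2 * T), YY L C N b X t ^ 2 ≤
      ∫ t in T..(2 * T), 3 * (Yf L C N b X t ^ 2 + Yf L C N b b t ^ 2 + (1 / L * Z t) ^ 2) := by
        refine intervalIntegral.integral_mono_on hT2
          (((YY_cont L C N b X).pow 2).intervalIntegrable _ _) (i5.const_mul 3) fun t _ => ?_
        exact key _ _ _
    _ = 3 * ((∫ t in T..(2 * T), Yf L C N b X t ^ 2) +
        (∫ t in T..(2 * T), Yf L C N b b t ^ 2) +
        1 / L ^ 2 * ∫ t in T..(2 * T), Z t ^ 2) := by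
        rw [intervalIntegral.integral_const_mul, intervalIntegral.integral_add i4 i3,
          intervalIntegral.integral_add i1 i2]
        have : ∀ t, (1 / L * Z t) ^ 2 = 1 / L ^ 2 * Z t ^ 2 := fun t => by ring
        simp_rw [this]
        rw [intervalIntegral.integral_const_mul]
    _ ≤ 3 * (K * V + K * V + 1 / L ^ 2 * (L ^ 2 * (K * V))) := by gcongr
    _ = 9 * K * V := by field_simp; ring

/-- **law of large numbers** for the local form factor -/
theorem lln (hRH : RHs) (lam μ1 μ2 : ℝ) (h0 : 0 < lam) (hlm : lam < μ1) (h12 : μ1 < μ2)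
    (h2 : μ2 < 1 / 2) :
    ∃ C K T0 : ℝ, 0 < C ∧ 0 < K ∧ 10 ≤ T0 ∧ ∀ T : ℝ, T0 ≤ T → ∀ b : ℝ, 1 ≤ b →
      b ≤ lam * Real.log T → b ≤ (μ1 - lam) * Real.log T →
      ∀ t : ℝ, T + Real.log T ≤ t → t ≤ 2 * T - Real.log T →
      ∀ (ψ ψ' : ℝ → ℝ) (B : ℝ), (∀ α, HasDerivAt ψ (ψ' α) α) → Continuous ψ' →
      (∀ α, 0 ≤ α → α ≤ lam → |ψ α| ≤ B ∧ |ψ' α| ≤ B) →
      |(∫ u in (0 : ℝ)..(lam * Real.log T), ψ (u / Real.log T) * ‖SS T b t u‖ ^ 2) -
        Real.log T ^ 2 / (3 * b) * (ψ 0 + 2 * ∫ α in (0 : ℝ)..lam, α * ψ α)| ≤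
        B * (K * (Real.log T + Real.log T ^ 2 / b ^ 2) +
          YY (Real.log T) C ⌊T ^ μ2⌋₊ b (lam * Real.log T) t) := by
  obtain ⟨C, K, T0, hC, hK, hT0, h⟩ := core_pt hRH μ1 μ2 (h0.trans hlm) h12 h2
  refine ⟨C, 3 * K + 2, T0, hC, by positivity, hT0,
    fun T hT b hb1 hbl hbm t ht1 ht2 ψ ψ' B hψ hψ' hB => ?_⟩
  have hT10 : 10 ≤ T := hT0.trans hT
  have hb : 0 < b := by linarith
  have hL0 : 0 < Real.log T := Real.log_pos (by linarith)
  set L := Real.log T with hL
  set N := ⌊T ^ μ2⌋₊ with hN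
  set X := lam * L with hX
  have hX0 : 0 < X := by positivity
  have hXL : X ≤ L := by nlinarith
  have hbL : b ≤ L := hbl.trans hXL
  have hXb : X + b ≤ μ1 * L := by nlinarith
  have hB0 : 0 ≤ B := (abs_nonneg _).trans (hB 0 le_rfl h0.le).1
  set f : ℝ → ℝ := fun u => ‖SS T b t u‖ ^ 2 with hf
  have hfc : Continuous f := (SS_cont T b t).norm.pow 2
  have hf0 : ∀ u, 0 ≤ f u := fun u => by positivity
  have hωd : ∀ x, HasDerivAt (fun u => ψ (u / L)) (ψ' (x / L) / L) x := by
    intro x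
    have h3 := (hψ (x / L)).comp x ((hasDerivAt_id x).div_const L)
    refine h3.congr_deriv ?_
    ring
  have hω'c : Continuous fun x => ψ' (x / L) / L := (hψ'.comp (by fun_prop)).div_const L
  have hbp := byparts hfc hωd hω'c (X := X) L b
  have hψc : Continuous ψ := continuous_iff_continuousAt.2 fun x => (hψ x).continuousAt
  have hmain : ψ (0 / L) * (L ^ 2 / (3 * b)) + ∫ x in (0 : ℝ)..X, ψ (x / L) * (2 * x / (3 * b)) =
      L ^ 2 / (3 * b) * (ψ 0 + 2 * ∫ α in (0 : ℝ)..lam, α * ψ α) := by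
    have h4 := intervalIntegral.integral_comp_div (a := 0) (b := X)
      (fun α => α * ψ α) hL0.ne'
    have h5 : X / L = lam := by rw [hX]; field_simp
    rw [zero_div, h5, smul_eq_mul] at h4
    have h6 : ∫ x in (0 : ℝ)..X, ψ (x / L) * (2 * x / (3 * b)) =
        2 * L / (3 * b) * ∫ x in (0 : ℝ)..X, x / L * ψ (x / L) := by
      rw [← intervalIntegral.integral_const_mul]
      refine intervalIntegral.integral_congr fun x _ => ?_
      field_simp
    rw [h6, h4, zero_div]
    field_simp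
  rw [hmain] at hbp
  rw [hbp]
  set Δ := L + L ^ 2 / b ^ 2 with hΔ
  have hΔ0 : 0 ≤ Δ := by positivity
  have hLΔ : L ≤ Δ := by rw [hΔ]; linarith [show 0 ≤ L ^ 2 / b ^ 2 by positivity]
  set G : ℝ → ℝ := fun x => (∫ u in (0 : ℝ)..x, f u) - (L ^ 2 + x ^ 2) / (3 * b) with hG
  have hcore : ∀ x, b ≤ x → x ≤ X → |G x| ≤ K * Δ + Yf L C N b x t := fun x h3 h4 =>
    h T hT b x hb1 h3 (by linarith) t ht1 ht2
  have hGc : Continuous G := by
    have h3 : Continuous fun x => ∫ u in (0 : ℝ)..x, f u :=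
      intervalIntegral.continuous_primitive (fun a b => hfc.intervalIntegrable a b) 0
    exact h3.sub (by fun_prop)
  have hsmall : ∀ x, 0 ≤ x → x ≤ b → |G x| ≤ 4 / 3 * (L ^ 2 / b) + K * Δ + Yf L C N b b t := by
    intro x h3 h4
    have h5 := hcore b le_rfl hbl
    have h6 : ∫ u in (0 : ℝ)..b, f u ≤ K * Δ + Yf L C N b b t + (L ^ 2 + b ^ 2) / (3 * b) := by
      have := (abs_le.1 h5).2
      simp only [hG] at this
      linarith
    have h7 : (∫ u in (0 : ℝ)..x, f u) ≤ ∫ u in (0 : ℝ)..b, f u :=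
      intervalIntegral.integral_mono_interval le_rfl h3 h4
        (Eventually.of_forall fun u => hf0 u) (hfc.intervalIntegrable _ _)
    have h8 : 0 ≤ ∫ u in (0 : ℝ)..x, f u := intervalIntegral.integral_nonneg h3 fun u _ => hf0 u
    have h9 : (L ^ 2 + b ^ 2) / (3 * b) ≤ 2 / 3 * (L ^ 2 / b) := by
      rw [div_le_iff₀ (by positivity)]
      have : 2 / 3 * (L ^ 2 / b) * (3 * b) = 2 * L ^ 2 := by field_simp
      rw [this]
      nlinarith
    have h10 : (L ^ 2 + x ^ 2) / (3 * b) ≤ (L ^ 2 + b ^ 2) / (3 * b) := by gcongr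
    have h11 : 0 ≤ (L ^ 2 + x ^ 2) / (3 * b) := by positivity
    have h12 := Yf_nonneg hL0.le hC.le hb.le hb.le N t
    have h13 : 0 ≤ K * Δ := by positivity
    have h14 : 0 ≤ L ^ 2 / b := by positivity
    simp only [hG]
    rw [abs_le]
    constructor <;> linarith
  have hi : ∀ c d : ℝ, IntervalIntegrable (fun x => ψ' (x / L) / L * G x) volume c d :=
    fun c d => (hω'c.mul hGc).intervalIntegrable _ _
  have hω'b : ∀ x, 0 ≤ x → x ≤ X → |ψ' (x / L) / L| ≤ B / L := by
    intro x h3 h4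
    rw [abs_div, abs_of_pos hL0]
    have h5 : x / L ≤ lam := by
      rw [div_le_iff₀ hL0]
      exact h4
    gcongr
    exact (hB (x / L) (by positivity) h5).2
  have hYc := Yf_cont_x L C N b t
  have e1 : |∫ x in (0 : ℝ)..b, ψ' (x / L) / L * G x| ≤
      B / L * (4 / 3 * (L ^ 2 / b) + K * Δ + Yf L C N b b t) * b := by
    have h3 := intervalIntegral.norm_integral_le_of_norm_le_const (a := 0) (b := b)
      (C := B / L * (4 / 3 * (L ^ 2 / b) + K * Δ + Yf L C N b b t))
      (f := fun x => ψ' (x / L) / L * G x) (fun x hx => by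
        rw [Set.uIoc_of_le hb.le] at hx
        rw [Real.norm_eq_abs, abs_mul]
        apply mul_le_mul (hω'b x hx.1.le (hx.2.trans hbl)) (hsmall x hx.1.le hx.2)
          (abs_nonneg _) (by positivity))
    rw [sub_zero, abs_of_pos hb] at h3
    exact h3
  have e2 : |∫ x in b..X, ψ' (x / L) / L * G x| ≤
      B / L * (K * Δ * (X - b) + ∫ x in b..X, Yf L C N b x t) := by
    rw [← Real.norm_eq_abs]
    have h3 : ‖∫ x in b..X, ψ' (x / L) / L * G x‖ ≤
        ∫ x in b..X, B / L * (K * Δ + Yf L C N b x t) := by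
      apply intervalIntegral.norm_integral_le_of_norm_le hbl
      · refine Eventually.of_forall fun x hx => ?_
        rw [Real.norm_eq_abs, abs_mul]
        apply mul_le_mul (hω'b x (by linarith [hx.1]) hx.2) (hcore x hx.1.le hx.2)
          (abs_nonneg _) (by positivity)
      · exact (continuous_const.mul (continuous_const.add hYc)).intervalIntegrable _ _
    refine h3.trans (le_of_eq ?_)
    rw [intervalIntegral.integral_const_mul, intervalIntegral.integral_add
      (continuous_const.intervalIntegrable _ _) (hYc.intervalIntegrable _ _),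
      intervalIntegral.integral_const, smul_eq_mul]
    ring
  have e3 : |∫ x in (0 : ℝ)..X, ψ' (x / L) / L * G x| ≤
      B / L * (4 / 3 * (L ^ 2 / b) + K * Δ + Yf L C N b b t) * b +
      B / L * (K * Δ * (X - b) + ∫ x in b..X, Yf L C N b x t) := by
    rw [← intervalIntegral.integral_add_adjacent_intervals (hi 0 b) (hi b X)]
    exact (abs_add_le _ _).trans (add_le_add e1 e2)
  have e4 : |ψ (X / L) * G X| ≤ B * (K * Δ + Yf L C N b X t) := by
    rw [abs_mul]
    have h5 : X / L = lam := by rw [hX]; field_simp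
    rw [h5]
    exact mul_le_mul (hB lam h0.le le_rfl).1 (hcore X hbl le_rfl) (abs_nonneg _) hB0
  have e5 : B / L * (4 / 3 * (L ^ 2 / b) + K * Δ + Yf L C N b b t) * b ≤
      B * (4 / 3 * L + K * Δ + Yf L C N b b t) := by
    have h12 := Yf_nonneg hL0.le hC.le hb.le hb.le N t
    have h13 : b / L ≤ 1 := by rw [div_le_one hL0]; exact hbL
    have h14 : B / L * (4 / 3 * (L ^ 2 / b) + K * Δ + Yf L C N b b t) * b =
        B * (4 / 3 * L + b / L * (K * Δ + Yf L C N b b t)) := by
      field_simp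
      ring
    rw [h14]
    have h15 : b / L * (K * Δ + Yf L C N b b t) ≤ 1 * (K * Δ + Yf L C N b b t) := by
      apply mul_le_mul_of_nonneg_right h13
      positivity
    apply mul_le_mul_of_nonneg_left _ hB0
    linarith
  have e6 : B / L * (K * Δ * (X - b) + ∫ x in b..X, Yf L C N b x t) ≤
      B * (K * Δ + 1 / L * ∫ x in b..X, Yf L C N b x t) := by
    have h14 : B / L * (K * Δ * (X - b) + ∫ x in b..X, Yf L C N b x t) =
        B * (K * Δ * ((X - b) / L) + 1 / L * ∫ x in b..X, Yf L C N b x t) := by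
      field_simp
    rw [h14]
    apply mul_le_mul_of_nonneg_left _ hB0
    have h15 : (X - b) / L ≤ 1 := by rw [div_le_one hL0]; linarith
    have h16 : K * Δ * ((X - b) / L) ≤ K * Δ * 1 := by gcongr
    linarith
  calc |ψ (X / L) * G X - ∫ x in (0 : ℝ)..X, ψ' (x / L) / L * G x| ≤
      |ψ (X / L) * G X| + |∫ x in (0 : ℝ)..X, ψ' (x / L) / L * G x| := abs_sub _ _
    _ ≤ B * (K * Δ + Yf L C N b X t) + (B * (4 / 3 * L + K * Δ + Yf L C N b b t) +
        B * (K * Δ + 1 / L * ∫ x in b..X, Yf L C N b x t)) := by linarith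
    _ = B * (4 / 3 * L + 3 * (K * Δ) + (Yf L C N b X t + Yf L C N b b t +
          1 / L * ∫ x in b..X, Yf L C N b x t)) := by ring
    _ ≤ B * ((3 * K + 2) * Δ + (Yf L C N b X t + Yf L C N b b t +
          1 / L * ∫ x in b..X, Yf L C N b x t)) := by
        apply mul_le_mul_of_nonneg_left _ hB0
        nlinarith
    _ = _ := rfl

end Pool.Agent.TH800.MS
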