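import Pool.Agent.TH800.MS.Pq
import Pool.Agent.H345R2.A3.Gap

/-! Small gaps: the contribution of the zeros far from `t`. -/

open Complex Filter Topology Set MeasureTheory
open scoped ComplexConjugate

namespace Pool.Agent.TH800.MS

open SP hiding ps
open H370 (Zf good_zeta mem_Zf)
open H370.A3 (kk kk_mono cube_sum)

lemma sinc_sq_le {y : ℝ} (hy : y ≠ 0) : Real.sinc y ^ 2 ≤ 1 / y ^ 2 := by
  rw [Real.sinc_of_ne_zero hy, div_pow]
  have h1 : Real.sin y ^ 2 ≤ 1 := Real.sin_sq_le_one y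
  gcongr

lemma Om_tail {b r x : ℝ} (hb : 0 < b) (hr : 0 < r) (hx : r < |x|) :
    Om b x ^ 2 ≤ 32 / (b ^ 4 * r ^ 2) * (1 / (r ^ 2 + (x) ^ 2)) := by
  have hx0 : x ≠ 0 := by
    rintro rfl
    rw [abs_zero] at hx
    linarith
  have hx2 : r ^ 2 < x ^ 2 := by
    rw [← sq_abs x]
    have := abs_nonneg x
    nlinarith
  have hx2' : 0 < x ^ 2 := by positivity
  have h1 : Om b x ≤ 4 / (b ^ 2 * x ^ 2) := by
    unfold Om
    have h2 : Real.exp (-x ^ 2 / 2) ≤ 1 := by
      rw [Real.exp_le_one_iff]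
      linarith
    have h3 := sinc_sq_le (y := b * x / 2) (by positivity)
    have h4 : 1 / (b * x / 2) ^ 2 = 4 / (b ^ 2 * x ^ 2) := by
      field_simp
      norm_num
    rw [h4] at h3
    exact (mul_le_of_le_one_left (sq_nonneg _) h2).trans h3
  have h0 := Om_nonneg b x
  calc Om b x ^ 2 ≤ (4 / (b ^ 2 * x ^ 2)) ^ 2 := by gcongr
    _ = 16 / (b ^ 4 * (x ^ 2) ^ 2) := by field_simp; norm_num
    _ ≤ 32 / (b ^ 4 * (r ^ 2 * (r ^ 2 + x ^ 2))) := by
        rw [div_le_div_iff₀ (by positivity) (by positivity)]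
        have h5 : r ^ 2 * (r ^ 2 + x ^ 2) ≤ 2 * (x ^ 2) ^ 2 := by nlinarith [sq_nonneg r]
        have h6 : 0 < b ^ 4 := by positivity
        nlinarith
    _ = _ := by field_simp

lemma int_tail {r c a d : ℝ} (hr : 0 < r) :
    ∫ t in a..d, 1 / (r ^ 2 + (c - t) ^ 2) ≤ Real.pi / r := by
  have h1 := intervalIntegral.integral_comp_div_sub (a := a) (b := d)
    (fun x : ℝ => (1 + x ^ 2)⁻¹) hr.ne' (c / r)
  rw [integral_inv_one_add_sq, smul_eq_mul] at h1
  have h2 : ∫ t in a..d, 1 / (r ^ 2 + (c - t) ^ 2) =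
      1 / r ^ 2 * ∫ t in a..d, (1 + (t / r - c / r) ^ 2)⁻¹ := by
    rw [← intervalIntegral.integral_const_mul]
    refine intervalIntegral.integral_congr fun t _ => ?_
    show 1 / (r ^ 2 + (c - t) ^ 2) = 1 / r ^ 2 * (1 + (t / r - c / r) ^ 2)⁻¹
    have h3 : 0 < r ^ 2 + (c - t) ^ 2 := by positivity
    have h4 : 1 + (t / r - c / r) ^ 2 = (r ^ 2 + (c - t) ^ 2) / r ^ 2 := by
      field_simp
      ring
    rw [h4, inv_div]
    field_simp
  rw [h2, h1]
  have h5 := Real.arctan_lt_pi_div_two (d / r - c / r)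
  have h6 := Real.neg_pi_div_two_lt_arctan (a / r - c / r)
  have h7 : Real.arctan (d / r - c / r) - Real.arctan (a / r - c / r) ≤ Real.pi := by linarith
  calc 1 / r ^ 2 * (r * (Real.arctan (d / r - c / r) - Real.arctan (a / r - c / r))) ≤
      1 / r ^ 2 * (r * Real.pi) := by gcongr
    _ = _ := by field_simp

/-- number of zeros -/
noncomputable def NT (T : ℝ) : ℝ := ∑ s ∈ Zf riemannZeta T (2 * T), (mu s : ℝ)

lemma NT_nonneg (T : ℝ) : 0 ≤ NT T := Finset.sum_nonneg fun _ _ => Nat.cast_nonneg _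

lemma NT_le : ∃ C T0 : ℝ, 0 < C ∧ 10 ≤ T0 ∧ ∀ T : ℝ, T0 ≤ T → NT T ≤ C * (T * Real.log T) := by
  obtain ⟨C, T0, hC, hT0, h⟩ := H370.nn_asymp good_zeta
  refine ⟨C + 1, T0, by positivity, hT0, fun T hT => ?_⟩
  have hT10 : 10 ≤ T := hT0.trans hT
  have hL1 : 1 ≤ Real.log T := by
    rw [Real.le_log_iff_exp_le (by linarith)]
    exact (Real.exp_one_lt_d9.le.trans (by norm_num)).trans hT10
  have h1 := (abs_le.1 (h T hT T (2 * T) le_rfl (by linarith) (by linarith) le_rfl)).2
  rw [H370.NN_eq good_zeta (by linarith : (1 : ℝ) ≤ T)] at h1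
  push_cast at h1
  have h2 : NT T = ∑ s ∈ Zf riemannZeta T (2 * T), (H370.mult riemannZeta s : ℝ) := rfl
  rw [h2]
  have hpi := Real.pi_gt_three
  have h3 : T * Real.log T / (2 * Real.pi) ≤ T * Real.log T := by
    apply div_le_self (by positivity)
    linarith
  have h4 : C * T ≤ C * (T * Real.log T) := by
    apply mul_le_mul_of_nonneg_left _ hC.le
    nlinarith
  linarith

/-- continuous majorant of the tail -/
noncomputable def TB (T b r ρ t : ℝ) : ℝ :=
  ∑ s ∈ Zf riemannZeta (T + 4 * Real.log T) (2 * T - 4 * Real.log T), (mu s : ℝ) *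
    (kk (T + 4 * Real.log T) (2 * T - 4 * Real.log T) ρ s : ℝ) *
    (32 / (b ^ 4 * r ^ 2) * (1 / (r ^ 2 + (s.im - t) ^ 2))) +
    NT T * (NT T * Real.exp (-(Real.log T) ^ 2))

lemma TB_nonneg (T b r ρ t : ℝ) : 0 ≤ TB T b r ρ t := by
  unfold TB
  have := NT_nonneg T
  have h1 : 0 ≤ ∑ s ∈ Zf riemannZeta (T + 4 * Real.log T) (2 * T - 4 * Real.log T), (mu s : ℝ) *
    (kk (T + 4 * Real.log T) (2 * T - 4 * Real.log T) ρ s : ℝ) *
    (32 / (b ^ 4 * r ^ 2) * (1 / (r ^ 2 + (s.im - t) ^ 2))) :=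
    Finset.sum_nonneg fun s _ => by positivity
  positivity

lemma TB_cont {T b r ρ : ℝ} (hr : 0 < r) : Continuous (TB T b r ρ) := by
  unfold TB
  refine (continuous_finsetSum _ fun s _ => ?_).add continuous_const
  refine continuous_const.mul (continuous_const.mul (continuous_const.div (by fun_prop) ?_))
  intro t
  positivity

lemma kn_le_NT (T ρ : ℝ) (s : ℂ) : kn T ρ s ≤ NT T := by
  unfold kn NT
  refine Finset.sum_le_sum fun s' _ => ?_
  split_ifs
  · rw [mul_one]
  · rw [mul_zero]; exact Nat.cast_nonneg _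

lemma Tl_le {T b r ρ t : ℝ} (hT : 1 ≤ T) (hL : 0 < Real.log T) (hb : 0 < b) (hr : 0 < r)
    (hρ : ρ ≤ Real.log T) (ht1 : T + 6 * Real.log T ≤ t) (ht2 : t ≤ 2 * T - 6 * Real.log T) :
    Tl T b t r ρ ≤ TB T b r ρ t := by
  classical
  set L := Real.log T with hLdef
  set A := T + 4 * L with hA
  set B := 2 * T - 4 * L with hB
  have hA1 : 1 ≤ A := by linarith
  set Z := Zf riemannZeta T (2 * T) with hZ
  set Z' := Zf riemannZeta A B with hZ'
  have hmem : ∀ s, s ∈ Z ↔ s ∈ H370.zset riemannZeta T (2 * T) := fun s => mem_Zf good_zeta hT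
  have hmem' : ∀ s, s ∈ Z' ↔ s ∈ H370.zset riemannZeta A B := fun s => mem_Zf good_zeta hA1
  have hsub : Z' ⊆ Z := by
    intro s hs
    rw [hmem'] at hs
    rw [hmem]
    obtain ⟨a1, a2, a3, a4, a5⟩ := hs
    exact ⟨a1, a2, by linarith, by linarith, a5⟩
  have hNT := NT_nonneg T
  have hterm : ∀ s ∈ Z, (mu s : ℝ) * kn T ρ s *
      (if r < |s.im - t| then Om b (s.im - t) ^ 2 else 0) ≤
      (if s ∈ Z' then (mu s : ℝ) * (kk A B ρ s : ℝ) *
        (32 / (b ^ 4 * r ^ 2) * (1 / (r ^ 2 + (s.im - t) ^ 2))) else 0) +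
      (mu s : ℝ) * (NT T * Real.exp (-L ^ 2)) := by
    intro s hs
    have hmu : (0 : ℝ) ≤ mu s := Nat.cast_nonneg _
    have hkn := kn_nonneg T ρ s
    have hR1 : 0 ≤ (if s ∈ Z' then (mu s : ℝ) * (kk A B ρ s : ℝ) *
        (32 / (b ^ 4 * r ^ 2) * (1 / (r ^ 2 + (s.im - t) ^ 2))) else 0) := by
      split_ifs
      · positivity
      · exact le_rfl
    have hR2 : 0 ≤ (mu s : ℝ) * (NT T * Real.exp (-L ^ 2)) := by positivity
    split_ifs with hr1 hs'
    · by_cases hbulk : T + 5 * L < s.im ∧ s.im ≤ 2 * T - 5 * L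
      · have h1 : kn T ρ s ≤ (kk A B ρ s : ℝ) := by
          unfold kn kk
          push_cast
          rw [← hZ, ← hZ']
          rw [← Finset.sum_subset hsub (f := fun s' => (mu s' : ℝ) *
            if |s.im - s'.im| ≤ ρ then 1 else 0)]
          · refine Finset.sum_le_sum fun s' _ => ?_
            have : (mu s' : ℝ) = (H370.mult riemannZeta s' : ℝ) := rfl
            rw [this]
          · intro s' h2 h3
            have h4 : ¬ |s.im - s'.im| ≤ ρ := by
              intro h4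
              apply h3
              rw [hmem']
              rw [hmem] at h2
              obtain ⟨a1, a2, a3, a4, a5⟩ := h2
              obtain ⟨c1, c2⟩ := abs_le.1 h4
              exact ⟨a1, a2, by linarith [hbulk.1], by linarith [hbulk.2], a5⟩
            rw [if_neg h4, mul_zero]
        have h2 := Om_tail hb hr hr1
        calc (mu s : ℝ) * kn T ρ s * Om b (s.im - t) ^ 2 ≤ (mu s : ℝ) * (kk A B ρ s : ℝ) *
            (32 / (b ^ 4 * r ^ 2) * (1 / (r ^ 2 + (s.im - t) ^ 2))) := by gcongr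
          _ ≤ _ := le_add_of_nonneg_right hR2
      · have h1 : L ≤ |s.im - t| := by
          rw [not_and_or, not_lt, not_le] at hbulk
          rcases hbulk with h | h
          · rw [abs_sub_comm]
            exact le_trans (by linarith) (le_abs_self _)
          · exact le_trans (by linarith) (le_abs_self _)
        have h2 : Om b (s.im - t) ^ 2 ≤ Real.exp (-L ^ 2) := by
          have h3 : Om b (s.im - t) ≤ Real.exp (-L ^ 2 / 2) := by
            unfold Om
            have h4 : Real.sinc (b * (s.im - t) / 2) ^ 2 ≤ 1 := by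
              rw [sq_le_one_iff_abs_le_one]
              exact Real.abs_sinc_le_one _
            refine (mul_le_of_le_one_right (Real.exp_pos _).le h4).trans ?_
            apply Real.exp_le_exp.2
            have h5 : L ^ 2 ≤ (s.im - t) ^ 2 := by
              rw [← sq_abs (s.im - t)]
              gcongr
            linarith
          calc Om b (s.im - t) ^ 2 ≤ Real.exp (-L ^ 2 / 2) ^ 2 := by
                have := Om_nonneg b (s.im - t)
                gcongr
            _ = _ := by rw [← Real.exp_nat_mul]; congr 1; push_cast; ring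
        have h3 := kn_le_NT T ρ s
        calc (mu s : ℝ) * kn T ρ s * Om b (s.im - t) ^ 2 ≤
            (mu s : ℝ) * NT T * Real.exp (-L ^ 2) := by gcongr
          _ = (mu s : ℝ) * (NT T * Real.exp (-L ^ 2)) := by ring
          _ ≤ _ := le_add_of_nonneg_left (by positivity)
    · have h1 : L ≤ |s.im - t| := by
        by_contra hcon
        push Not at hcon
        apply hs'
        rw [hmem']
        rw [hmem] at hs
        obtain ⟨a1, a2, a3, a4, a5⟩ := hs
        obtain ⟨c1, c2⟩ := abs_lt.1 hcon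
        exact ⟨a1, a2, by linarith, by linarith, a5⟩
      have h2 : Om b (s.im - t) ^ 2 ≤ Real.exp (-L ^ 2) := by
        have h3 : Om b (s.im - t) ≤ Real.exp (-L ^ 2 / 2) := by
          unfold Om
          have h4 : Real.sinc (b * (s.im - t) / 2) ^ 2 ≤ 1 := by
            rw [sq_le_one_iff_abs_le_one]
            exact Real.abs_sinc_le_one _
          refine (mul_le_of_le_one_right (Real.exp_pos _).le h4).trans ?_
          apply Real.exp_le_exp.2
          have h5 : L ^ 2 ≤ (s.im - t) ^ 2 := by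
            rw [← sq_abs (s.im - t)]
            gcongr
          linarith
        calc Om b (s.im - t) ^ 2 ≤ Real.exp (-L ^ 2 / 2) ^ 2 := by
              have := Om_nonneg b (s.im - t)
              gcongr
          _ = _ := by rw [← Real.exp_nat_mul]; congr 1; push_cast; ring
      have h3 := kn_le_NT T ρ s
      calc (mu s : ℝ) * kn T ρ s * Om b (s.im - t) ^ 2 ≤
          (mu s : ℝ) * NT T * Real.exp (-L ^ 2) := by gcongr
        _ = 0 + (mu s : ℝ) * (NT T * Real.exp (-L ^ 2)) := by ring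
    · rw [mul_zero]
      rw [if_pos ‹s ∈ Z'›] at hR1
      exact add_nonneg hR1 hR2
    · rw [mul_zero]
      exact add_nonneg le_rfl hR2
  unfold Tl
  calc _ ≤ ∑ s ∈ Z, ((if s ∈ Z' then (mu s : ℝ) * (kk A B ρ s : ℝ) *
        (32 / (b ^ 4 * r ^ 2) * (1 / (r ^ 2 + (s.im - t) ^ 2))) else 0) +
      (mu s : ℝ) * (NT T * Real.exp (-L ^ 2))) := Finset.sum_le_sum hterm
    _ = TB T b r ρ t := by
        rw [Finset.sum_add_distrib, Finset.sum_ite_mem, Finset.inter_eq_right.2 hsub,
          ← Finset.sum_mul]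
        rfl

theorem tail (hRH : RHs) : ∃ C T0 : ℝ, 0 < C ∧ 10 ≤ T0 ∧ ∀ T : ℝ, T0 ≤ T → ∀ b r ρ : ℝ,
    0 < b → 0 < r → ρ ≤ 2 * Real.pi / Real.log T →
    ∫ t in T..(2 * T), TB T b r ρ t ≤ C * (T * Real.log T / (b ^ 4 * r ^ 3) + 1) := by
  have hpi := Real.pi_pos
  obtain ⟨C1, T1, hC1, hT1, h1⟩ := cube_sum hRH (1 / 2) (2 * Real.pi) (by norm_num) (by norm_num)
    (by positivity)
  obtain ⟨C2, T2, hC2, hT2, h2⟩ := NT_le
  have ev1 : ∀ᶠ T : ℝ in atTop, 8 * Real.log T ≤ T / 2 := by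
    have h1 := Real.isLittleO_log_id_atTop.bound (show (0 : ℝ) < 1 / 16 by norm_num)
    filter_upwards [h1, eventually_ge_atTop 1] with T h2 h3
    rw [Real.norm_of_nonneg (Real.log_nonneg h3), id, Real.norm_of_nonneg (by linarith)] at h2
    linarith
  have ev2 : ∀ᶠ T : ℝ in atTop, T ^ (1 / 2 : ℝ) ≤ T / 2 := by
    have h1 : ∀ᶠ T : ℝ in atTop, (2 : ℝ) ≤ T ^ (1 / 2 : ℝ) :=
      (tendsto_rpow_atTop (by norm_num)).eventually_ge_atTop _
    filter_upwards [h1, eventually_gt_atTop 0] with T h1 h2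
    have h3 : T ^ (1 / 2 : ℝ) * T ^ (1 / 2 : ℝ) = T := by
      rw [← Real.rpow_add h2]
      norm_num
    nlinarith
  have ev3 : ∀ᶠ T : ℝ in atTop, 5 * Real.log T ≤ Real.log T ^ 2 := by
    filter_upwards [Real.tendsto_log_atTop.eventually_ge_atTop 5] with T h
    nlinarith
  have ev4 : ∀ᶠ T : ℝ in atTop, C2 * Real.log T ≤ T := by
    have h1 := Real.isLittleO_log_id_atTop.bound (show (0 : ℝ) < 1 / C2 by positivity)
    filter_upwards [h1, eventually_ge_atTop 1] with T h2 h3
    rw [Real.norm_of_nonneg (Real.log_nonneg h3), id, Real.norm_of_nonneg (by linarith),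
      div_mul_eq_mul_div, one_mul, le_div_iff₀ hC2] at h2
    linarith
  obtain ⟨T3, hT3⟩ := (((ev1.and ev2).and ev3).and ev4).exists_forall_of_atTop
  refine ⟨max (32 * Real.pi * C1) 1, max (max T1 T2) T3, by positivity,
    hT1.trans ((le_max_left _ _).trans (le_max_left _ _)), fun T hT b r ρ hb hr hρ => ?_⟩
  have hTT1 : T1 ≤ T := ((le_max_left _ _).trans (le_max_left _ _)).trans hT
  have hTT2 : T2 ≤ T := ((le_max_right _ _).trans (le_max_left _ _)).trans hT
  obtain ⟨⟨⟨e1, e2⟩, e3⟩, e4⟩ := hT3 T ((le_max_right _ _).trans hT)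
  have hT10 : 10 ≤ T := hT1.trans hTT1
  have hT0 : 0 < T := by linarith
  have hL0 : 0 < Real.log T := Real.log_pos (by linarith)
  have hcu := h1 T hTT1 (T + 4 * Real.log T) (2 * T - 4 * Real.log T) le_rfl le_rfl (by linarith)
  have hNT := h2 T hTT2
  set L := Real.log T with hL
  set A := T + 4 * L with hA
  set B := 2 * T - 4 * L with hB
  have hNT0 := NT_nonneg T
  have hsum : ∑ s ∈ Zf riemannZeta A B, (mu s : ℝ) * (kk A B ρ s : ℝ) ≤ C1 * (T * L) := by
    calc _ ≤ ∑ s ∈ Zf riemannZeta A B, (H370.mult riemannZeta s : ℝ) *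
        (kk A B (2 * Real.pi / L) s : ℝ) ^ 2 := by
          refine Finset.sum_le_sum fun s _ => ?_
          have h3 : (kk A B ρ s : ℝ) ≤ (kk A B (2 * Real.pi / L) s : ℝ) ^ 2 := by
            have h4 : kk A B ρ s ≤ kk A B (2 * Real.pi / L) s ^ 2 :=
              (kk_mono A B hρ s).trans (Nat.le_self_pow (by norm_num) _)
            exact_mod_cast h4
          have h4 : (mu s : ℝ) = (H370.mult riemannZeta s : ℝ) := rfl
          rw [h4]
          gcongr
      _ ≤ C1 * ((B - A) * L) := hcu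
      _ ≤ C1 * (T * L) := by
          gcongr
          linarith
  have hedge : T * (NT T * (NT T * Real.exp (-L ^ 2))) ≤ 1 := by
    have h3 : NT T ≤ T ^ 2 := by
      calc NT T ≤ C2 * (T * L) := hNT
        _ = T * (C2 * L) := by ring
        _ ≤ T * T := by gcongr
        _ = T ^ 2 := by ring
    have h4 : Real.exp (-L ^ 2) ≤ Real.exp (-(5 * L)) := by
      apply Real.exp_le_exp.2
      linarith
    have h5 : Real.exp (-(5 * L)) = 1 / T ^ 5 := by
      rw [Real.exp_neg, one_div]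
      congr 1
      have : (5 : ℝ) * L = ((5 : ℕ) : ℝ) * L := by push_cast; ring
      rw [this, Real.exp_nat_mul, hL, Real.exp_log hT0]
    rw [h5] at h4
    calc T * (NT T * (NT T * Real.exp (-L ^ 2))) ≤ T * (T ^ 2 * (T ^ 2 * (1 / T ^ 5))) := by
          gcongr
      _ = 1 := by field_simp
  have hint : ∫ t in T..(2 * T), TB T b r ρ t = ∑ s ∈ Zf riemannZeta A B,
      (mu s : ℝ) * (kk A B ρ s : ℝ) * (32 / (b ^ 4 * r ^ 2) *
        ∫ t in T..(2 * T), 1 / (r ^ 2 + (s.im - t) ^ 2)) +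
      T * (NT T * (NT T * Real.exp (-L ^ 2))) := by
    unfold TB
    have hcs : ∀ s : ℂ, Continuous fun t : ℝ => (mu s : ℝ) * (kk A B ρ s : ℝ) *
        (32 / (b ^ 4 * r ^ 2) * (1 / (r ^ 2 + (s.im - t) ^ 2))) := fun s =>
      continuous_const.mul (continuous_const.mul (continuous_const.div (by fun_prop)
        (fun t => by positivity)))
    have i1 : IntervalIntegrable (fun t => ∑ s ∈ Zf riemannZeta A B, (mu s : ℝ) *
        (kk A B ρ s : ℝ) * (32 / (b ^ 4 * r ^ 2) * (1 / (r ^ 2 + (s.im - t) ^ 2))))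
        volume T (2 * T) := (continuous_finsetSum _ fun s _ => hcs s).intervalIntegrable _ _
    rw [intervalIntegral.integral_add i1 (continuous_const.intervalIntegrable _ _),
      intervalIntegral.integral_finsetSum fun s _ => (hcs s).intervalIntegrable _ _]
    simp only [intervalIntegral.integral_const_mul, intervalIntegral.integral_const, smul_eq_mul]
    congr 1
    ring
  rw [hint]
  have hmain : ∑ s ∈ Zf riemannZeta A B,
      (mu s : ℝ) * (kk A B ρ s : ℝ) * (32 / (b ^ 4 * r ^ 2) *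
        ∫ t in T..(2 * T), 1 / (r ^ 2 + (s.im - t) ^ 2)) ≤
      32 * Real.pi * C1 * (T * L / (b ^ 4 * r ^ 3)) := by
    calc _ ≤ ∑ s ∈ Zf riemannZeta A B,
      (mu s : ℝ) * (kk A B ρ s : ℝ) * (32 / (b ^ 4 * r ^ 2) * (Real.pi / r)) := by
          refine Finset.sum_le_sum fun s _ => ?_
          have := int_tail (r := r) (c := s.im) (a := T) (d := 2 * T) hr
          gcongr
      _ = (∑ s ∈ Zf riemannZeta A B, (mu s : ℝ) * (kk A B ρ s : ℝ)) *
          (32 / (b ^ 4 * r ^ 2) * (Real.pi / r)) := by rw [Finset.sum_mul]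
      _ ≤ (C1 * (T * L)) * (32 / (b ^ 4 * r ^ 2) * (Real.pi / r)) := by gcongr
      _ = _ := by field_simp
  have hm1 : 32 * Real.pi * C1 ≤ max (32 * Real.pi * C1) 1 := le_max_left _ _
  have hm2 : 1 ≤ max (32 * Real.pi * C1) 1 := le_max_right _ _
  have hTL : 0 ≤ T * L / (b ^ 4 * r ^ 3) := by positivity
  calc _ ≤ 32 * Real.pi * C1 * (T * L / (b ^ 4 * r ^ 3)) + 1 := add_le_add hmain hedge
    _ ≤ max (32 * Real.pi * C1) 1 * (T * L / (b ^ 4 * r ^ 3)) + max (32 * Real.pi * C1) 1 := by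
        gcongr
    _ = _ := by ring

end Pool.Agent.TH800.MS
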