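import Mathlib

/-! Expansion of the square. -/

open Complex Filter Topology Set MeasureTheory
open scoped ComplexConjugate

namespace Pool.Agent.TH800.MS

lemma int_re {f : ℝ → ℂ} (hf : Continuous f) (c d : ℝ) :
    ∫ u in c..d, (f u).re = (∫ u in c..d, f u).re :=
  reCLM.intervalIntegral_comp_comm (hf.intervalIntegrable c d)

theorem pw {A : ℝ → ℝ} {S d e : ℝ → ℂ} (hA : Continuous A) (hS : Continuous S) (hd : Continuous d)
    (he : Continuous e) {b x C : ℝ} (hb : 0 ≤ b) (hbx : b ≤ x) (hC : 0 ≤ C) (hA0 : ∀ u, 0 ≤ A u)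
    (h1 : ∀ u, 0 ≤ u → u ≤ b → ‖S u - A u + d u + e u‖ ≤ C)
    (h2 : ∀ u, b ≤ u → u ≤ x → ‖S u - A u + d u‖ ≤ C) :
    |(∫ u in (0 : ℝ)..x, ‖S u‖ ^ 2) - (∫ u in (0 : ℝ)..x, A u ^ 2) -
      ∫ u in (0 : ℝ)..x, ‖d u‖ ^ 2| ≤
      2 * ‖∫ u in (0 : ℝ)..x, (A u : ℂ) * d u‖ + 2 * ‖∫ u in (0 : ℝ)..b, (A u : ℂ) * e u‖ +
      3 * (∫ u in (0 : ℝ)..b, ‖e u‖ ^ 2) + (∫ u in (0 : ℝ)..b, ‖d u‖ ^ 2) + 2 * C ^ 2 * x +
      2 * C * (∫ u in (0 : ℝ)..x, A u) + 2 * C * ∫ u in (0 : ℝ)..x, ‖d u‖ := by
  have hAc : Continuous fun u => (A u : ℂ) := Complex.continuous_ofReal.comp hA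
  set R : ℝ → ℂ := fun u => S u - A u + d u with hR
  have hRc : Continuous R := (hS.sub hAc).add hd
  set G : ℝ → ℝ := fun u => ‖R u‖ ^ 2 + 2 * A u * (R u).re - 2 * (d u * conj (R u)).re with hG
  have hGc : Continuous G := by
    rw [hG]
    exact (((hRc.norm.pow 2).add ((continuous_const.mul hA).mul
      (Complex.continuous_re.comp hRc))).sub (continuous_const.mul (Complex.continuous_re.comp
        (hd.mul (Complex.continuous_conj.comp hRc)))))
  have hpt : ∀ u, ‖S u‖ ^ 2 = A u ^ 2 + ‖d u‖ ^ 2 - 2 * ((A u : ℂ) * d u).re + G u := by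
    intro u
    have hSu : S u = A u - d u + R u := by simp only [hR]; ring
    simp only [hG]
    rw [hSu]
    rw [← Complex.normSq_eq_norm_sq, ← Complex.normSq_eq_norm_sq, ← Complex.normSq_eq_norm_sq,
      Complex.normSq_apply, Complex.normSq_apply, Complex.normSq_apply]
    simp only [Complex.add_re, Complex.sub_re, Complex.ofReal_re, Complex.add_im, Complex.sub_im,
      Complex.ofReal_im, Complex.mul_re, Complex.conj_re, Complex.conj_im]
    ring
  have i1 : ∀ c d : ℝ, IntervalIntegrable (fun u => A u ^ 2) volume c d := fun c d =>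
    (hA.pow 2).intervalIntegrable _ _
  have i2 : ∀ c' d' : ℝ, IntervalIntegrable (fun u => ‖d u‖ ^ 2) volume c' d' := fun c' d' =>
    (hd.norm.pow 2).intervalIntegrable _ _
  have hAd : Continuous fun u => (A u : ℂ) * d u := hAc.mul hd
  have hAe : Continuous fun u => (A u : ℂ) * e u := hAc.mul he
  have i4 : ∀ c' d' : ℝ, IntervalIntegrable (fun u => 2 * ((A u : ℂ) * d u).re)
      volume c' d' := fun c' d' =>
    (continuous_const.mul (Complex.continuous_re.comp hAd)).intervalIntegrable _ _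
  have i5 : ∀ c' d' : ℝ, IntervalIntegrable (fun u => 2 * ((A u : ℂ) * e u).re)
      volume c' d' := fun c' d' =>
    (continuous_const.mul (Complex.continuous_re.comp hAe)).intervalIntegrable _ _
  have iG : ∀ c' d' : ℝ, IntervalIntegrable G volume c' d' := fun c' d' =>
    hGc.intervalIntegrable _ _
  have hmain : (∫ u in (0 : ℝ)..x, ‖S u‖ ^ 2) - (∫ u in (0 : ℝ)..x, A u ^ 2) -
      (∫ u in (0 : ℝ)..x, ‖d u‖ ^ 2) = -2 * (∫ u in (0 : ℝ)..x, (A u : ℂ) * d u).re +
      ∫ u in (0 : ℝ)..x, G u := by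
    simp_rw [hpt]
    have j1 : IntervalIntegrable (fun u => A u ^ 2 + ‖d u‖ ^ 2) volume 0 x := (i1 0 x).add (i2 0 x)
    have j2 : IntervalIntegrable (fun u => A u ^ 2 + ‖d u‖ ^ 2 - 2 * ((A u : ℂ) * d u).re)
      volume 0 x := j1.sub (i4 0 x)
    rw [intervalIntegral.integral_add j2 (iG 0 x), intervalIntegral.integral_sub j1 (i4 0 x),
      intervalIntegral.integral_add (i1 0 x) (i2 0 x), intervalIntegral.integral_const_mul,
      int_re hAd]
    ring
  rw [hmain]
  have hsplit : ∫ u in (0 : ℝ)..x, G u = (∫ u in (0 : ℝ)..b, (G u + 2 * ((A u : ℂ) * e u).re)) -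
      2 * (∫ u in (0 : ℝ)..b, (A u : ℂ) * e u).re + ∫ u in b..x, G u := by
    rw [intervalIntegral.integral_add (iG 0 b) (i5 0 b), intervalIntegral.integral_const_mul,
      int_re hAe, ← intervalIntegral.integral_add_adjacent_intervals (iG 0 b) (iG b x)]
    ring
  have hb1 : |∫ u in (0 : ℝ)..b, (G u + 2 * ((A u : ℂ) * e u).re)| ≤
      ∫ u in (0 : ℝ)..b, (3 * ‖e u‖ ^ 2 + ‖d u‖ ^ 2 + (2 * C ^ 2 + 2 * C * A u +
        2 * C * ‖d u‖)) := by
    rw [← Real.norm_eq_abs]
    apply intervalIntegral.norm_integral_le_of_norm_le hb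
    · refine Eventually.of_forall fun u hu => ?_
      have hE := h1 u hu.1.le hu.2
      set E : ℂ := S u - A u + d u + e u with hEdef
      have hRu : R u = E - e u := by simp only [hR, hEdef]; ring
      have hGu : G u + 2 * ((A u : ℂ) * e u).re = ‖R u‖ ^ 2 + 2 * A u * E.re -
          2 * (d u * conj (R u)).re := by
        simp only [hG]
        rw [hRu]
        simp only [Complex.sub_re, Complex.mul_re, Complex.ofReal_re, Complex.ofReal_im]
        ring
      have hRn : ‖R u‖ ≤ C + ‖e u‖ := by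
        rw [hRu]
        exact (norm_sub_le _ _).trans (by linarith)
      have hEr : |E.re| ≤ C := (Complex.abs_re_le_norm E).trans hE
      have hdR : |(d u * conj (R u)).re| ≤ ‖d u‖ * ‖R u‖ := by
        refine (Complex.abs_re_le_norm _).trans ?_
        rw [norm_mul, RCLike.norm_conj]
      have hRn0 := norm_nonneg (R u)
      have hen := norm_nonneg (e u)
      have hdn := norm_nonneg (d u)
      have hAu := hA0 u
      rw [Real.norm_eq_abs, hGu]
      have t1 : |2 * A u * E.re| ≤ 2 * A u * C := by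
        rw [abs_mul, abs_of_nonneg (by positivity)]
        gcongr
      have t2 : |2 * (d u * conj (R u)).re| ≤ 2 * (‖d u‖ * (C + ‖e u‖)) := by
        rw [abs_mul, abs_two]
        apply mul_le_mul_of_nonneg_left _ zero_le_two
        refine hdR.trans ?_
        gcongr
      have t3 : ‖R u‖ ^ 2 ≤ (C + ‖e u‖) ^ 2 := by gcongr
      have t4 : |‖R u‖ ^ 2 + 2 * A u * E.re - 2 * (d u * conj (R u)).re| ≤
          ‖R u‖ ^ 2 + |2 * A u * E.re| + |2 * (d u * conj (R u)).re| := by
        refine (abs_sub _ _).trans ?_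
        refine add_le_add ((abs_add_le _ _).trans ?_) le_rfl
        rw [abs_of_nonneg (sq_nonneg ‖R u‖)]
      nlinarith [sq_nonneg (C - ‖e u‖), sq_nonneg (‖d u‖ - ‖e u‖)]
    · apply Continuous.intervalIntegrable
      exact ((continuous_const.mul (he.norm.pow 2)).add (hd.norm.pow 2)).add
        ((continuous_const.add (continuous_const.mul hA)).add (continuous_const.mul hd.norm))
  have hb2 : |∫ u in b..x, G u| ≤ ∫ u in b..x, (2 * C ^ 2 + 2 * C * A u + 2 * C * ‖d u‖) := by
    rw [← Real.norm_eq_abs]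
    apply intervalIntegral.norm_integral_le_of_norm_le hbx
    · refine Eventually.of_forall fun u hu => ?_
      have hE : ‖R u‖ ≤ C := h2 u hu.1.le hu.2
      have hRr : |(R u).re| ≤ C := (Complex.abs_re_le_norm _).trans hE
      have hRn0 := norm_nonneg (R u)
      have hdn := norm_nonneg (d u)
      have hAu := hA0 u
      have hdR : |(d u * conj (R u)).re| ≤ ‖d u‖ * ‖R u‖ := by
        refine (Complex.abs_re_le_norm _).trans ?_
        rw [norm_mul, RCLike.norm_conj]
      have t1 : |2 * A u * (R u).re| ≤ 2 * A u * C := by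
        rw [abs_mul, abs_of_nonneg (by positivity)]
        gcongr
      have t2 : |2 * (d u * conj (R u)).re| ≤ 2 * (‖d u‖ * C) := by
        rw [abs_mul, abs_two]
        apply mul_le_mul_of_nonneg_left _ zero_le_two
        refine hdR.trans ?_
        gcongr
      have t3 : ‖R u‖ ^ 2 ≤ C ^ 2 := by gcongr
      have t4 : |G u| ≤ ‖R u‖ ^ 2 + |2 * A u * (R u).re| + |2 * (d u * conj (R u)).re| := by
        simp only [hG]
        refine (abs_sub _ _).trans ?_
        refine add_le_add ((abs_add_le _ _).trans ?_) le_rfl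
        rw [abs_of_nonneg (sq_nonneg ‖R u‖)]
      rw [Real.norm_eq_abs]
      nlinarith [sq_nonneg C]
    · apply Continuous.intervalIntegrable
      exact ((continuous_const.add (continuous_const.mul hA)).add (continuous_const.mul hd.norm))
  have hsum : (∫ u in (0 : ℝ)..b, (3 * ‖e u‖ ^ 2 + ‖d u‖ ^ 2 + (2 * C ^ 2 + 2 * C * A u +
        2 * C * ‖d u‖))) + ∫ u in b..x, (2 * C ^ 2 + 2 * C * A u + 2 * C * ‖d u‖) =
      3 * (∫ u in (0 : ℝ)..b, ‖e u‖ ^ 2) + (∫ u in (0 : ℝ)..b, ‖d u‖ ^ 2) + 2 * C ^ 2 * x +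
      2 * C * (∫ u in (0 : ℝ)..x, A u) + 2 * C * ∫ u in (0 : ℝ)..x, ‖d u‖ := by
    have k1 : IntervalIntegrable (fun u => 3 * ‖e u‖ ^ 2) volume 0 b :=
      (continuous_const.mul (he.norm.pow 2)).intervalIntegrable _ _
    have k2 : IntervalIntegrable (fun u => 3 * ‖e u‖ ^ 2 + ‖d u‖ ^ 2) volume 0 b :=
      k1.add (i2 0 b)
    have k3 : ∀ c' d' : ℝ, IntervalIntegrable (fun u => 2 * C ^ 2 + 2 * C * A u + 2 * C * ‖d u‖)
        volume c' d' := fun c' d' => by
      apply Continuous.intervalIntegrable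
      exact ((continuous_const.add (continuous_const.mul hA)).add (continuous_const.mul hd.norm))
    have k4 : IntervalIntegrable (fun u => 2 * C * A u) volume 0 x :=
      (continuous_const.mul hA).intervalIntegrable _ _
    have k5 : IntervalIntegrable (fun u => 2 * C * ‖d u‖) volume 0 x :=
      (continuous_const.mul hd.norm).intervalIntegrable _ _
    have k6 : IntervalIntegrable (fun _ : ℝ => 2 * C ^ 2) volume 0 x :=
      continuous_const.intervalIntegrable _ _
    have k7 : IntervalIntegrable (fun u => 2 * C ^ 2 + 2 * C * A u) volume 0 x := k6.add k4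
    rw [intervalIntegral.integral_add k2 (k3 0 b), add_assoc,
      intervalIntegral.integral_add_adjacent_intervals (k3 0 b) (k3 b x),
      intervalIntegral.integral_add k1 (i2 0 b), intervalIntegral.integral_add k7 k5,
      intervalIntegral.integral_add k6 k4]
    simp only [intervalIntegral.integral_const_mul, intervalIntegral.integral_const, smul_eq_mul,
      sub_zero]
    ring
  rw [hsplit]
  have hr1 := Complex.abs_re_le_norm (∫ u in (0 : ℝ)..x, (A u : ℂ) * d u)
  have hr2 := Complex.abs_re_le_norm (∫ u in (0 : ℝ)..b, (A u : ℂ) * e u)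
  rw [abs_le] at hr1 hr2 hb1 hb2
  rw [abs_le]
  constructor <;> linarith [hr1.1, hr1.2, hr2.1, hr2.2, hb1.1, hb1.2, hb2.1, hb2.2]

end Pool.Agent.TH800.MS
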