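import Pool.Agent.TH800.MS.Dg
import Pool.Agent.TH800.MS.Pw

/-! The law of large numbers for the local form factor. -/

open Complex Filter Topology Set MeasureTheory
open scoped ComplexConjugate

namespace Pool.Agent.TH800.MS

open SP
open H370 (Zf good_zeta)

lemma small_off (θ : ℝ) (hθ0 : 0 < θ) (hθ : θ < 1 / 2) : ∃ T0 : ℝ, 10 ≤ T0 ∧ ∀ T : ℝ, T0 ≤ T →
    ∀ N : ℕ, 1 ≤ N → (N : ℝ) ≤ T ^ θ →
      (N : ℝ) ^ 4 * Real.exp (-(T ^ 2 * (1 / (N : ℝ) ^ 2) ^ 2) / 2) ≤ 1 := by
  have h0 : 0 < 2 - 4 * θ := by linarith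
  have hlog := (isLittleO_log_rpow_atTop h0).bound (show (0 : ℝ) < 1 / 4 by norm_num)
  obtain ⟨T1, hT1⟩ := hlog.exists_forall_of_atTop
  refine ⟨max T1 10, le_max_right _ _, fun T hT N hN hNT => ?_⟩
  have hT10 : 10 ≤ T := (le_max_right _ _).trans hT
  have hTpos : 0 < T := by linarith
  have hl0 : 0 ≤ Real.log T := Real.log_nonneg (by linarith)
  have h1 := hT1 T ((le_max_left _ _).trans hT)
  rw [Real.norm_of_nonneg hl0, Real.norm_of_nonneg (by positivity)] at h1
  have hN0 : (0 : ℝ) < N := by exact_mod_cast hN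
  have h2 : (N : ℝ) ^ 4 ≤ T ^ (4 * θ) := by
    calc (N : ℝ) ^ 4 ≤ (T ^ θ) ^ 4 := by gcongr
      _ = T ^ (4 * θ) := by
          rw [← Real.rpow_natCast, ← Real.rpow_mul hTpos.le]
          congr 1
          push_cast
          ring
  have h3 : T ^ (4 * θ) ≤ T ^ (2 : ℝ) :=
    Real.rpow_le_rpow_of_exponent_le (by linarith) (by linarith)
  have h4 : T ^ (2 - 4 * θ) ≤ T ^ 2 * (1 / (N : ℝ) ^ 2) ^ 2 := by
    have e1 : T ^ 2 * (1 / (N : ℝ) ^ 2) ^ 2 = T ^ (2 : ℝ) / (N : ℝ) ^ 4 := by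
      rw [← Real.rpow_natCast T 2]
      push_cast
      field_simp
    rw [e1, Real.rpow_sub hTpos]
    have : 0 < T ^ (4 * θ) := by positivity
    gcongr
  have h5 : Real.exp (-(T ^ 2 * (1 / (N : ℝ) ^ 2) ^ 2) / 2) ≤ Real.exp (-(2 * Real.log T)) := by
    apply Real.exp_le_exp.2
    linarith
  calc (N : ℝ) ^ 4 * Real.exp (-(T ^ 2 * (1 / (N : ℝ) ^ 2) ^ 2) / 2) ≤
      T ^ (2 : ℝ) * Real.exp (-(2 * Real.log T)) := by
        apply mul_le_mul (h2.trans h3) h5 (Real.exp_pos _).le (by positivity)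
    _ = 1 := by
        rw [Real.rpow_def_of_pos hTpos, ← Real.exp_add]
        simp [mul_comm]

lemma D1_neg : ∃ C : ℝ, 0 < C ∧ ∀ (N : ℕ) (b t u : ℝ), 1 ≤ b → b ≤ u →
    ‖D1 N b t (-u)‖ ≤ C := by
  have hs := ppG_summable (1 / 2) (by norm_num)
  refine ⟨(∑' n, ppG (1 / 2) n) + 1, by
    have : 0 ≤ ∑' n, ppG (1 / 2) n := tsum_nonneg (ppG_nonneg _)
    linarith, fun N b t u hb1 hbu => ?_⟩
  have hb : 0 < b := by linarith
  unfold D1
  calc ‖∑ p ∈ PX N, ef t p * ((be b (Real.log p - -u) : ℝ) : ℂ)‖ ≤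
      ∑ p ∈ PX N, ppG (1 / 2) p := by
        refine (norm_sum_le _ _).trans (Finset.sum_le_sum fun p hp => ?_)
        have hpp := (mem_PX.1 hp).1
        have hp0 : (0 : ℝ) < p := by exact_mod_cast hpp.pos
        have hl := Real.log_natCast_nonneg p
        rw [norm_mul, ef_norm, Complex.norm_real, Real.norm_of_nonneg (be_nonneg hb _)]
        unfold ppG aa
        have h1 : be b (Real.log p - -u) ≤ Real.exp (-(1 / 2) * Real.log p ^ 2) := by
          have h3 := be_far hb (z := Real.log p - -u) (by linarith)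
          have h2 : Real.exp (-(Real.log p - -u - b) ^ 2 / 2) ≤
              Real.exp (-(1 / 2) * Real.log p ^ 2) := by
            apply Real.exp_le_exp.2
            have : 0 ≤ u - b := by linarith
            nlinarith [mul_nonneg this hl, sq_nonneg (u - b)]
          have h4 : 1 / b ≤ 1 := by rw [div_le_one hb]; exact hb1
          calc _ ≤ _ := h3
            _ ≤ 1 * Real.exp (-(1 / 2) * Real.log p ^ 2) := by gcongr
            _ = _ := one_mul _
        have h5 : Real.log p / Real.sqrt p = Real.log p * (p : ℝ) ^ (-(1 / 2) : ℝ) := by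
          rw [div_eq_mul_inv, Real.rpow_neg hp0.le, Real.sqrt_eq_rpow]
        rw [h5]
        gcongr
    _ ≤ ∑' n, ppG (1 / 2) n := hs.sum_le_tsum _ fun n _ => ppG_nonneg _ n
    _ ≤ _ := by linarith

lemma SS_cont (T b t : ℝ) : Continuous (SS T b t) := by
  unfold SS
  fun_prop

lemma ef_cont (p : ℕ) : Continuous fun t => ef t p := by
  unfold ef
  fun_prop

lemma D1_cont2 (N : ℕ) (b : ℝ) : Continuous fun x : ℝ × ℝ => D1 N b x.1 x.2 := by
  unfold D1
  refine continuous_finsetSum _ fun p _ => ?_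
  exact ((ef_cont p).comp continuous_fst).mul (Complex.continuous_ofReal.comp
    (be_cont.comp (by fun_prop)))

lemma intD_cont (N : ℕ) (b c d : ℝ) : Continuous fun t => ∫ u in c..d, ‖D1 N b t u‖ ^ 2 := by
  apply intervalIntegral.continuous_parametric_intervalIntegral_of_continuous'
  exact (D1_cont2 N b).norm.pow 2

lemma intD1_cont (N : ℕ) (b c d : ℝ) : Continuous fun t => ∫ u in c..d, ‖D1 N b t u‖ := by
  apply intervalIntegral.continuous_parametric_intervalIntegral_of_continuous'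
  exact (D1_cont2 N b).norm

lemma intL_cont (N : ℕ) (b c d : ℝ) : Continuous fun t => ∫ u in c..d, (be b u : ℂ) * D1 N b t u := by
  apply intervalIntegral.continuous_parametric_intervalIntegral_of_continuous'
  exact (Complex.continuous_ofReal.comp (be_cont.comp continuous_snd)).mul (D1_cont2 N b)

lemma be_int_le' {b : ℝ} (hb : 0 < b) (c d : ℝ) (hcd : c ≤ d) : ∫ u in c..d, be b u ≤ 1 := by
  have h := be_int_le hb 0 c d hcd
  simp only [zero_sub, be_even hb] at h
  exact h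

/-- Cauchy–Schwarz on an interval -/
lemma cs_int {f : ℝ → ℝ} (hf : Continuous f) {x : ℝ} (hx : 0 ≤ x) :
    (∫ u in (0 : ℝ)..x, f u) ^ 2 ≤ x * ∫ u in (0 : ℝ)..x, f u ^ 2 := by
  rcases hx.eq_or_lt with h | h
  · rw [← h]; simp
  set m := (∫ u in (0 : ℝ)..x, f u) / x with hm
  have h1 : 0 ≤ ∫ u in (0 : ℝ)..x, (f u - m) ^ 2 :=
    intervalIntegral.integral_nonneg hx fun u _ => sq_nonneg _
  have h2 : ∫ u in (0 : ℝ)..x, (f u - m) ^ 2 =
      (∫ u in (0 : ℝ)..x, f u ^ 2) - 2 * m * (∫ u in (0 : ℝ)..x, f u) + m ^ 2 * x := by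
    have e : ∀ u, (f u - m) ^ 2 = f u ^ 2 - 2 * m * f u + m ^ 2 := fun u => by ring
    simp_rw [e]
    have i1 : IntervalIntegrable (fun u => f u ^ 2) volume 0 x := (hf.pow 2).intervalIntegrable _ _
    have i2 : IntervalIntegrable (fun u => 2 * m * f u) volume 0 x :=
      (continuous_const.mul hf).intervalIntegrable _ _
    have i3 : IntervalIntegrable (fun _ : ℝ => m ^ 2) volume 0 x :=
      continuous_const.intervalIntegrable _ _
    have i4 : IntervalIntegrable (fun u => f u ^ 2 - 2 * m * f u) volume 0 x := i1.sub i2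
    rw [intervalIntegral.integral_add i4 i3, intervalIntegral.integral_sub i1 i2,
      intervalIntegral.integral_const_mul, intervalIntegral.integral_const, smul_eq_mul]
    ring
  rw [h2] at h1
  have h3 : ∫ u in (0 : ℝ)..x, f u = m * x := by rw [hm]; field_simp
  rw [h3] at h1 ⊢
  have h4 : m ^ 2 * x ≤ ∫ u in (0 : ℝ)..x, f u ^ 2 := by linarith
  calc (m * x) ^ 2 = x * (m ^ 2 * x) := by ring
    _ ≤ _ := by gcongr

end Pool.Agent.TH800.MS
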