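import Pool.Agent.TH800.MS.Core

/-! The law of large numbers for the local form factor: main theorem. -/

open Complex Filter Topology Set MeasureTheory
open scoped ComplexConjugate

namespace Pool.Agent.TH800.MS

open SP
open H370 (Zf good_zeta)

/-- the random part of the error -/
noncomputable def Yf (L C : ℝ) (N : ℕ) (b x t : ℝ) : ℝ :=
  |(∫ u in (0 : ℝ)..x, ‖D1 N b t u‖ ^ 2) - diag N b 0 x| +
  2 * L * ‖∫ u in (0 : ℝ)..x, (be b u : ℂ) * D1 N b t u‖ +
  2 * L * ‖∫ u in (-b)..0, (be b u : ℂ) * D1 N b t u‖ +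
  3 * (∫ u in (-b)..b, ‖D1 N b t u‖ ^ 2) +
  2 * C * ∫ u in (0 : ℝ)..x, ‖D1 N b t u‖

lemma Yf_cont (L C : ℝ) (N : ℕ) (b x : ℝ) : Continuous (Yf L C N b x) := by
  unfold Yf
  exact ((((((intD_cont N b 0 x).sub continuous_const).abs.add
    (continuous_const.mul (intL_cont N b 0 x).norm)).add
    (continuous_const.mul (intL_cont N b (-b) 0).norm)).add
    (continuous_const.mul (intD_cont N b (-b) b))).add
    (continuous_const.mul (intD1_cont N b 0 x)))

/-- pointwise form -/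
theorem core_pt (hRH : RHs) (μ1 μ2 : ℝ) (h0 : 0 < μ1) (h12 : μ1 < μ2) (h2 : μ2 < 1 / 2) :
    ∃ C K T0 : ℝ, 0 < C ∧ 0 < K ∧ 10 ≤ T0 ∧ ∀ T : ℝ, T0 ≤ T → ∀ b x : ℝ, 1 ≤ b → b ≤ x →
      x + b ≤ μ1 * Real.log T →
      ∀ t : ℝ, T + Real.log T ≤ t → t ≤ 2 * T - Real.log T →
      |(∫ u in (0 : ℝ)..x, ‖SS T b t u‖ ^ 2) - (Real.log T ^ 2 + x ^ 2) / (3 * b)| ≤
        K * (Real.log T + Real.log T ^ 2 / b ^ 2) + Yf (Real.log T) C ⌊T ^ μ2⌋₊ b x t := by
  obtain ⟨C1, T1, hC1, hT1, hSS⟩ := SSform hRH μ1 μ2 h0 h12 (by linarith)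
  obtain ⟨C2, hC2, hneg⟩ := D1_neg
  obtain ⟨Ca, hCa, hdg⟩ := diag_asym
  have hev : ∀ᶠ T : ℝ in atTop, max 2 (1 / (μ2 - μ1)) ≤ Real.log T :=
    Real.tendsto_log_atTop.eventually_ge_atTop _
  obtain ⟨T2, hT2⟩ := hev.exists_forall_of_atTop
  set C' := C1 + C2 with hC'
  refine ⟨C', 2 + Ca + 2 * C' ^ 2 + 2 * C', max T1 T2, by positivity, by positivity,
    hT1.trans (le_max_left _ _), fun T hT b x hb1 hbx hxb t ht1 ht2 => ?_⟩
  have hT10 : 10 ≤ T := hT1.trans ((le_max_left _ _).trans hT)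
  have hTpos : 0 < T := by linarith
  have hL2' := hT2 T ((le_max_right _ _).trans hT)
  have hL2 : 2 ≤ Real.log T := (le_max_left _ _).trans hL2'
  have hL3 : 1 / (μ2 - μ1) ≤ Real.log T := (le_max_right _ _).trans hL2'
  set L := Real.log T with hL
  set N := ⌊T ^ μ2⌋₊ with hN
  have hμ2 : 0 < μ2 := h0.trans h12
  have hTμ : 1 ≤ T ^ μ2 := Real.one_le_rpow (by linarith) hμ2.le
  have hN1 : 1 ≤ N := Nat.le_floor (by exact_mod_cast hTμ)
  have hN0 : (0 : ℝ) < N := by exact_mod_cast hN1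
  have hNle : (N : ℝ) ≤ T ^ μ2 := Nat.floor_le (by positivity)
  have hNlt : T ^ μ2 < N + 1 := Nat.lt_floor_add_one _
  have hlogT : Real.log (T ^ μ2) = μ2 * L := Real.log_rpow hTpos _
  have hN2 : μ2 * L ≤ Real.log (N + 1) := by
    rw [← hlogT]
    exact Real.log_le_log (by positivity) hNlt.le
  have hN3 : Real.log N ≤ μ2 * L := by
    rw [← hlogT]
    exact Real.log_le_log hN0 hNle
  have hN4 : Real.log (N + 1) ≤ Real.log N + 1 := by
    have h3 : (N : ℝ) + 1 ≤ 2 * N := by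
      have : (1 : ℝ) ≤ N := by exact_mod_cast hN1
      linarith
    have h4 := Real.log_le_log (by positivity) h3
    rw [Real.log_mul (by norm_num) hN0.ne'] at h4
    have := Real.log_two_lt_d9
    linarith
  have hxN : x + b ≤ Real.log N := by
    have h5 : 0 < μ2 - μ1 := by linarith
    rw [div_le_iff₀ h5] at hL3
    nlinarith
  have hlN0 : 0 ≤ Real.log N := Real.log_natCast_nonneg N
  have hlL : Real.log N + 1 ≤ L := by nlinarith
  have hb : 0 < b := by linarith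
  have hx0 : 0 ≤ x := by linarith
  have hL0 : 0 < L := by linarith
  have hxL : x ≤ L := by nlinarith
  have hpw := pw (A := fun u => L * be b u) (S := SS T b t) (d := D1 N b t)
    (e := fun u => conj (D1 N b t (-u))) (continuous_const.mul be_cont) (SS_cont T b t)
    (D1_cont N b t) (Complex.continuous_conj.comp ((D1_cont N b t).comp continuous_neg))
    hb.le hbx (C := C') (by positivity) (fun u => mul_nonneg hL0.le (be_nonneg hb u))
    (fun u hu1 hu2 => by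
      have h3 := hSS T ((le_max_left _ _).trans hT) t ht1 ht2 N hN2 b u hb (by
        rw [abs_of_nonneg hu1]; linarith)
      refine le_trans (le_of_eq ?_) (h3.trans (by linarith : C1 ≤ C'))
      congr 1
      ring)
    (fun u hu1 hu2 => by
      have h3 := hSS T ((le_max_left _ _).trans hT) t ht1 ht2 N hN2 b u hb (by
        rw [abs_of_nonneg (by linarith)]; linarith)
      have h4 := hneg N b t u hb1 hu1
      have e : SS T b t u - ((L * be b u : ℝ) : ℂ) + D1 N b t u =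
          (SS T b t u - (((L * be b u : ℝ) : ℂ) - D1 N b t u - conj (D1 N b t (-u)))) -
            conj (D1 N b t (-u)) := by ring
      rw [e]
      refine (norm_sub_le _ _).trans ?_
      rw [RCLike.norm_conj]
      exact add_le_add h3 h4)
  have hE1 : ‖∫ u in (0 : ℝ)..x, ((L * be b u : ℝ) : ℂ) * D1 N b t u‖ =
      L * ‖∫ u in (0 : ℝ)..x, (be b u : ℂ) * D1 N b t u‖ := by
    have : ∀ u, ((L * be b u : ℝ) : ℂ) * D1 N b t u = (L : ℂ) * ((be b u : ℂ) * D1 N b t u) := by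
      intro u; push_cast; ring
    simp_rw [this]
    rw [intervalIntegral.integral_const_mul, norm_mul, Complex.norm_real,
      Real.norm_of_nonneg hL0.le]
  have hE2 : ‖∫ u in (0 : ℝ)..b, ((L * be b u : ℝ) : ℂ) * conj (D1 N b t (-u))‖ =
      L * ‖∫ u in (-b)..0, (be b u : ℂ) * D1 N b t u‖ := by
    have e1 : ∀ u, ((L * be b u : ℝ) : ℂ) * conj (D1 N b t (-u)) =
        (L : ℂ) * conj ((be b (-u) : ℂ) * D1 N b t (-u)) := by
      intro u
      rw [be_even hb, map_mul, conj_ofReal]; push_cast; ring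
    simp_rw [e1]
    rw [intervalIntegral.integral_const_mul, norm_mul, Complex.norm_real,
      Real.norm_of_nonneg hL0.le]
    congr 1
    rw [intervalIntegral.integral_of_le hb.le, integral_conj, RCLike.norm_conj,
      ← intervalIntegral.integral_of_le hb.le]
    have e2 := intervalIntegral.integral_comp_neg (a := 0) (b := b)
      (f := fun u => (be b u : ℂ) * D1 N b t u)
    rw [neg_zero] at e2
    rw [e2]
  have hE3 : ∫ u in (0 : ℝ)..b, ‖conj (D1 N b t (-u))‖ ^ 2 = ∫ u in (-b)..0, ‖D1 N b t u‖ ^ 2 := by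
    simp only [RCLike.norm_conj]
    have e2 := intervalIntegral.integral_comp_neg (a := 0) (b := b)
      (f := fun u => ‖D1 N b t u‖ ^ 2)
    rw [neg_zero] at e2
    exact e2
  have hi : ∀ c d : ℝ, IntervalIntegrable (fun u => ‖D1 N b t u‖ ^ 2) volume c d := fun c d =>
    ((D1_cont N b t).norm.pow 2).intervalIntegrable _ _
  have hE4 : (∫ u in (-b)..0, ‖D1 N b t u‖ ^ 2) + ∫ u in (0 : ℝ)..b, ‖D1 N b t u‖ ^ 2 =
      ∫ u in (-b)..b, ‖D1 N b t u‖ ^ 2 :=
    intervalIntegral.integral_add_adjacent_intervals (hi _ _) (hi _ _)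
  have hE5 : 0 ≤ ∫ u in (0 : ℝ)..b, ‖D1 N b t u‖ ^ 2 :=
    intervalIntegral.integral_nonneg hb.le fun u _ => sq_nonneg _
  have hE6 : ∫ u in (0 : ℝ)..x, L * be b u ≤ L := by
    rw [intervalIntegral.integral_const_mul]
    have := be_int_le' hb 0 x hx0
    nlinarith
  have hE7 : |(∫ u in (0 : ℝ)..x, (L * be b u) ^ 2) - L ^ 2 / (3 * b)| ≤ 2 * (L ^ 2 / b ^ 2) := by
    have : ∀ u, (L * be b u) ^ 2 = L ^ 2 * be b u ^ 2 := fun u => by ring
    simp_rw [this]
    rw [intervalIntegral.integral_const_mul]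
    have h3 := peak hb hbx
    have e : L ^ 2 * (∫ u in (0 : ℝ)..x, be b u ^ 2) - L ^ 2 / (3 * b) =
        L ^ 2 * ((∫ u in (0 : ℝ)..x, be b u ^ 2) - 1 / (3 * b)) := by ring
    rw [e, abs_mul, abs_of_nonneg (sq_nonneg L)]
    calc L ^ 2 * |(∫ u in (0 : ℝ)..x, be b u ^ 2) - 1 / (3 * b)| ≤ L ^ 2 * (2 / b ^ 2) := by
          gcongr
      _ = _ := by ring
  have hE8 : |diag N b 0 x - x ^ 2 / (3 * b)| ≤ Ca * (L + L ^ 2 / b ^ 2) := by
    refine (hdg N b x hb1 hbx hN1 hxN).trans ?_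
    have h5 : (Real.log N + 1) ^ 2 ≤ L ^ 2 := by gcongr
    gcongr
  simp only [hE1, hE2, hE3] at hpw
  have hLb : 0 ≤ L ^ 2 / b ^ 2 := by positivity
  have hsum : (L ^ 2 + x ^ 2) / (3 * b) = L ^ 2 / (3 * b) + x ^ 2 / (3 * b) := by ring
  rw [hsum]
  have hX1 := le_abs_self ((∫ u in (0 : ℝ)..x, ‖D1 N b t u‖ ^ 2) - diag N b 0 x)
  have hX1' := neg_abs_le ((∫ u in (0 : ℝ)..x, ‖D1 N b t u‖ ^ 2) - diag N b 0 x)
  have hC'x : 2 * C' ^ 2 * x ≤ 2 * C' ^ 2 * L := by gcongr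
  have hC'L : 2 * C' * (∫ u in (0 : ℝ)..x, L * be b u) ≤ 2 * C' * L := by gcongr
  have hb4 : 0 ≤ ∫ u in (-b)..0, ‖D1 N b t u‖ ^ 2 :=
    intervalIntegral.integral_nonneg (by linarith) fun u _ => sq_nonneg _
  rw [abs_le] at hpw hE7 hE8 ⊢
  unfold Yf
  have hKx : 0 ≤ C' ^ 2 * (L ^ 2 / b ^ 2) := by positivity
  have hKy : 0 ≤ C' * (L ^ 2 / b ^ 2) := by positivity
  have hexp : (2 + Ca + 2 * C' ^ 2 + 2 * C') * (L + L ^ 2 / b ^ 2) =
      2 * L + 2 * (L ^ 2 / b ^ 2) + Ca * (L + L ^ 2 / b ^ 2) + 2 * C' ^ 2 * L + 2 * C' * L +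
        2 * (C' ^ 2 * (L ^ 2 / b ^ 2)) + 2 * (C' * (L ^ 2 / b ^ 2)) := by ring
  rw [hexp]
  constructor <;> linarith [hpw.1, hpw.2, hE7.1, hE7.2, hE8.1, hE8.2]

end Pool.Agent.TH800.MS
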