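import Pool.Agent.TH800.MS.Core2

/-! The second moment of the random part. -/

open Complex Filter Topology Set MeasureTheory
open scoped ComplexConjugate

namespace Pool.Agent.TH800.MS

theorem core_var (μ2 C : ℝ) (h0 : 0 < μ2) (h2 : μ2 < 1 / 2) (hC : 0 ≤ C) :
    ∃ K T0 : ℝ, 0 < K ∧ 10 ≤ T0 ∧ ∀ T : ℝ, T0 ≤ T → ∀ b x : ℝ, 1 ≤ b → b ≤ x →
      x ≤ Real.log T →
      ∫ t in T..(2 * T), Yf (Real.log T) C ⌊T ^ μ2⌋₊ b x t ^ 2 ≤
        K * (T * (Real.log T ^ 3 / b)) := by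
  obtain ⟨T1, hT1, hsm⟩ := small_off μ2 h0 h2
  obtain ⟨Cq, hCq, hvq⟩ := var_quad
  obtain ⟨Cl, hCl, hvl⟩ := var_lin
  obtain ⟨Cs, hCs, hds⟩ := diag_short
  have hev : ∀ᶠ T : ℝ in atTop, 2 ≤ Real.log T :=
    Real.tendsto_log_atTop.eventually_ge_atTop _
  obtain ⟨T2, hT2⟩ := hev.exists_forall_of_atTop
  set Kq := 4 * (Cq + 1) with hKq
  set Kl := 4 * (Cl + 1) with hKl
  set K4 := 2 * Kq + 8 * Cs ^ 2 with hK4
  set K5 := C ^ 2 * (Kq + 1 + Cs) with hK5
  refine ⟨5 * (Kq + 4 * Kl + 4 * Kl + 9 * K4 + 4 * K5), max T1 T2, by positivity,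
    hT1.trans (le_max_left _ _), fun T hT b x hb1 hbx hxL => ?_⟩
  have hT10 : 10 ≤ T := hT1.trans ((le_max_left _ _).trans hT)
  have hTpos : 0 < T := by linarith
  have hL2 : 2 ≤ Real.log T := hT2 T ((le_max_right _ _).trans hT)
  set L := Real.log T with hL
  set N := ⌊T ^ μ2⌋₊ with hN
  have hTμ : 1 ≤ T ^ μ2 := Real.one_le_rpow (by linarith) h0.le
  have hN1 : 1 ≤ N := Nat.le_floor (by exact_mod_cast hTμ)
  have hN0 : (0 : ℝ) < N := by exact_mod_cast hN1
  have hNle : (N : ℝ) ≤ T ^ μ2 := Nat.floor_le (by positivity)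
  have hlogT : Real.log (T ^ μ2) = μ2 * L := Real.log_rpow hTpos _
  have hN3 : Real.log N ≤ μ2 * L := by
    rw [← hlogT]
    exact Real.log_le_log hN0 hNle
  have hlN0 : 0 ≤ Real.log N := Real.log_natCast_nonneg N
  have hlL : Real.log N + 1 ≤ L := by nlinarith
  have hlNL : Real.log N ≤ L := by linarith
  have hb : 0 < b := by linarith
  have hx0 : 0 ≤ x := by linarith
  have hL0 : 0 < L := by linarith
  have hbL : b ≤ L := hbx.trans hxL
  have hT2' : T ≤ 2 * T := by linarith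
  -- elementary comparisons
  set V := L ^ 3 / b with hV
  have hV0 : 0 < V := by positivity
  have hVL2 : L ^ 2 ≤ V := by
    rw [hV, le_div_iff₀ hb]
    calc L ^ 2 * b ≤ L ^ 2 * L := by gcongr
      _ = L ^ 3 := by ring
  have hV1 : 1 ≤ V := by nlinarith
  have hoff : (N : ℝ) ^ 4 / b ^ 2 * Real.exp (-(T ^ 2 * (1 / (N : ℝ) ^ 2) ^ 2) / 2) ≤ 1 := by
    have h3 := hsm T ((le_max_left _ _).trans hT) N hN1 hNle
    have h4 : (1 : ℝ) ≤ b ^ 2 := by nlinarith
    calc (N : ℝ) ^ 4 / b ^ 2 * Real.exp (-(T ^ 2 * (1 / (N : ℝ) ^ 2) ^ 2) / 2) =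
        (N : ℝ) ^ 4 * Real.exp (-(T ^ 2 * (1 / (N : ℝ) ^ 2) ^ 2) / 2) / b ^ 2 := by ring
      _ ≤ 1 / b ^ 2 := by gcongr
      _ ≤ 1 := by rw [div_le_one (by positivity)]; exact h4
  -- quadratic forms
  have hq : ∀ c d : ℝ, c ≤ d →
      ∫ t in T..(2 * T), ((∫ u in c..d, ‖D1 N b t u‖ ^ 2) - diag N b c d) ^ 2 ≤
        Kq * (T * V) := by
    intro c d hcd
    refine (hvq N b c d T hb hcd hN1 hTpos).trans ?_
    have h3 : Cq * (Real.log N + 1) ^ 3 / b ≤ Cq * V := by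
      rw [hV, mul_div_assoc]
      gcongr
    calc 4 * T * (Cq * (Real.log N + 1) ^ 3 / b + (N : ℝ) ^ 4 / b ^ 2 *
        Real.exp (-(T ^ 2 * (1 / (N : ℝ) ^ 2) ^ 2) / 2)) ≤ 4 * T * (Cq * V + V) := by
          gcongr
          exact hoff.trans hV1
      _ = _ := by rw [hKq]; ring
  have hl : ∀ c d : ℝ, c ≤ d →
      L ^ 2 * ∫ t in T..(2 * T), ‖∫ u in c..d, (be b u : ℂ) * D1 N b t u‖ ^ 2 ≤
        Kl * (T * V) := by
    intro c d hcd
    have h3 := hvl N b c d T (be b) hb hcd hN1 hTpos be_cont (be_nonneg hb)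
      (be_int_le' hb c d hcd)
    have h4 : L ^ 2 * (Cl * Real.log N / b) ≤ Cl * V := by
      rw [hV]
      calc L ^ 2 * (Cl * Real.log N / b) ≤ L ^ 2 * (Cl * L / b) := by
            apply mul_le_mul_of_nonneg_left _ (by positivity)
            apply div_le_div_of_nonneg_right _ hb.le
            exact mul_le_mul_of_nonneg_left hlNL hCl.le
        _ = Cl * (L ^ 3 / b) := by ring
    calc L ^ 2 * ∫ t in T..(2 * T), ‖∫ u in c..d, (be b u : ℂ) * D1 N b t u‖ ^ 2 ≤
        L ^ 2 * (4 * T * (Cl * Real.log N / b + (N : ℝ) ^ 4 / b ^ 2 *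
          Real.exp (-(T ^ 2 * (1 / (N : ℝ) ^ 2) ^ 2) / 2))) := by gcongr
      _ ≤ L ^ 2 * (4 * T * (Cl * Real.log N / b + 1)) := by gcongr
      _ = 4 * T * (L ^ 2 * (Cl * Real.log N / b) + L ^ 2) := by ring
      _ ≤ 4 * T * (Cl * V + V) := by gcongr
      _ = _ := by rw [hKl]; ring
  -- notation
  set X1 : ℝ → ℝ := fun t => (∫ u in (0 : ℝ)..x, ‖D1 N b t u‖ ^ 2) - diag N b 0 x with hX1
  set X2 : ℝ → ℝ := fun t => ‖∫ u in (0 : ℝ)..x, (be b u : ℂ) * D1 N b t u‖ with hX2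
  set X3 : ℝ → ℝ := fun t => ‖∫ u in (-b)..0, (be b u : ℂ) * D1 N b t u‖ with hX3
  set X4 : ℝ → ℝ := fun t => ∫ u in (-b)..b, ‖D1 N b t u‖ ^ 2 with hX4
  set X5 : ℝ → ℝ := fun t => ∫ u in (0 : ℝ)..x, ‖D1 N b t u‖ with hX5
  have c1 : Continuous X1 := (intD_cont N b 0 x).sub continuous_const
  have c2 : Continuous X2 := (intL_cont N b 0 x).norm
  have c3 : Continuous X3 := (intL_cont N b (-b) 0).norm
  have c4 : Continuous X4 := intD_cont N b (-b) b
  have c5 : Continuous X5 := intD1_cont N b 0 x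
  have b1 : ∫ t in T..(2 * T), X1 t ^ 2 ≤ Kq * (T * V) := hq 0 x hx0
  have b2 : L ^ 2 * ∫ t in T..(2 * T), X2 t ^ 2 ≤ Kl * (T * V) := hl 0 x hx0
  have b3 : L ^ 2 * ∫ t in T..(2 * T), X3 t ^ 2 ≤ Kl * (T * V) := hl (-b) 0 (by linarith)
  have b4 : ∫ t in T..(2 * T), X4 t ^ 2 ≤ K4 * (T * V) := by
    have hdg0 : 0 ≤ diag N b (-b) b := Finset.sum_nonneg fun p _ =>
      mul_nonneg (sq_nonneg _) (Bc_nonneg hb (by linarith) p p)
    have hdg : diag N b (-b) b ≤ 2 * Cs * L := by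
      refine (hds N b (-b) b hb (by linarith) hN1).trans ?_
      have e : (b - -b) / b = 2 := by field_simp; ring
      rw [e]
      calc Cs * 2 * Real.log N ≤ Cs * 2 * L := mul_le_mul_of_nonneg_left hlNL (by positivity)
        _ = _ := by ring
    have hle : ∀ t, X4 t ^ 2 ≤ 2 * (X4 t - diag N b (-b) b) ^ 2 + 2 * (2 * Cs * L) ^ 2 := by
      intro t
      have h3 : (diag N b (-b) b) ^ 2 ≤ (2 * Cs * L) ^ 2 := by gcongr
      nlinarith [sq_nonneg (X4 t - 2 * diag N b (-b) b)]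
    have i1 : IntervalIntegrable (fun t => 2 * (X4 t - diag N b (-b) b) ^ 2) volume T (2 * T) :=
      (continuous_const.mul ((c4.sub continuous_const).pow 2)).intervalIntegrable _ _
    have i2 : IntervalIntegrable (fun _ : ℝ => 2 * (2 * Cs * L) ^ 2) volume T (2 * T) :=
      continuous_const.intervalIntegrable _ _
    calc ∫ t in T..(2 * T), X4 t ^ 2 ≤
        ∫ t in T..(2 * T), (2 * (X4 t - diag N b (-b) b) ^ 2 + 2 * (2 * Cs * L) ^ 2) := by
          refine intervalIntegral.integral_mono_on hT2' ((c4.pow 2).intervalIntegrable _ _)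
            (i1.add i2) fun t _ => hle t
      _ = 2 * (∫ t in T..(2 * T), (X4 t - diag N b (-b) b) ^ 2) +
          (2 * T - T) * (2 * (2 * Cs * L) ^ 2) := by
          rw [intervalIntegral.integral_add i1 i2, intervalIntegral.integral_const_mul,
            intervalIntegral.integral_const, smul_eq_mul]
      _ ≤ 2 * (Kq * (T * V)) + (2 * T - T) * (2 * (2 * Cs * L) ^ 2) := by
          have := hq (-b) b (by linarith)
          gcongr
      _ = 2 * (Kq * (T * V)) + 8 * Cs ^ 2 * (T * L ^ 2) := by ring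
      _ ≤ 2 * (Kq * (T * V)) + 8 * Cs ^ 2 * (T * V) := by gcongr
      _ = _ := by rw [hK4]; ring
  have b5 : C ^ 2 * ∫ t in T..(2 * T), X5 t ^ 2 ≤ K5 * (T * V) := by
    set J := L ^ 2 / b with hJ
    have hJ0 : 0 < J := by positivity
    have hJL : L ≤ J := by
      rw [hJ, le_div_iff₀ hb, sq]
      gcongr
    have hdg : diag N b 0 x ≤ Cs * J := by
      refine (hds N b 0 x hb hx0 hN1).trans ?_
      rw [sub_zero, hJ]
      calc Cs * (x / b) * Real.log N ≤ Cs * (L / b) * L := by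
            apply mul_le_mul _ hlNL hlN0 (by positivity)
            gcongr
        _ = _ := by ring
    have hle : ∀ t, X5 t ^ 2 ≤ L * (1 / J * X1 t ^ 2 + (J + Cs * J)) := by
      intro t
      have h3 : X5 t ^ 2 ≤ x * ∫ u in (0 : ℝ)..x, ‖D1 N b t u‖ ^ 2 :=
        cs_int (D1_cont N b t).norm hx0
      have h4 : ∫ u in (0 : ℝ)..x, ‖D1 N b t u‖ ^ 2 = X1 t + diag N b 0 x := by
        simp only [hX1]; ring
      have h5 : X1 t ≤ 1 / J * X1 t ^ 2 + J := by
        have h6 : 1 / J * X1 t ^ 2 + J - X1 t = 1 / J * ((X1 t - J / 2) ^ 2 + 3 / 4 * J ^ 2) := by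
          field_simp
          ring
        have h7 : 0 ≤ 1 / J * ((X1 t - J / 2) ^ 2 + 3 / 4 * J ^ 2) := by positivity
        linarith
      have h8 : 0 ≤ ∫ u in (0 : ℝ)..x, ‖D1 N b t u‖ ^ 2 :=
        intervalIntegral.integral_nonneg hx0 fun u _ => sq_nonneg _
      calc X5 t ^ 2 ≤ x * ∫ u in (0 : ℝ)..x, ‖D1 N b t u‖ ^ 2 := h3
        _ ≤ L * ∫ u in (0 : ℝ)..x, ‖D1 N b t u‖ ^ 2 := by gcongr
        _ ≤ L * (1 / J * X1 t ^ 2 + (J + Cs * J)) := by
            rw [h4]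
            apply mul_le_mul_of_nonneg_left _ hL0.le
            linarith
    have i1 : IntervalIntegrable (fun t => 1 / J * X1 t ^ 2) volume T (2 * T) :=
      (continuous_const.mul (c1.pow 2)).intervalIntegrable _ _
    have i2 : IntervalIntegrable (fun _ : ℝ => J + Cs * J) volume T (2 * T) :=
      continuous_const.intervalIntegrable _ _
    calc C ^ 2 * ∫ t in T..(2 * T), X5 t ^ 2 ≤
        C ^ 2 * ∫ t in T..(2 * T), L * (1 / J * X1 t ^ 2 + (J + Cs * J)) := by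
          gcongr
          refine intervalIntegral.integral_mono_on hT2' ((c5.pow 2).intervalIntegrable _ _)
            ((i1.add i2).const_mul _) fun t _ => hle t
      _ = C ^ 2 * (L * (1 / J * (∫ t in T..(2 * T), X1 t ^ 2) +
          (2 * T - T) * (J + Cs * J))) := by
          rw [intervalIntegral.integral_const_mul, intervalIntegral.integral_add i1 i2,
            intervalIntegral.integral_const_mul, intervalIntegral.integral_const, smul_eq_mul]
      _ ≤ C ^ 2 * (L * (1 / J * (Kq * (T * V)) + (2 * T - T) * (J + Cs * J))) := by gcongr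
      _ = C ^ 2 * (Kq * (L * (T * L)) + (1 + Cs) * (T * V)) := by
          have e1 : V = L * J := by rw [hV, hJ]; ring
          rw [e1]
          field_simp
          ring
      _ ≤ C ^ 2 * (Kq * (T * V) + (1 + Cs) * (T * V)) := by
          have e2 : L * (T * L) = T * L ^ 2 := by ring
          rw [e2]
          gcongr
      _ = _ := by rw [hK5]; ring
  have hY : ∀ t, Yf L C N b x t ^ 2 ≤ 5 * (X1 t ^ 2 + 4 * (L ^ 2 * X2 t ^ 2) +
      4 * (L ^ 2 * X3 t ^ 2) + 9 * X4 t ^ 2 + 4 * (C ^ 2 * X5 t ^ 2)) := by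
    intro t
    have h3 : Yf L C N b x t = |X1 t| + 2 * L * X2 t + 2 * L * X3 t + 3 * X4 t +
        2 * C * X5 t := rfl
    rw [h3]
    have key : ∀ a b c d e : ℝ, (a + b + c + d + e) ^ 2 ≤
        5 * (a ^ 2 + b ^ 2 + c ^ 2 + d ^ 2 + e ^ 2) := by
      intro a b c d e
      linarith [sq_nonneg (a - b), sq_nonneg (a - c), sq_nonneg (a - d), sq_nonneg (a - e),
        sq_nonneg (b - c), sq_nonneg (b - d), sq_nonneg (b - e), sq_nonneg (c - d),
        sq_nonneg (c - e), sq_nonneg (d - e)]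
    refine (key _ _ _ _ _).trans (le_of_eq ?_)
    rw [sq_abs]
    ring
  have i1 : IntervalIntegrable (fun t => X1 t ^ 2) volume T (2 * T) :=
    (c1.pow 2).intervalIntegrable _ _
  have i2 : IntervalIntegrable (fun t => 4 * (L ^ 2 * X2 t ^ 2)) volume T (2 * T) :=
    (continuous_const.mul (continuous_const.mul (c2.pow 2))).intervalIntegrable _ _
  have i3 : IntervalIntegrable (fun t => 4 * (L ^ 2 * X3 t ^ 2)) volume T (2 * T) :=
    (continuous_const.mul (continuous_const.mul (c3.pow 2))).intervalIntegrable _ _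
  have i4 : IntervalIntegrable (fun t => 9 * X4 t ^ 2) volume T (2 * T) :=
    (continuous_const.mul (c4.pow 2)).intervalIntegrable _ _
  have i5 : IntervalIntegrable (fun t => 4 * (C ^ 2 * X5 t ^ 2)) volume T (2 * T) :=
    (continuous_const.mul (continuous_const.mul (c5.pow 2))).intervalIntegrable _ _
  have j2 := i1.add i2
  have j3 := j2.add i3
  have j4 := j3.add i4
  have j5 := j4.add i5
  calc ∫ t in T..(2 * T), Yf L C N b x t ^ 2 ≤
      ∫ t in T..(2 * T), 5 * (X1 t ^ 2 + 4 * (L ^ 2 * X2 t ^ 2) +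
      4 * (L ^ 2 * X3 t ^ 2) + 9 * X4 t ^ 2 + 4 * (C ^ 2 * X5 t ^ 2)) := by
        refine intervalIntegral.integral_mono_on hT2'
          (((Yf_cont L C N b x).pow 2).intervalIntegrable _ _) (j5.const_mul 5) fun t _ => hY t
    _ = 5 * ((∫ t in T..(2 * T), X1 t ^ 2) + 4 * (L ^ 2 * ∫ t in T..(2 * T), X2 t ^ 2) +
        4 * (L ^ 2 * ∫ t in T..(2 * T), X3 t ^ 2) + 9 * (∫ t in T..(2 * T), X4 t ^ 2) +
        4 * (C ^ 2 * ∫ t in T..(2 * T), X5 t ^ 2)) := by
        rw [intervalIntegral.integral_const_mul, intervalIntegral.integral_add j4 i5,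
          intervalIntegral.integral_add j3 i4, intervalIntegral.integral_add j2 i3,
          intervalIntegral.integral_add i1 i2]
        simp only [intervalIntegral.integral_const_mul]
    _ ≤ 5 * (Kq * (T * V) + 4 * (Kl * (T * V)) + 4 * (Kl * (T * V)) + 9 * (K4 * (T * V)) +
        4 * (K5 * (T * V))) := by gcongr
    _ = _ := by ring

end Pool.Agent.TH800.MS
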