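import Pool.Agent.TH800.MS.Va

/-! The diagonal. -/

open Complex Filter Topology Set MeasureTheory
open scoped ComplexConjugate

namespace Pool.Agent.TH800.MS

/-- partial sums of `log² p / p` in the logarithmic scale -/
noncomputable def As (N : ℕ) (y : ℝ) : ℝ :=
  ∑ p ∈ (PX N).filter (fun p : ℕ => Real.log p ≤ y), aa p ^ 2

lemma As_mono (N : ℕ) : Monotone (As N) := by
  intro y z h
  unfold As
  apply Finset.sum_le_sum_of_subset_of_nonneg
  · intro p hp
    rw [Finset.mem_filter] at hp ⊢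
    exact ⟨hp.1, hp.2.trans h⟩
  · intro p _ _
    exact sq_nonneg _

lemma As_asym : ∃ C : ℝ, 0 < C ∧ ∀ (N : ℕ) (y : ℝ), 1 ≤ N → 0 ≤ y → y ≤ Real.log N →
    |As N y - y ^ 2 / 2| ≤ C * (y + 1) := by
  obtain ⟨C, hC, h⟩ := sum_aa
  refine ⟨C + 2, by positivity, fun N y hN hy hyN => ?_⟩
  have hN0 : (0 : ℝ) < N := by exact_mod_cast hN
  set M := ⌊Real.exp y⌋₊ with hM
  have he1 : 1 ≤ Real.exp y := Real.one_le_exp hy
  have hM1 : 1 ≤ M := Nat.le_floor (by exact_mod_cast he1)
  have hM0 : (1 : ℝ) ≤ M := by exact_mod_cast hM1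
  have hMe : (M : ℝ) ≤ Real.exp y := Nat.floor_le (Real.exp_pos _).le
  have heM : Real.exp y < M + 1 := Nat.lt_floor_add_one _
  have hEq : (PX N).filter (fun p : ℕ => Real.log p ≤ y) = PX M := by
    ext p
    rw [Finset.mem_filter, mem_PX, mem_PX]
    constructor
    · rintro ⟨⟨h1, h2⟩, h3⟩
      refine ⟨h1, Nat.le_floor ?_⟩
      rwa [← Real.log_le_iff_le_exp (by exact_mod_cast h1.pos)]
    · rintro ⟨h1, h2⟩
      have h3 : (p : ℝ) ≤ Real.exp y := by
        have : (p : ℝ) ≤ M := by exact_mod_cast h2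
        linarith
      have h4 : Real.log p ≤ y := (Real.log_le_iff_le_exp (by exact_mod_cast h1.pos)).2 h3
      refine ⟨⟨h1, ?_⟩, h4⟩
      have h5 : Real.log p ≤ Real.log N := h4.trans hyN
      rw [Real.log_le_log_iff (by exact_mod_cast h1.pos) hN0] at h5
      exact_mod_cast h5
  unfold As
  rw [hEq]
  have h1 := h M hM1
  have hl1 : Real.log M ≤ y := by
    rw [Real.log_le_iff_le_exp (by linarith)]
    exact hMe
  have hl0 : 0 ≤ Real.log M := Real.log_nonneg hM0
  have hl2 : y ≤ Real.log M + 1 := by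
    have h2 : Real.exp y ≤ 2 * M := by linarith
    have h3 : y ≤ Real.log (2 * M) := by
      rw [Real.le_log_iff_exp_le (by positivity)]
      exact h2
    rw [Real.log_mul (by norm_num) (by positivity)] at h3
    have := Real.log_two_lt_d9
    linarith
  have h4 : |Real.log M ^ 2 / 2 - y ^ 2 / 2| ≤ y + 1 := by
    rw [abs_le]
    constructor
    · nlinarith
    · nlinarith
  calc |∑ p ∈ PX M, aa p ^ 2 - y ^ 2 / 2| =
      |(∑ p ∈ PX M, aa p ^ 2 - Real.log M ^ 2 / 2) + (Real.log M ^ 2 / 2 - y ^ 2 / 2)| := by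
        congr 1; ring
    _ ≤ C * (Real.log M + 1) + (y + 1) := (abs_add_le _ _).trans (add_le_add h1 h4)
    _ ≤ C * (y + 1) + (y + 1) := by gcongr
    _ ≤ _ := by nlinarith

lemma kb_int_le {b : ℝ} (hb : 0 < b) (v c d : ℝ) (hcd : c ≤ d) :
    ∫ u in c..d, kb b (v - u) ≤ 1 := by
  rw [intervalIntegral.integral_of_le hcd]
  calc ∫ u in Set.Ioc c d, kb b (v - u) ≤ ∫ u, kb b (v - u) :=
        setIntegral_le_integral ((kb_integrable hb).comp_sub_left v)
          (Eventually.of_forall fun u => kb_nonneg hb _)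
    _ = 1 := by rw [integral_sub_left_eq_self (kb b) volume v, kb_int_full1 hb]

lemma sq_diff {b : ℝ} (hb : 0 < b) (z : ℝ) :
    |be b z ^ 2 - kb b z ^ 2| ≤ 1 / b ^ 2 * (be b z + kb b z) := by
  have h1 : be b z ^ 2 - kb b z ^ 2 = (be b z - kb b z) * (be b z + kb b z) := by ring
  have h2 : 0 ≤ be b z + kb b z := add_nonneg (be_nonneg hb z) (kb_nonneg hb z)
  rw [h1, abs_mul, abs_of_nonneg h2]
  exact mul_le_mul_of_nonneg_right (be_close hb z) h2

lemma kb_comp (b v : ℝ) : Continuous fun u : ℝ => kb b (v - u) := kb_cont.comp (by fun_prop)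

lemma int_sq_diff {b : ℝ} (hb : 0 < b) (v c d : ℝ) (hcd : c ≤ d) :
    |(∫ u in c..d, be b (v - u) ^ 2) - ∫ u in c..d, kb b (v - u) ^ 2| ≤ 2 / b ^ 2 := by
  have i1 : IntervalIntegrable (fun u => be b (v - u) ^ 2) volume c d :=
    ((be_comp b v).pow 2).intervalIntegrable _ _
  have i2 : IntervalIntegrable (fun u => kb b (v - u) ^ 2) volume c d :=
    ((kb_comp b v).pow 2).intervalIntegrable _ _
  have i3 : IntervalIntegrable (fun u => be b (v - u)) volume c d :=
    (be_comp b v).intervalIntegrable _ _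
  have i4 : IntervalIntegrable (fun u => kb b (v - u)) volume c d :=
    (kb_comp b v).intervalIntegrable _ _
  rw [← intervalIntegral.integral_sub i1 i2, ← Real.norm_eq_abs]
  calc ‖∫ u in c..d, (be b (v - u) ^ 2 - kb b (v - u) ^ 2)‖ ≤
      ∫ u in c..d, 1 / b ^ 2 * (be b (v - u) + kb b (v - u)) := by
        apply intervalIntegral.norm_integral_le_of_norm_le hcd
        · exact Eventually.of_forall fun u _ => by
            rw [Real.norm_eq_abs]; exact sq_diff hb _
        · exact (i3.add i4).const_mul _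
    _ = 1 / b ^ 2 * ((∫ u in c..d, be b (v - u)) + ∫ u in c..d, kb b (v - u)) := by
        rw [intervalIntegral.integral_const_mul, intervalIntegral.integral_add i3 i4]
    _ ≤ 1 / b ^ 2 * (1 + 1) := by
        have := be_int_le hb v c d hcd
        have := kb_int_le hb v c d hcd
        gcongr
    _ = _ := by ring

/-- upper bound for the overlap with the triangle -/
lemma kb_sq_le {b : ℝ} (hb : 0 < b) (v c d : ℝ) (hcd : c ≤ d) :
    ∫ u in c..d, kb b (v - u) ^ 2 ≤ 2 / (3 * b) := by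
  rw [intervalIntegral.integral_of_le hcd]
  calc ∫ u in Set.Ioc c d, kb b (v - u) ^ 2 ≤ ∫ u, kb b (v - u) ^ 2 :=
        setIntegral_le_integral ((kb_sq_integrable hb).comp_sub_left v)
          (Eventually.of_forall fun u => sq_nonneg _)
    _ = 2 / (3 * b) := by
        rw [integral_sub_left_eq_self (fun z => kb b z ^ 2) volume v, kb_sq_int hb]

lemma kb_sq_full {b : ℝ} (hb : 0 < b) (v c d : ℝ) (h1 : c ≤ v - b) (h2 : v + b ≤ d) :
    ∫ u in c..d, kb b (v - u) ^ 2 = 2 / (3 * b) := by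
  rw [intervalIntegral.integral_of_le (by linarith)]
  have h3 : ∫ u, kb b (v - u) ^ 2 = 2 / (3 * b) := by
    rw [integral_sub_left_eq_self (fun z => kb b z ^ 2) volume v, kb_sq_int hb]
  rw [← h3]
  apply setIntegral_eq_integral_of_forall_compl_eq_zero
  intro u hu
  have h4 : b ≤ |v - u| := by
    by_contra hcon
    rw [not_le, abs_lt] at hcon
    exact hu ⟨by linarith [hcon.2], by linarith [hcon.1]⟩
  rw [kb_zero hb h4]
  simp

lemma kb_sq_zero {b : ℝ} (hb : 0 < b) (v c d : ℝ) (hcd : c ≤ d) (h : d + b ≤ v) :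
    ∫ u in c..d, kb b (v - u) ^ 2 = 0 := by
  have h1 : ∫ u in c..d, kb b (v - u) ^ 2 = ∫ u in c..d, (0 : ℝ) := by
    refine intervalIntegral.integral_congr fun u hu => ?_
    rw [Set.uIcc_of_le hcd] at hu
    have h2 : b ≤ |v - u| := (by linarith [hu.2] : b ≤ v - u).trans (le_abs_self _)
    show kb b (v - u) ^ 2 = 0
    rw [kb_zero hb h2]
    simp
  rw [h1]
  simp

lemma diag_eq (N : ℕ) (b c d : ℝ) :
    diag N b c d = ∑ p ∈ PX N, aa p ^ 2 * ∫ u in c..d, be b (Real.log p - u) ^ 2 := by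
  unfold diag Bc
  simp only [sq]

lemma diag_short : ∃ C : ℝ, 0 < C ∧ ∀ (N : ℕ) (b c d : ℝ), 0 < b → c ≤ d → 1 ≤ N →
    diag N b c d ≤ C * ((d - c) / b) * Real.log N := by
  obtain ⟨C, hC, h⟩ := sum_aa_be
  refine ⟨C, hC, fun N b c d hb hcd hN => ?_⟩
  rw [diag_eq]
  calc ∑ p ∈ PX N, aa p ^ 2 * ∫ u in c..d, be b (Real.log p - u) ^ 2 ≤
      ∑ p ∈ PX N, aa p ^ 2 * ∫ u in c..d, 1 / b * be b (Real.log p - u) := by
        refine Finset.sum_le_sum fun p _ => mul_le_mul_of_nonneg_left ?_ (sq_nonneg _)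
        refine intervalIntegral.integral_mono_on hcd
          (((be_comp b _).pow 2).intervalIntegrable _ _)
          ((continuous_const.mul (be_comp b _)).intervalIntegrable _ _) fun u _ => ?_
        rw [sq]
        exact mul_le_mul_of_nonneg_right (be_le hb _) (be_nonneg hb _)
    _ = 1 / b * ∫ u in c..d, ∑ p ∈ PX N, aa p ^ 2 * be b (Real.log p - u) := by
        have hi : ∀ p ∈ PX N, IntervalIntegrable (fun u => aa p ^ 2 * be b (Real.log p - u))
            volume c d := fun p _ => (continuous_const.mul (be_comp b _)).intervalIntegrable _ _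
        rw [intervalIntegral.integral_finsetSum hi, Finset.mul_sum]
        refine Finset.sum_congr rfl fun p _ => ?_
        rw [intervalIntegral.integral_const_mul, intervalIntegral.integral_const_mul]
        ring
    _ ≤ 1 / b * ∫ u in c..d, C * Real.log N := by
        gcongr
        have hcc : Continuous fun u : ℝ => ∑ q ∈ PX N, aa q ^ 2 * be b (Real.log q - u) :=
          continuous_finsetSum _ fun q _ => continuous_const.mul (be_comp b _)
        refine intervalIntegral.integral_mono_on hcd (hcc.intervalIntegrable _ _)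
          (continuous_const.intervalIntegrable _ _) fun u _ => h N b u hb hN
    _ = _ := by
        rw [intervalIntegral.integral_const, smul_eq_mul]
        ring

/-- the diagonal -/
theorem diag_asym : ∃ C : ℝ, 0 < C ∧ ∀ (N : ℕ) (b x : ℝ), 1 ≤ b → b ≤ x → 1 ≤ N →
    x + b ≤ Real.log N →
    |diag N b 0 x - x ^ 2 / (3 * b)| ≤
      C * ((Real.log N + 1) + (Real.log N + 1) ^ 2 / b ^ 2) := by
  obtain ⟨C1, hC1, h1⟩ := sum_aa
  obtain ⟨C2, hC2, h2⟩ := As_asym
  refine ⟨2 * (C1 + 1) + 2 + 2 * C2, by positivity, fun N b x hb1 hbx hN hxN => ?_⟩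
  have hb : 0 < b := by linarith
  have hx0 : 0 ≤ x := by linarith
  set l := Real.log N with hl
  have hl0 : 0 ≤ l := Real.log_natCast_nonneg N
  set K : ℕ → ℝ := fun p => ∫ u in (0 : ℝ)..x, kb b (Real.log p - u) ^ 2 with hK
  have hK0 : ∀ p, 0 ≤ K p := fun p => intervalIntegral.integral_nonneg hx0 fun u _ => sq_nonneg _
  have hA : ∑ p ∈ PX N, aa p ^ 2 ≤ (C1 + 1) * (l + 1) ^ 2 := by
    have h3 := (abs_le.1 (h1 N hN)).2
    nlinarith
  have hdiff : |diag N b 0 x - ∑ p ∈ PX N, aa p ^ 2 * K p| ≤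
      2 * (C1 + 1) * ((l + 1) ^ 2 / b ^ 2) := by
    rw [diag_eq, ← Finset.sum_sub_distrib]
    calc |∑ p ∈ PX N, (aa p ^ 2 * (∫ u in (0 : ℝ)..x, be b (Real.log p - u) ^ 2) -
        aa p ^ 2 * K p)| ≤ ∑ p ∈ PX N, aa p ^ 2 * (2 / b ^ 2) := by
          refine (Finset.abs_sum_le_sum_abs _ _).trans (Finset.sum_le_sum fun p _ => ?_)
          rw [← mul_sub, abs_mul, abs_of_nonneg (sq_nonneg _)]
          exact mul_le_mul_of_nonneg_left (int_sq_diff hb _ 0 x hx0) (sq_nonneg _)
      _ = (∑ p ∈ PX N, aa p ^ 2) * (2 / b ^ 2) := by rw [Finset.sum_mul]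
      _ ≤ ((C1 + 1) * (l + 1) ^ 2) * (2 / b ^ 2) := by gcongr
      _ = _ := by ring
  have hup : ∑ p ∈ PX N, aa p ^ 2 * K p ≤ 2 / (3 * b) * As N (x + b) := by
    unfold As
    rw [Finset.mul_sum, Finset.sum_filter]
    refine Finset.sum_le_sum fun p _ => ?_
    split_ifs with h
    · rw [mul_comm]
      exact mul_le_mul_of_nonneg_right (kb_sq_le hb _ 0 x hx0) (sq_nonneg _)
    · have : K p = 0 := kb_sq_zero hb _ 0 x hx0 (by linarith)
      rw [this, mul_zero]
  have hlow : 2 / (3 * b) * (As N (x - b) - As N b) ≤ ∑ p ∈ PX N, aa p ^ 2 * K p := by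
    rcases le_or_gt (x - b) b with h | h
    · have h3 : As N (x - b) ≤ As N b := As_mono N h
      have h4 : 2 / (3 * b) * (As N (x - b) - As N b) ≤ 0 :=
        mul_nonpos_of_nonneg_of_nonpos (by positivity) (by linarith)
      exact h4.trans (Finset.sum_nonneg fun p _ => mul_nonneg (sq_nonneg _) (hK0 p))
    · unfold As
      rw [Finset.sum_filter, Finset.sum_filter, ← Finset.sum_sub_distrib, Finset.mul_sum]
      refine Finset.sum_le_sum fun p _ => ?_
      have hK1 : 0 ≤ aa p ^ 2 * K p := mul_nonneg (sq_nonneg _) (hK0 p)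
      by_cases c1 : Real.log p ≤ x - b
      · by_cases c2 : Real.log p ≤ b
        · rw [if_pos c1, if_pos c2, sub_self, mul_zero]
          exact hK1
        · rw [if_pos c1, if_neg c2, sub_zero]
          have : K p = 2 / (3 * b) := kb_sq_full hb _ 0 x (by linarith) (by linarith)
          rw [this, mul_comm]
      · rw [if_neg c1, if_neg (by linarith), sub_self, mul_zero]
        exact hK1
  have hu2 := (abs_le.1 (h2 N (x + b) hN (by linarith) hxN)).2
  have hl2 := (abs_le.1 (h2 N (x - b) hN (by linarith) (by linarith))).1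
  have hb2 := (abs_le.1 (h2 N b hN hb.le (by linarith))).2
  have hinv : 1 / b ≤ 1 := by rw [div_le_one hb]; exact hb1
  have hinv0 : 0 < 1 / b := by positivity
  have hup2 : ∑ p ∈ PX N, aa p ^ 2 * K p - x ^ 2 / (3 * b) ≤ (2 + 2 * C2) * (l + 1) := by
    have e1 : 2 / (3 * b) * As N (x + b) ≤ 2 / (3 * b) * ((x + b) ^ 2 / 2 + C2 * (x + b + 1)) := by
      gcongr
      linarith
    have e2 : 2 / (3 * b) * ((x + b) ^ 2 / 2 + C2 * (x + b + 1)) - x ^ 2 / (3 * b) =
        (2 * x + b) / 3 + 2 / 3 * C2 * (1 / b) * (x + b + 1) := by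
      field_simp
      ring
    have e3 : 2 / 3 * C2 * (1 / b) * (x + b + 1) ≤ 2 / 3 * C2 * 1 * (l + 1) := by
      gcongr
    nlinarith
  have hlow2 : -((2 + 2 * C2) * (l + 1)) ≤ ∑ p ∈ PX N, aa p ^ 2 * K p - x ^ 2 / (3 * b) := by
    have e1 : 2 / (3 * b) * (((x - b) ^ 2 / 2 - C2 * (x - b + 1)) - (b ^ 2 / 2 + C2 * (b + 1))) ≤
        2 / (3 * b) * (As N (x - b) - As N b) := by
      gcongr
      · linarith
      · linarith
    have e2 : 2 / (3 * b) * (((x - b) ^ 2 / 2 - C2 * (x - b + 1)) - (b ^ 2 / 2 + C2 * (b + 1))) -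
        x ^ 2 / (3 * b) = -(2 * x / 3) - 2 / 3 * C2 * (1 / b) * (x + 2) := by
      field_simp
      ring
    have e3 : 2 / 3 * C2 * (1 / b) * (x + 2) ≤ 2 / 3 * C2 * 1 * (l + 2) := by
      gcongr
      linarith
    nlinarith
  have hmid : |∑ p ∈ PX N, aa p ^ 2 * K p - x ^ 2 / (3 * b)| ≤ (2 + 2 * C2) * (l + 1) :=
    abs_le.2 ⟨hlow2, hup2⟩
  calc |diag N b 0 x - x ^ 2 / (3 * b)| =
      |(diag N b 0 x - ∑ p ∈ PX N, aa p ^ 2 * K p) +
        (∑ p ∈ PX N, aa p ^ 2 * K p - x ^ 2 / (3 * b))| := by congr 1; ring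
    _ ≤ 2 * (C1 + 1) * ((l + 1) ^ 2 / b ^ 2) + (2 + 2 * C2) * (l + 1) :=
        (abs_add_le _ _).trans (add_le_add hdiff hmid)
    _ ≤ _ := by
        have : 0 ≤ (l + 1) ^ 2 / b ^ 2 := by positivity
        nlinarith

/-- the peak at `0` -/
lemma peak {b x : ℝ} (hb : 0 < b) (hbx : b ≤ x) :
    |(∫ u in (0 : ℝ)..x, be b u ^ 2) - 1 / (3 * b)| ≤ 2 / b ^ 2 := by
  have h1 : ∫ u in (0 : ℝ)..x, kb b u ^ 2 = 1 / (3 * b) := by
    have i1 : ∀ c d : ℝ, IntervalIntegrable (fun u => kb b u ^ 2) volume c d := fun c d =>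
      (kb_cont.pow 2).intervalIntegrable _ _
    rw [← kb_sq_half hb, ← intervalIntegral.integral_add_adjacent_intervals (i1 0 b) (i1 b x)]
    have h2 : ∫ u in b..x, kb b u ^ 2 = 0 := by
      have h3 : ∫ u in b..x, kb b u ^ 2 = ∫ u in b..x, (0 : ℝ) := by
        refine intervalIntegral.integral_congr fun u hu => ?_
        rw [Set.uIcc_of_le hbx] at hu
        show kb b u ^ 2 = 0
        rw [kb_zero hb (hu.1.trans (le_abs_self _))]
        simp
      rw [h3]
      simp
    rw [h2, add_zero]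
  have h4 := int_sq_diff hb 0 0 x (by linarith)
  simp only [zero_sub] at h4
  have e1 : ∀ u, be b (-u) = be b u := be_even hb
  have e2 : ∀ u, kb b (-u) = kb b u := kb_even
  simp only [e1, e2] at h4
  rw [h1] at h4
  exact h4

end Pool.Agent.TH800.MS
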