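import Pool.Agent.H382P.PrimePart

/-! The triangular kernel and its Gaussian smoothing. -/

open Complex Filter Topology Set MeasureTheory

namespace Pool.Agent.TH800.MS

/-- triangular kernel of width `b` -/
noncomputable def kb (b y : ℝ) : ℝ := 1 / b * max 0 (1 - |y| / b)

/-- normal density -/
noncomputable def gau0 (x : ℝ) : ℝ := 1 / Real.sqrt (2 * Real.pi) * Real.exp (-x ^ 2 / 2)

/-- smoothed kernel -/
noncomputable def be (b z : ℝ) : ℝ := ∫ y in (-b)..b, kb b y * gau0 (y - z)

lemma s2pi : 0 < Real.sqrt (2 * Real.pi) := Real.sqrt_pos.2 (by have := Real.pi_pos; positivity)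

lemma gau0_pos (x : ℝ) : 0 < gau0 x := by
  unfold gau0
  have := s2pi
  positivity

lemma gau0_cont : Continuous gau0 := by unfold gau0; fun_prop

lemma gau0_even (x : ℝ) : gau0 (-x) = gau0 x := by
  unfold gau0
  rw [neg_sq]

lemma gau0_integrable : Integrable gau0 := by
  have h := (SP.pp_gauss_integrable 0).const_mul (1 / Real.sqrt (2 * Real.pi))
  refine h.congr (Eventually.of_forall fun x => ?_)
  simp only [gau0, sub_zero]

lemma gau0_int : ∫ x, gau0 x = 1 := by
  have h := SP.pp_gauss_int 0
  unfold gau0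
  rw [integral_const_mul]
  simp only [sub_zero] at h
  rw [h, one_div_mul_cancel s2pi.ne']

lemma gau0_le_one (x : ℝ) : gau0 x ≤ 1 := by
  unfold gau0
  have h1 := SP.pp_inv_sqrt_le
  have h2 : Real.exp (-x ^ 2 / 2) ≤ 1 := by
    rw [Real.exp_le_one_iff]
    have := sq_nonneg x
    linarith
  have h3 := s2pi
  calc 1 / Real.sqrt (2 * Real.pi) * Real.exp (-x ^ 2 / 2) ≤ 1 * 1 := by gcongr
    _ = 1 := one_mul 1

variable {b : ℝ}

lemma kb_nonneg (hb : 0 < b) (y : ℝ) : 0 ≤ kb b y := by
  unfold kb
  have := le_max_left 0 (1 - |y| / b)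
  positivity

lemma kb_le (hb : 0 < b) (y : ℝ) : kb b y ≤ 1 / b := by
  unfold kb
  have h : max 0 (1 - |y| / b) ≤ 1 := max_le zero_le_one (by
    have : 0 ≤ |y| / b := by positivity
    linarith)
  calc 1 / b * max 0 (1 - |y| / b) ≤ 1 / b * 1 := by gcongr
    _ = 1 / b := mul_one _

lemma kb_zero (hb : 0 < b) {y : ℝ} (h : b ≤ |y|) : kb b y = 0 := by
  unfold kb
  have : 1 ≤ |y| / b := by rw [le_div_iff₀ hb]; linarith
  rw [max_eq_left (by linarith), mul_zero]

lemma kb_even (y : ℝ) : kb b (-y) = kb b y := by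
  unfold kb; rw [abs_neg]

lemma kb_cont : Continuous (kb b) := by unfold kb; fun_prop

lemma kb_pos_part (hb : 0 < b) {y : ℝ} (h0 : 0 ≤ y) (h1 : y ≤ b) :
    kb b y = 1 / b * (1 - y / b) := by
  unfold kb
  rw [abs_of_nonneg h0, max_eq_right]
  rw [sub_nonneg, div_le_one hb]
  exact h1

lemma kb_half (hb : 0 < b) : ∫ y in (0 : ℝ)..b, kb b y = 1 / 2 := by
  have h1 : ∫ y in (0 : ℝ)..b, kb b y = ∫ y in (0 : ℝ)..b, 1 / b * (1 - y / b) := by
    refine intervalIntegral.integral_congr fun y hy => ?_
    rw [Set.uIcc_of_le hb.le] at hy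
    exact kb_pos_part hb hy.1 hy.2
  rw [h1, intervalIntegral.integral_const_mul, intervalIntegral.integral_sub
    (by simp) (by apply Continuous.intervalIntegrable; fun_prop),
    intervalIntegral.integral_div, integral_id, intervalIntegral.integral_const, smul_eq_mul]
  field_simp
  ring

lemma even_int {f : ℝ → ℝ} (hf : Continuous f) (he : ∀ y, f (-y) = f y) (c : ℝ) :
    ∫ y in (-c)..c, f y = 2 * ∫ y in (0 : ℝ)..c, f y := by
  rw [← intervalIntegral.integral_add_adjacent_intervals (b := 0)
    (hf.intervalIntegrable _ _) (hf.intervalIntegrable _ _)]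
  have h1 : ∫ y in (-c)..0, f y = ∫ y in (0 : ℝ)..c, f y := by
    have := intervalIntegral.integral_comp_neg (f := f) (a := 0) (b := c)
    rw [neg_zero] at this
    rw [← this]
    simp only [he]
  rw [h1]
  ring

lemma kb_int (hb : 0 < b) : ∫ y in (-b)..b, kb b y = 1 := by
  rw [even_int kb_cont kb_even, kb_half hb]
  norm_num

/-- integral of the square of the triangular kernel -/
lemma kb_sq_half (hb : 0 < b) : ∫ y in (0 : ℝ)..b, kb b y ^ 2 = 1 / (3 * b) := by
  have h1 : ∫ y in (0 : ℝ)..b, kb b y ^ 2 =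
      ∫ y in (0 : ℝ)..b, (1 / b ^ 2 - 2 / b ^ 3 * y + 1 / b ^ 4 * y ^ 2) := by
    refine intervalIntegral.integral_congr fun y hy => ?_
    rw [Set.uIcc_of_le hb.le] at hy
    rw [kb_pos_part hb hy.1 hy.2]
    field_simp
    ring
  rw [h1, intervalIntegral.integral_add
    (by apply Continuous.intervalIntegrable; fun_prop)
    (by apply Continuous.intervalIntegrable; fun_prop),
    intervalIntegral.integral_sub (by apply Continuous.intervalIntegrable; fun_prop)
      (by apply Continuous.intervalIntegrable; fun_prop),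
    intervalIntegral.integral_const_mul, intervalIntegral.integral_const_mul,
    integral_id, integral_pow, intervalIntegral.integral_const, smul_eq_mul]
  push_cast
  field_simp
  ring

lemma kb_int_full (hb : 0 < b) (g : ℝ → ℝ) :
    ∫ y, kb b y * g y = ∫ y in (-b)..b, kb b y * g y := by
  rw [intervalIntegral.integral_of_le (by linarith)]
  symm
  apply setIntegral_eq_integral_of_forall_compl_eq_zero
  intro y hy
  rw [kb_zero hb, zero_mul]
  by_contra hcon
  rw [not_le, abs_lt] at hcon
  exact hy ⟨hcon.1, hcon.2.le⟩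

lemma kb_integrable (hb : 0 < b) : Integrable (kb b) := by
  apply kb_cont.integrable_of_hasCompactSupport
  refine HasCompactSupport.intro (isCompact_Icc (a := -b) (b := b)) fun y hy => ?_
  apply kb_zero hb
  by_contra hcon
  rw [not_le, abs_lt] at hcon
  exact hy ⟨hcon.1.le, hcon.2.le⟩

lemma kb_int_full1 (hb : 0 < b) : ∫ y, kb b y = 1 := by
  have h := kb_int_full hb (fun _ => 1)
  simp only [mul_one] at h
  rw [h, kb_int hb]

lemma be_eq (hb : 0 < b) (z : ℝ) : be b z = ∫ y, kb b y * gau0 (y - z) := by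
  unfold be
  rw [kb_int_full hb]

lemma be_eq' (hb : 0 < b) (z : ℝ) : be b z = ∫ w, kb b (z - w) * gau0 w := by
  rw [be_eq hb]
  have h := integral_sub_left_eq_self (fun w => kb b (z - w) * gau0 w) volume z
  rw [← h]
  congr 1
  funext w
  rw [sub_sub_cancel, ← gau0_even (z - w), neg_sub]

lemma be_nonneg (hb : 0 < b) (z : ℝ) : 0 ≤ be b z := by
  rw [be_eq hb]
  exact integral_nonneg fun y => mul_nonneg (kb_nonneg hb y) (gau0_pos _).le

lemma be_even (hb : 0 < b) (z : ℝ) : be b (-z) = be b z := by
  rw [be_eq hb, be_eq hb, ← integral_neg_eq_self]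
  congr 1
  funext y
  rw [kb_even, ← gau0_even (y - z)]
  congr 2
  ring

lemma be_integrand (hb : 0 < b) (z : ℝ) : Integrable (fun y => kb b y * gau0 (y - z)) := by
  refine (kb_integrable hb).mono' ?_ (Eventually.of_forall fun y => ?_)
  · exact (kb_cont.mul (gau0_cont.comp (by fun_prop))).aestronglyMeasurable
  · rw [Real.norm_of_nonneg (mul_nonneg (kb_nonneg hb y) (gau0_pos _).le)]
    exact mul_le_of_le_one_right (kb_nonneg hb y) (gau0_le_one _)

lemma be_le (hb : 0 < b) (z : ℝ) : be b z ≤ 1 / b := by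
  rw [be_eq' hb]
  calc ∫ w, kb b (z - w) * gau0 w ≤ ∫ w, 1 / b * gau0 w := by
        apply integral_mono_of_nonneg
        · exact Eventually.of_forall fun w => mul_nonneg (kb_nonneg hb _) (gau0_pos _).le
        · exact gau0_integrable.const_mul _
        · exact Eventually.of_forall fun w =>
            mul_le_mul_of_nonneg_right (kb_le hb _) (gau0_pos _).le
    _ = 1 / b := by rw [integral_const_mul, gau0_int, mul_one]

lemma be_cont : Continuous (be b) := by
  have : be b = fun z => ∫ y in (-b)..b, kb b y * gau0 (y - z) := rfl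
  rw [this]
  apply intervalIntegral.continuous_parametric_intervalIntegral_of_continuous'
  show Continuous (Function.uncurry fun z y : ℝ => kb b y * gau0 (y - z))
  unfold Function.uncurry
  exact (kb_cont.comp continuous_snd).mul (gau0_cont.comp (by fun_prop))

lemma be_conv (hb : 0 < b) : be b =
    MeasureTheory.convolution (kb b) gau0 (ContinuousLinearMap.mul ℝ ℝ) volume := by
  funext z
  rw [be_eq hb]
  unfold MeasureTheory.convolution
  congr 1
  funext y
  rw [ContinuousLinearMap.mul_apply', ← gau0_even (y - z), neg_sub]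

lemma be_integrable (hb : 0 < b) : Integrable (be b) := by
  rw [be_conv hb]
  exact (kb_integrable hb).integrable_convolution _ gau0_integrable

lemma be_int (hb : 0 < b) : ∫ z, be b z = 1 := by
  rw [be_conv hb, integral_convolution _ (kb_integrable hb) gau0_integrable]
  rw [kb_int_full1 hb, gau0_int]
  simp

lemma be_int_le (hb : 0 < b) (v c d : ℝ) (hcd : c ≤ d) : ∫ u in c..d, be b (v - u) ≤ 1 := by
  rw [intervalIntegral.integral_of_le hcd]
  calc ∫ u in Set.Ioc c d, be b (v - u) ≤ ∫ u, be b (v - u) :=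
        setIntegral_le_integral ((be_integrable hb).comp_sub_left v)
          (Eventually.of_forall fun u => be_nonneg hb _)
    _ = 1 := by rw [integral_sub_left_eq_self (be b) volume v, be_int hb]

/-- far from the support of the triangle -/
lemma be_far (hb : 0 < b) {z : ℝ} (hz : b ≤ z) :
    be b z ≤ 1 / b * Real.exp (-(z - b) ^ 2 / 2) := by
  have key : ∀ y : ℝ, kb b y * gau0 (y - z) ≤
      1 / b * Real.exp (-(z - b) ^ 2 / 2) * gau0 (y - b) := by
    intro y
    rcases le_or_gt b |y| with h | h
    · rw [kb_zero hb h, zero_mul]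
      have := gau0_pos (y - b)
      positivity
    · have h1 : gau0 (y - z) ≤ Real.exp (-(z - b) ^ 2 / 2) * gau0 (y - b) := by
        unfold gau0
        have h3 : Real.exp (-(y - z) ^ 2 / 2) ≤
            Real.exp (-(z - b) ^ 2 / 2) * Real.exp (-(y - b) ^ 2 / 2) := by
          rw [← Real.exp_add]
          apply Real.exp_le_exp.2
          have h4 : y ≤ b := (le_abs_self y).trans h.le
          nlinarith [mul_nonneg (sub_nonneg.2 h4) (sub_nonneg.2 hz)]
        have h5 := s2pi
        calc 1 / Real.sqrt (2 * Real.pi) * Real.exp (-(y - z) ^ 2 / 2) ≤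
            1 / Real.sqrt (2 * Real.pi) *
              (Real.exp (-(z - b) ^ 2 / 2) * Real.exp (-(y - b) ^ 2 / 2)) := by gcongr
          _ = _ := by ring
      calc kb b y * gau0 (y - z) ≤ 1 / b * (Real.exp (-(z - b) ^ 2 / 2) * gau0 (y - b)) := by
            apply mul_le_mul (kb_le hb y) h1 (gau0_pos _).le (by positivity)
        _ = _ := by ring
  rw [be_eq hb]
  calc ∫ y, kb b y * gau0 (y - z) ≤
      ∫ y, 1 / b * Real.exp (-(z - b) ^ 2 / 2) * gau0 (y - b) := by
        apply integral_mono_of_nonneg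
        · exact Eventually.of_forall fun y => mul_nonneg (kb_nonneg hb _) (gau0_pos _).le
        · exact (gau0_integrable.comp_sub_right b).const_mul _
        · exact Eventually.of_forall key
    _ = _ := by
        rw [integral_const_mul, integral_sub_right_eq_self gau0 b, gau0_int, mul_one]

lemma kb_lip (hb : 0 < b) (x y : ℝ) : |kb b x - kb b y| ≤ 1 / b ^ 2 * |x - y| := by
  unfold kb
  rw [← mul_sub, abs_mul, abs_of_pos (by positivity : 0 < 1 / b)]
  have h1 := abs_max_sub_max_le_abs (1 - |x| / b) (1 - |y| / b) 0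
  rw [max_comm, max_comm _ (0 : ℝ)] at h1
  have h2 : |1 - |x| / b - (1 - |y| / b)| ≤ 1 / b * |x - y| := by
    have h3 : 1 - |x| / b - (1 - |y| / b) = 1 / b * (|y| - |x|) := by ring
    rw [h3, abs_mul, abs_of_pos (by positivity : 0 < 1 / b)]
    have h4 := abs_abs_sub_abs_le_abs_sub y x
    rw [abs_sub_comm y x] at h4
    gcongr
  calc 1 / b * |max 0 (1 - |x| / b) - max 0 (1 - |y| / b)| ≤ 1 / b * (1 / b * |x - y|) := by
        gcongr
        exact h1.trans h2
    _ = _ := by ring

lemma gau0_abs_integrable : Integrable (fun w : ℝ => |w| * gau0 w) := by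
  have := (integrable_mul_exp_neg_mul_sq (b := 1 / 2) (by norm_num)).norm
  refine (this.const_mul (1 / Real.sqrt (2 * Real.pi))).congr (Eventually.of_forall fun v => ?_)
  simp only [norm_mul, Real.norm_eq_abs, Real.abs_exp, gau0]
  have : -(1 / 2) * v ^ 2 = -v ^ 2 / 2 := by ring
  rw [this]
  ring

lemma gau0_abs_int : ∫ w : ℝ, |w| * gau0 w ≤ 1 := by
  have h1 := integral_comp_abs (f := fun v => v * Real.exp (-v ^ 2 / 2))
  simp only [sq_abs] at h1
  have h2 : ∫ v in Set.Ioi (0:ℝ), v * Real.exp (-v ^ 2 / 2) = 1 := by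
    have h3 : ∀ v ∈ Set.Ioi (0:ℝ), HasDerivAt (fun v : ℝ => -Real.exp (-v ^ 2 / 2))
        (v * Real.exp (-v ^ 2 / 2)) v := by
      intro v _
      have h4 : HasDerivAt (fun v : ℝ => -v ^ 2 / 2) (-v) v := by
        have := ((hasDerivAt_pow 2 v).neg).div_const 2
        convert! this using 1
        ring
      have h5 := h4.exp.neg
      convert! h5 using 1
      ring
    have h6 := integral_Ioi_of_hasDerivAt_of_nonneg (a := (0:ℝ)) (l := 0)
      (g := fun v : ℝ => -Real.exp (-v ^ 2 / 2)) (g' := fun v => v * Real.exp (-v ^ 2 / 2))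
      (by fun_prop) h3 (fun v hv => mul_nonneg (le_of_lt hv) (Real.exp_pos _).le) (by
        rw [← neg_zero]
        apply Tendsto.neg
        apply Real.tendsto_exp_atBot.comp
        have h7 : Tendsto (fun v : ℝ => v ^ 2 / 2) atTop atTop :=
          (tendsto_pow_atTop two_ne_zero).atTop_div_const (by norm_num)
        have h8 := tendsto_neg_atTop_atBot.comp h7
        refine h8.congr fun v => ?_
        simp only [Function.comp]
        ring)
    rw [h6]
    simp
  have h9 : ∫ w : ℝ, |w| * gau0 w = 1 / Real.sqrt (2 * Real.pi) * 2 := by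
    have : ∀ w : ℝ, |w| * gau0 w = 1 / Real.sqrt (2 * Real.pi) *
        (|w| * Real.exp (-w ^ 2 / 2)) := by
      intro w; unfold gau0; ring
    simp_rw [this]
    rw [integral_const_mul, h1, h2, mul_one]
  rw [h9, one_div, inv_mul_le_iff₀ s2pi, mul_one]
  apply Real.le_sqrt_of_sq_le
  have := Real.pi_gt_three
  linarith

lemma be_close (hb : 0 < b) (z : ℝ) : |be b z - kb b z| ≤ 1 / b ^ 2 := by
  have h1 : be b z - kb b z = ∫ w, (kb b (z - w) - kb b z) * gau0 w := by
    have hi : Integrable (fun w => kb b (z - w) * gau0 w) := by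
      refine (gau0_integrable.const_mul (1 / b)).mono' ?_ (Eventually.of_forall fun w => ?_)
      · exact ((kb_cont.comp (by fun_prop)).mul gau0_cont).aestronglyMeasurable
      · rw [Real.norm_of_nonneg (mul_nonneg (kb_nonneg hb _) (gau0_pos _).le)]
        exact mul_le_mul_of_nonneg_right (kb_le hb _) (gau0_pos _).le
    have h2 : ∀ w, (kb b (z - w) - kb b z) * gau0 w =
        kb b (z - w) * gau0 w - kb b z * gau0 w := fun w => by ring
    simp_rw [h2]
    rw [integral_sub hi (gau0_integrable.const_mul _), integral_const_mul, gau0_int, mul_one,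
      ← be_eq' hb]
  rw [h1, ← Real.norm_eq_abs]
  calc ‖∫ w, (kb b (z - w) - kb b z) * gau0 w‖ ≤ ∫ w, 1 / b ^ 2 * (|w| * gau0 w) := by
        refine norm_integral_le_of_norm_le (gau0_abs_integrable.const_mul _)
          (Eventually.of_forall fun w => ?_)
        rw [norm_mul, Real.norm_eq_abs, Real.norm_of_nonneg (gau0_pos w).le, ← mul_assoc]
        apply mul_le_mul_of_nonneg_right _ (gau0_pos w).le
        refine (kb_lip hb _ _).trans (le_of_eq ?_)
        congr 1
        rw [sub_sub_cancel_left, abs_neg]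
    _ ≤ 1 / b ^ 2 * 1 := by
        rw [integral_const_mul]
        have := gau0_abs_int
        gcongr
    _ = _ := mul_one _

lemma be_sq_integrable (hb : 0 < b) : Integrable (fun z => be b z ^ 2) := by
  refine ((be_integrable hb).const_mul (1 / b)).mono' ?_ (Eventually.of_forall fun z => ?_)
  · exact (be_cont.pow 2).aestronglyMeasurable
  · rw [Real.norm_of_nonneg (by positivity), sq]
    exact mul_le_mul_of_nonneg_right (be_le hb z) (be_nonneg hb z)

lemma kb_sq_integrable (hb : 0 < b) : Integrable (fun z => kb b z ^ 2) := by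
  refine ((kb_integrable hb).const_mul (1 / b)).mono' ?_ (Eventually.of_forall fun z => ?_)
  · exact (kb_cont.pow 2).aestronglyMeasurable
  · rw [Real.norm_of_nonneg (by positivity), sq]
    exact mul_le_mul_of_nonneg_right (kb_le hb z) (kb_nonneg hb z)

lemma kb_sq_int (hb : 0 < b) : ∫ z, kb b z ^ 2 = 2 / (3 * b) := by
  have h1 : ∫ z, kb b z ^ 2 = ∫ y in (-b)..b, kb b y ^ 2 := by
    have := kb_int_full hb (kb b)
    simp only [← sq] at this
    exact this
  rw [h1, even_int (f := fun y => kb b y ^ 2) (kb_cont.pow 2) (fun y => by simp only [kb_even]),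
    kb_sq_half hb]
  ring

lemma be_sq_int (hb : 0 < b) : |(∫ z, be b z ^ 2) - 2 / (3 * b)| ≤ 2 / b ^ 2 := by
  rw [← kb_sq_int hb, ← integral_sub (be_sq_integrable hb) (kb_sq_integrable hb),
    ← Real.norm_eq_abs]
  calc ‖∫ z, (be b z ^ 2 - kb b z ^ 2)‖ ≤ ∫ z, 1 / b ^ 2 * (be b z + kb b z) := by
        refine norm_integral_le_of_norm_le (((be_integrable hb).add (kb_integrable hb)).const_mul _)
          (Eventually.of_forall fun z => ?_)
        have h1 : be b z ^ 2 - kb b z ^ 2 = (be b z - kb b z) * (be b z + kb b z) := by ring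
        have h2 : 0 ≤ be b z + kb b z := add_nonneg (be_nonneg hb z) (kb_nonneg hb z)
        rw [h1, norm_mul, Real.norm_eq_abs, Real.norm_of_nonneg h2]
        exact mul_le_mul_of_nonneg_right (be_close hb z) h2
    _ = 2 / b ^ 2 := by
        rw [integral_const_mul, integral_add (be_integrable hb) (kb_integrable hb), be_int hb,
          kb_int_full1 hb]
        ring

end Pool.Agent.TH800.MS
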