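import Pool.Agent.TH800.MS.Sd
import Pool.Agent.H345R2.A3.Pairs

/-! Pair sums. -/

open Complex Filter Topology Set MeasureTheory
open scoped ComplexConjugate

namespace Pool.Agent.TH800.MS

open SP
open H370 (Zf good_zeta)

/-- local pair sum with kernel `r` -/
noncomputable def PS (T b t : ℝ) (r : ℝ → ℝ) : ℝ :=
  ∑ s ∈ Zf riemannZeta T (2 * T), ∑ s' ∈ Zf riemannZeta T (2 * T),
    (mu s : ℝ) * (mu s' : ℝ) * Om b (s.im - t) * Om b (s'.im - t) * r (s.im - s'.im)

lemma SS_sq (T b t u : ℝ) : ‖SS T b t u‖ ^ 2 = PS T b t (fun d => Real.cos (u * d)) := by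
  have h1 : ((‖SS T b t u‖ ^ 2 : ℝ) : ℂ) =
      ∑ s ∈ Zf riemannZeta T (2 * T), ∑ s' ∈ Zf riemannZeta T (2 * T),
        (((mu s : ℝ) * (mu s' : ℝ) * Om b (s.im - t) * Om b (s'.im - t) : ℝ) : ℂ) *
          cexp (((u * (s.im - s'.im) : ℝ) : ℂ) * I) := by
    rw [ofReal_pow, ← Complex.mul_conj']
    unfold SS
    rw [map_sum, Finset.sum_mul_sum]
    refine Finset.sum_congr rfl fun s _ => Finset.sum_congr rfl fun s' _ => ?_
    rw [map_mul, map_mul, conj_ofReal, ← Complex.exp_conj, map_mul, conj_I, conj_ofReal,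
      Complex.conj_natCast]
    have : cexp (((u * (s.im - s'.im) : ℝ) : ℂ) * I) =
        cexp (I * ((u * (s.im - t) : ℝ) : ℂ)) * cexp (-I * ((u * (s'.im - t) : ℝ) : ℂ)) := by
      rw [← Complex.exp_add]
      congr 1
      push_cast
      ring
    rw [this]
    push_cast
    ring
  have h2 := congrArg Complex.re h1
  rw [ofReal_re] at h2
  rw [h2, Complex.re_sum]
  unfold PS
  refine Finset.sum_congr rfl fun s _ => ?_
  rw [Complex.re_sum]
  refine Finset.sum_congr rfl fun s' _ => ?_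
  rw [Complex.re_ofReal_mul, Complex.exp_ofReal_mul_I_re]

lemma PS_int {ω : ℝ → ℝ} (hω : Continuous ω) (T b t X : ℝ) :
    ∫ u in (0 : ℝ)..X, ω u * ‖SS T b t u‖ ^ 2 =
      PS T b t (fun d => ∫ u in (0 : ℝ)..X, ω u * Real.cos (u * d)) := by
  simp_rw [SS_sq]
  unfold PS
  have hc : ∀ d : ℝ, Continuous fun u : ℝ => ω u * Real.cos (u * d) := fun d =>
    hω.mul (by fun_prop)
  have e : ∀ u : ℝ, ω u * ∑ s ∈ Zf riemannZeta T (2 * T), ∑ s' ∈ Zf riemannZeta T (2 * T),
      (mu s : ℝ) * (mu s' : ℝ) * Om b (s.im - t) * Om b (s'.im - t) *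
        Real.cos (u * (s.im - s'.im)) =
      ∑ s ∈ Zf riemannZeta T (2 * T), ∑ s' ∈ Zf riemannZeta T (2 * T),
      (mu s : ℝ) * (mu s' : ℝ) * Om b (s.im - t) * Om b (s'.im - t) *
        (ω u * Real.cos (u * (s.im - s'.im))) := by
    intro u
    rw [Finset.mul_sum]
    refine Finset.sum_congr rfl fun s _ => ?_
    rw [Finset.mul_sum]
    refine Finset.sum_congr rfl fun s' _ => ?_
    ring
  simp_rw [e]
  have hcc : ∀ s s' : ℂ, Continuous fun u : ℝ => (mu s : ℝ) * (mu s' : ℝ) * Om b (s.im - t) *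
      Om b (s'.im - t) * (ω u * Real.cos (u * (s.im - s'.im))) := fun s s' =>
    continuous_const.mul (hc _)
  have hi1 : ∀ s ∈ Zf riemannZeta T (2 * T), IntervalIntegrable (fun u : ℝ =>
      ∑ s' ∈ Zf riemannZeta T (2 * T), (mu s : ℝ) * (mu s' : ℝ) * Om b (s.im - t) *
      Om b (s'.im - t) * (ω u * Real.cos (u * (s.im - s'.im)))) volume 0 X := fun s _ =>
    (continuous_finsetSum _ fun s' _ => hcc s s').intervalIntegrable _ _
  rw [intervalIntegral.integral_finsetSum hi1]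
  refine Finset.sum_congr rfl fun s _ => ?_
  rw [intervalIntegral.integral_finsetSum fun s' _ => (hcc s s').intervalIntegrable _ _]
  refine Finset.sum_congr rfl fun s' _ => ?_
  rw [intervalIntegral.integral_const_mul]

/-- the diagonal sum -/
noncomputable def Wd (T b t : ℝ) : ℝ :=
  ∑ s ∈ Zf riemannZeta T (2 * T), (mu s : ℝ) * Om b (s.im - t) *
    Real.sinc (b * (s.im - t) / 2) ^ 2

lemma Wd_eq {b : ℝ} (hb : 0 < b) (T t : ℝ) :
    ∫ y in (-b)..b, (kb b y : ℂ) * SS T b t y = (Wd T b t : ℂ) := by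
  unfold SS Wd
  simp_rw [Finset.mul_sum]
  rw [intervalIntegral.integral_finsetSum]
  · rw [ofReal_sum]
    refine Finset.sum_congr rfl fun s _ => ?_
    have h1 : ∀ y : ℝ, (kb b y : ℂ) * ((mu s : ℂ) * (Om b (s.im - t) : ℂ) *
        cexp (I * ((y * (s.im - t) : ℝ) : ℂ))) =
        ((mu s : ℂ) * (Om b (s.im - t) : ℂ)) *
        ((kb b y : ℂ) * cexp (I * ((y * (s.im - t) : ℝ) : ℂ))) := by
      intro y
      ring
    simp_rw [h1]
    rw [intervalIntegral.integral_const_mul, kb_exp hb]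
    push_cast
    ring
  · intro s _
    exact ((kbc_cont b).mul (by fun_prop)).intervalIntegrable _ _

/-- isolation of the zeros near `t` -/
def Iso (T t r ρ : ℝ) : Prop :=
  ∀ s ∈ Zf riemannZeta T (2 * T), |s.im - t| ≤ r → mu s = 1 ∧
    ∀ s' ∈ Zf riemannZeta T (2 * T), s' ≠ s → ρ < |s.im - s'.im|

/-- number of zeros close to `s` -/
noncomputable def kn (T ρ : ℝ) (s : ℂ) : ℝ :=
  ∑ s' ∈ Zf riemannZeta T (2 * T), (mu s' : ℝ) * if |s.im - s'.im| ≤ ρ then 1 else 0

lemma kn_nonneg (T ρ : ℝ) (s : ℂ) : 0 ≤ kn T ρ s := by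
  unfold kn
  refine Finset.sum_nonneg fun s' _ => ?_
  split_ifs <;> positivity

/-- contribution of the zeros far from `t` -/
noncomputable def Tl (T b t r ρ : ℝ) : ℝ :=
  ∑ s ∈ Zf riemannZeta T (2 * T), (mu s : ℝ) * kn T ρ s *
    (if r < |s.im - t| then Om b (s.im - t) ^ 2 else 0)

/-- upper bound for the pair sum at isolated zeros -/
theorem PS_upper {T b t r ρ : ℝ} {h : ℝ → ℝ} (hiso : Iso T t r ρ)
    (h1 : ∀ d, h d ≤ 1) (h2 : ∀ d, ρ < |d| → h d ≤ 0) :
    PS T b t h ≤ Wd T b t + Tl T b t r ρ := by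
  classical
  set Z := Zf riemannZeta T (2 * T) with hZ
  set c : ℂ → ℂ → ℝ := fun s s' => if |s.im - s'.im| ≤ ρ then 1 else 0 with hc
  have hc0 : ∀ s s', 0 ≤ c s s' := fun s s' => by simp only [hc]; split_ifs <;> norm_num
  have hcs : ∀ s s', c s s' = c s' s := fun s s' => by simp only [hc]; rw [abs_sub_comm]
  set f : ℂ → ℝ := fun s => if r < |s.im - t| then 1 else 0 with hf
  -- pointwise bound
  have hpt : ∀ s ∈ Z, ∀ s' ∈ Z,
      (mu s : ℝ) * (mu s' : ℝ) * Om b (s.im - t) * Om b (s'.im - t) * h (s.im - s'.im) ≤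
      (if s = s' then (mu s : ℝ) * Om b (s.im - t) ^ 2 * (if r < |s.im - t| then 0 else 1)
        else 0) +
      ((mu s : ℝ) * (mu s' : ℝ) * c s s' * (f s * Om b (s.im - t) ^ 2) +
      (mu s : ℝ) * (mu s' : ℝ) * c s s' * (f s' * Om b (s'.im - t) ^ 2)) / 2 := by
    intro s hs s' hs'
    have hO := Om_nonneg b (s.im - t)
    have hO' := Om_nonneg b (s'.im - t)
    have hm : (0 : ℝ) ≤ mu s := Nat.cast_nonneg _
    have hm' : (0 : ℝ) ≤ mu s' := Nat.cast_nonneg _
    have hfs : 0 ≤ f s := by simp only [hf]; split_ifs <;> norm_num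
    have hfs' : 0 ≤ f s' := by simp only [hf]; split_ifs <;> norm_num
    have hcc := hc0 s s'
    have hR : 0 ≤ ((mu s : ℝ) * (mu s' : ℝ) * c s s' * (f s * Om b (s.im - t) ^ 2) +
      (mu s : ℝ) * (mu s' : ℝ) * c s s' * (f s' * Om b (s'.im - t) ^ 2)) / 2 := by positivity
    have hD : 0 ≤ (if s = s' then (mu s : ℝ) * Om b (s.im - t) ^ 2 *
        (if r < |s.im - t| then 0 else 1) else 0) := by
      split_ifs <;> positivity
    by_cases hd : |s.im - s'.im| ≤ ρ
    · have hc1 : c s s' = 1 := by simp only [hc]; rw [if_pos hd]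
      by_cases n1 : |s.im - t| ≤ r
      · obtain ⟨hmu, hsep⟩ := hiso s hs n1
        have hss : s' = s := by
          by_contra hne
          have := hsep s' hs' hne
          linarith
        subst hss
        rw [if_pos rfl, if_neg (not_lt.2 n1), hmu]
        have : h (s'.im - s'.im) ≤ 1 := h1 _
        have h5 : ((1 : ℕ) : ℝ) * ((1 : ℕ) : ℝ) * Om b (s'.im - t) * Om b (s'.im - t) *
            h (s'.im - s'.im) ≤ Om b (s'.im - t) ^ 2 := by
          push_cast
          have h6 : 1 * 1 * Om b (s'.im - t) * Om b (s'.im - t) * h (s'.im - s'.im) =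
            Om b (s'.im - t) ^ 2 * h (s'.im - s'.im) := by ring
          rw [h6]
          exact mul_le_of_le_one_right (sq_nonneg _) this
        rw [hmu] at hR
        push_cast at h5 hR ⊢
        linarith
      · by_cases n2 : |s'.im - t| ≤ r
        · obtain ⟨hmu, hsep⟩ := hiso s' hs' n2
          have hss : s = s' := by
            by_contra hne
            have := hsep s hs hne
            rw [abs_sub_comm] at this
            linarith
          subst hss
          exact absurd n2 n1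
        · have f1 : f s = 1 := by simp only [hf]; rw [if_pos (not_le.1 n1)]
          have f2 : f s' = 1 := by simp only [hf]; rw [if_pos (not_le.1 n2)]
          have h5 : h (s.im - s'.im) ≤ 1 := h1 _
          have h6 : (mu s : ℝ) * (mu s' : ℝ) * Om b (s.im - t) * Om b (s'.im - t) *
              h (s.im - s'.im) ≤ (mu s : ℝ) * (mu s' : ℝ) * (Om b (s.im - t) *
                Om b (s'.im - t)) := by
            have : 0 ≤ (mu s : ℝ) * (mu s' : ℝ) * Om b (s.im - t) * Om b (s'.im - t) := by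
              positivity
            calc _ ≤ (mu s : ℝ) * (mu s' : ℝ) * Om b (s.im - t) * Om b (s'.im - t) * 1 := by
                  gcongr
              _ = _ := by ring
          have h7 : Om b (s.im - t) * Om b (s'.im - t) ≤
              (Om b (s.im - t) ^ 2 + Om b (s'.im - t) ^ 2) / 2 := by
            nlinarith [sq_nonneg (Om b (s.im - t) - Om b (s'.im - t))]
          have h8 : (mu s : ℝ) * (mu s' : ℝ) * (Om b (s.im - t) * Om b (s'.im - t)) ≤
              (mu s : ℝ) * (mu s' : ℝ) * ((Om b (s.im - t) ^ 2 + Om b (s'.im - t) ^ 2) / 2) := by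
            gcongr
          rw [hc1, f1, f2]
          rw [hc1, f1, f2] at hR
          linarith
    · have h5 : h (s.im - s'.im) ≤ 0 := h2 _ (not_le.1 hd)
      have h6 : (mu s : ℝ) * (mu s' : ℝ) * Om b (s.im - t) * Om b (s'.im - t) *
          h (s.im - s'.im) ≤ 0 :=
        mul_nonpos_of_nonneg_of_nonpos (by positivity) h5
      linarith
  have hsum1 : ∑ s ∈ Z, ∑ s' ∈ Z, (if s = s' then (mu s : ℝ) * Om b (s.im - t) ^ 2 *
      (if r < |s.im - t| then 0 else 1) else 0) ≤ Wd T b t := by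
    unfold Wd
    refine Finset.sum_le_sum fun s hs => ?_
    rw [Finset.sum_ite_eq, if_pos hs]
    have hO := Om_nonneg b (s.im - t)
    have hm : (0 : ℝ) ≤ mu s := Nat.cast_nonneg _
    have h3 : Om b (s.im - t) ≤ Real.sinc (b * (s.im - t) / 2) ^ 2 := by
      unfold Om
      have : Real.exp (-(s.im - t) ^ 2 / 2) ≤ 1 := by
        rw [Real.exp_le_one_iff]
        have := sq_nonneg (s.im - t)
        linarith
      exact mul_le_of_le_one_left (sq_nonneg _) this
    calc _ ≤ (mu s : ℝ) * Om b (s.im - t) ^ 2 * 1 := by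
          gcongr
          split_ifs <;> norm_num
      _ = (mu s : ℝ) * Om b (s.im - t) * Om b (s.im - t) := by ring
      _ ≤ _ := by gcongr
  have hsum2 : ∑ s ∈ Z, ∑ s' ∈ Z, (mu s : ℝ) * (mu s' : ℝ) * c s s' *
      (f s * Om b (s.im - t) ^ 2) = Tl T b t r ρ := by
    unfold Tl
    refine Finset.sum_congr rfl fun s _ => ?_
    unfold kn
    rw [Finset.mul_sum, Finset.sum_mul]
    refine Finset.sum_congr rfl fun s' _ => ?_
    simp only [hc, hf]
    split_ifs <;> ring
  have hsum3 : ∑ s ∈ Z, ∑ s' ∈ Z, (mu s : ℝ) * (mu s' : ℝ) * c s s' *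
      (f s' * Om b (s'.im - t) ^ 2) = Tl T b t r ρ := by
    rw [Finset.sum_comm, ← hsum2]
    refine Finset.sum_congr rfl fun s _ => Finset.sum_congr rfl fun s' _ => ?_
    rw [hcs s' s]
    ring
  unfold PS
  calc _ ≤ ∑ s ∈ Z, ∑ s' ∈ Z, ((if s = s' then (mu s : ℝ) * Om b (s.im - t) ^ 2 *
        (if r < |s.im - t| then 0 else 1) else 0) +
      ((mu s : ℝ) * (mu s' : ℝ) * c s s' * (f s * Om b (s.im - t) ^ 2) +
      (mu s : ℝ) * (mu s' : ℝ) * c s s' * (f s' * Om b (s'.im - t) ^ 2)) / 2) :=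
        Finset.sum_le_sum fun s hs => Finset.sum_le_sum fun s' hs' => hpt s hs s' hs'
    _ = ∑ s ∈ Z, ∑ s' ∈ Z, (if s = s' then (mu s : ℝ) * Om b (s.im - t) ^ 2 *
      (if r < |s.im - t| then 0 else 1) else 0) + (∑ s ∈ Z, ∑ s' ∈ Z,
        (mu s : ℝ) * (mu s' : ℝ) * c s s' * (f s * Om b (s.im - t) ^ 2) +
        ∑ s ∈ Z, ∑ s' ∈ Z, (mu s : ℝ) * (mu s' : ℝ) * c s s' *
          (f s' * Om b (s'.im - t) ^ 2)) / 2 := by
        simp_rw [Finset.sum_add_distrib, ← Finset.sum_div, Finset.sum_add_distrib]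
    _ ≤ Wd T b t + (Tl T b t r ρ + Tl T b t r ρ) / 2 := by
        rw [hsum2, hsum3]
        linarith
    _ = _ := by ring

end Pool.Agent.TH800.MS
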