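import Pool.Agent.TH800.MS.Lln
import Pool.Agent.TH800.MS.Pq

/-! The law of large numbers for local pair sums. -/

open Complex Filter Topology Set MeasureTheory
open scoped ComplexConjugate

namespace Pool.Agent.TH800.MS

open SP
open H370 (Zf good_zeta)

/-- kernel whose Fourier transform is `ψ |α|` on `[-lam, lam]` and `0` elsewhere -/
noncomputable def kerψ (ψ : ℝ → ℝ) (lam x : ℝ) : ℝ :=
  2 * ∫ α in (0 : ℝ)..lam, ψ α * Real.cos (2 * Real.pi * α * x)

lemma PS_mul (T b t c : ℝ) (h : ℝ → ℝ) : PS T b t (fun d => c * h d) = c * PS T b t h := by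
  unfold PS
  rw [Finset.mul_sum]
  refine Finset.sum_congr rfl fun s _ => ?_
  rw [Finset.mul_sum]
  refine Finset.sum_congr rfl fun s' _ => ?_
  ring

lemma PS_ker {ψ : ℝ → ℝ} (hψ : Continuous ψ) {L : ℝ} (hL : 0 < L) (T b t lam : ℝ) :
    PS T b t (fun d => kerψ ψ lam (d * L / (2 * Real.pi))) =
      2 / L * ∫ u in (0 : ℝ)..(lam * L), ψ (u / L) * ‖SS T b t u‖ ^ 2 := by
  rw [PS_int (ω := fun u => ψ (u / L)) (hψ.comp (by fun_prop)), ← PS_mul]
  congr 1
  funext d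
  unfold kerψ
  have h1 := intervalIntegral.integral_comp_div (a := 0) (b := lam * L)
    (fun α => ψ α * Real.cos (2 * Real.pi * α * (d * L / (2 * Real.pi)))) hL.ne'
  have h5 : lam * L / L = lam := by field_simp
  rw [zero_div, h5, smul_eq_mul] at h1
  have h2 : ∫ u in (0 : ℝ)..(lam * L), ψ (u / L) *
      Real.cos (2 * Real.pi * (u / L) * (d * L / (2 * Real.pi))) =
      ∫ u in (0 : ℝ)..(lam * L), ψ (u / L) * Real.cos (u * d) := by
    refine intervalIntegral.integral_congr fun u _ => ?_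
    have hpi := Real.pi_pos
    have : 2 * Real.pi * (u / L) * (d * L / (2 * Real.pi)) = u * d := by field_simp
    simp only [this]
  rw [h2] at h1
  rw [h1, ← mul_assoc, div_mul_cancel₀ _ hL.ne']

theorem lln_pairs (hRH : RHs) (lam : ℝ) (h0 : 0 < lam) (h1 : lam < 1 / 2) :
    ∃ C M0 T0 : ℝ, 0 < C ∧ 1 ≤ M0 ∧ 10 ≤ T0 ∧ ∀ T : ℝ, T0 ≤ T → ∀ M : ℝ, M0 ≤ M →
      M ≤ Real.log T → ∀ (ψ ψ' : ℝ → ℝ) (B : ℝ), (∀ α, HasDerivAt ψ (ψ' α) α) → Continuous ψ' →
      (∀ α, 0 ≤ α → α ≤ lam → |ψ α| ≤ B ∧ |ψ' α| ≤ B) →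
      ∫ t in (T + Real.log T)..(2 * T - Real.log T),
        (PS T (Real.log T / M) t (fun d => kerψ ψ lam (d * Real.log T / (2 * Real.pi))) -
          2 * M / 3 * (ψ 0 + 2 * ∫ α in (0 : ℝ)..lam, α * ψ α)) ^ 2 ≤
        C * B ^ 2 * (M + M ^ 4 / Real.log T ^ 2) * T := by
  set κ := (1 / 2 - lam) / 3 with hκ
  have hκ0 : 0 < κ := by rw [hκ]; linarith
  obtain ⟨C, K, T0, hC, hK, hT0, h⟩ := lln hRH lam (lam + κ) (lam + 2 * κ) h0 (by linarith)
    (by linarith) (by rw [hκ]; linarith)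
  obtain ⟨K2, T1, hK2, hT1, h2⟩ := YY_var (lam + 2 * κ) C (by positivity)
    (by rw [hκ]; linarith) hC.le
  refine ⟨16 * K ^ 2 + 8 * K2, max 1 (max (1 / lam) (1 / κ)), max T0 T1, by positivity,
    le_max_left _ _, hT0.trans (le_max_left _ _), fun T hT M hM hML ψ ψ' B hψ hψ' hB => ?_⟩
  have hM1 : 1 ≤ M := (le_max_left _ _).trans hM
  have hM2 : 1 / lam ≤ M := ((le_max_left _ _).trans (le_max_right _ _)).trans hM
  have hM3 : 1 / κ ≤ M := ((le_max_right _ _).trans (le_max_right _ _)).trans hM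
  have hT10 : 10 ≤ T := (hT0.trans (le_max_left _ _)).trans hT
  have hTpos : 0 < T := by linarith
  have hL0 : 0 < Real.log T := Real.log_pos (by linarith)
  have hlogT : Real.log T ≤ T / 2 := by
    have h3 := Real.log_le_sub_one_of_pos (show 0 < T / 4 by positivity)
    rw [Real.log_div hTpos.ne' (by norm_num)] at h3
    have h4 : Real.log 4 ≤ 2 := by
      have : Real.log 4 = 2 * Real.log 2 := by
        rw [show (4 : ℝ) = 2 ^ 2 by norm_num, Real.log_pow]; norm_num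
      have := Real.log_two_lt_d9
      linarith
    linarith
  set L := Real.log T with hL
  have hM0 : 0 < M := by linarith
  set b := L / M with hb
  have hb0 : 0 < b := by positivity
  have hb1 : 1 ≤ b := by rw [hb, le_div_iff₀ hM0]; linarith
  have hbl : b ≤ lam * L := by
    rw [hb, div_le_iff₀ hM0]
    rw [div_le_iff₀ h0] at hM2
    nlinarith
  have hbk : b ≤ (lam + κ - lam) * L := by
    rw [hb, div_le_iff₀ hM0, add_sub_cancel_left]
    rw [div_le_iff₀ hκ0] at hM3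
    nlinarith
  have hLb : L / b = M := by rw [hb]; field_simp
  have hψc : Continuous ψ := continuous_iff_continuousAt.2 fun x => (hψ x).continuousAt
  have hB0 : 0 ≤ B := (abs_nonneg _).trans (hB 0 le_rfl h0.le).1
  set N := ⌊T ^ (lam + 2 * κ)⌋₊ with hN
  set X := lam * L with hX
  have hXL : X ≤ L := by nlinarith
  set c := ψ 0 + 2 * ∫ α in (0 : ℝ)..lam, α * ψ α with hc
  set D := M + M ^ 4 / L ^ 2 with hD
  have hD0 : 0 ≤ D := by positivity
  have hPS : ∀ t, PS T b t (fun d => kerψ ψ lam (d * L / (2 * Real.pi))) =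
      2 / L * ∫ u in (0 : ℝ)..X, ψ (u / L) * ‖SS T b t u‖ ^ 2 := fun t =>
    PS_ker hψc hL0 T b t lam
  have hpt : ∀ t, T + L ≤ t → t ≤ 2 * T - L →
      (PS T b t (fun d => kerψ ψ lam (d * L / (2 * Real.pi))) - 2 * M / 3 * c) ^ 2 ≤
      16 * K ^ 2 * B ^ 2 * D + 8 * B ^ 2 / L ^ 2 * YY L C N b X t ^ 2 := by
    intro t ht1 ht2
    have h3 := h T ((le_max_left _ _).trans hT) b hb1 hbl hbk t ht1 ht2 ψ ψ' B hψ hψ' hB
    rw [hPS]
    have e1 : 2 / L * (∫ u in (0 : ℝ)..X, ψ (u / L) * ‖SS T b t u‖ ^ 2) - 2 * M / 3 * c =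
        2 / L * ((∫ u in (0 : ℝ)..X, ψ (u / L) * ‖SS T b t u‖ ^ 2) - L ^ 2 / (3 * b) * c) := by
      rw [← hLb]
      field_simp
    rw [e1, mul_pow]
    have e2 : ((∫ u in (0 : ℝ)..X, ψ (u / L) * ‖SS T b t u‖ ^ 2) - L ^ 2 / (3 * b) * c) ^ 2 ≤
        (B * (K * (L + L ^ 2 / b ^ 2) + YY L C N b X t)) ^ 2 := by
      rw [← sq_abs]
      gcongr
    have e3 : (K * (L + L ^ 2 / b ^ 2) + YY L C N b X t) ^ 2 ≤
        2 * (K * (L + L ^ 2 / b ^ 2)) ^ 2 + 2 * YY L C N b X t ^ 2 := by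
      linarith [sq_nonneg (K * (L + L ^ 2 / b ^ 2) - YY L C N b X t)]
    have e4 : (L + L ^ 2 / b ^ 2) ^ 2 ≤ 2 * L ^ 2 * D := by
      have e5 : L ^ 2 / b ^ 2 = M ^ 2 := by rw [← div_pow, hLb]
      rw [e5, hD]
      have e6 : 2 * L ^ 2 * (M + M ^ 4 / L ^ 2) = 2 * (L ^ 2 * M + M ^ 4) := by
        field_simp
      rw [e6]
      have e7 : L ^ 2 ≤ L ^ 2 * M := le_mul_of_one_le_right (by positivity) hM1
      nlinarith [sq_nonneg (L - M ^ 2)]
    calc (2 / L) ^ 2 * ((∫ u in (0 : ℝ)..X, ψ (u / L) * ‖SS T b t u‖ ^ 2) -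
          L ^ 2 / (3 * b) * c) ^ 2 ≤
        (2 / L) ^ 2 * (B * (K * (L + L ^ 2 / b ^ 2) + YY L C N b X t)) ^ 2 := by gcongr
      _ = 4 * B ^ 2 / L ^ 2 * (K * (L + L ^ 2 / b ^ 2) + YY L C N b X t) ^ 2 := by
          field_simp
          ring
      _ ≤ 4 * B ^ 2 / L ^ 2 * (2 * (K * (L + L ^ 2 / b ^ 2)) ^ 2 + 2 * YY L C N b X t ^ 2) := by
          gcongr
      _ = 8 * B ^ 2 * K ^ 2 / L ^ 2 * (L + L ^ 2 / b ^ 2) ^ 2 +
          8 * B ^ 2 / L ^ 2 * YY L C N b X t ^ 2 := by ring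
      _ ≤ 8 * B ^ 2 * K ^ 2 / L ^ 2 * (2 * L ^ 2 * D) +
          8 * B ^ 2 / L ^ 2 * YY L C N b X t ^ 2 := by gcongr
      _ = _ := by field_simp; ring
  have hcontP : Continuous fun t =>
      (PS T b t (fun d => kerψ ψ lam (d * L / (2 * Real.pi))) - 2 * M / 3 * c) ^ 2 := by
    refine (Continuous.sub ?_ continuous_const).pow 2
    unfold PS
    refine continuous_finsetSum _ fun s _ => continuous_finsetSum _ fun s' _ => ?_
    exact ((continuous_const.mul ((Om_cont b).comp (by fun_prop))).mul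
      ((Om_cont b).comp (by fun_prop))).mul continuous_const
  have hYc := YY_cont L C N b X
  have hYv := h2 T ((le_max_right _ _).trans hT) b X hb1 hbl hXL
  have hle : T + L ≤ 2 * T - L := by linarith
  have i1 : ∀ c d : ℝ, IntervalIntegrable (fun _ : ℝ => 16 * K ^ 2 * B ^ 2 * D) volume c d :=
    fun c d => continuous_const.intervalIntegrable _ _
  have i2 : ∀ c d : ℝ, IntervalIntegrable (fun t => 8 * B ^ 2 / L ^ 2 * YY L C N b X t ^ 2)
      volume c d := fun c d => (continuous_const.mul (hYc.pow 2)).intervalIntegrable _ _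
  calc _ ≤ ∫ t in (T + L)..(2 * T - L), (16 * K ^ 2 * B ^ 2 * D +
        8 * B ^ 2 / L ^ 2 * YY L C N b X t ^ 2) := by
        exact intervalIntegral.integral_mono_on hle (hcontP.intervalIntegrable _ _)
          ((i1 _ _).add (i2 _ _)) fun t ht => hpt t ht.1 ht.2
    _ ≤ ∫ t in T..(2 * T), (16 * K ^ 2 * B ^ 2 * D +
        8 * B ^ 2 / L ^ 2 * YY L C N b X t ^ 2) := by
        refine intervalIntegral.integral_mono_interval (by linarith) hle (by linarith) ?_
          ((i1 _ _).add (i2 _ _))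
        exact Filter.Eventually.of_forall fun t => by
          show (0 : ℝ) ≤ _
          positivity
    _ = T * (16 * K ^ 2 * B ^ 2 * D) +
        8 * B ^ 2 / L ^ 2 * ∫ t in T..(2 * T), YY L C N b X t ^ 2 := by
        rw [intervalIntegral.integral_add (i1 _ _) (i2 _ _)]
        simp only [intervalIntegral.integral_const_mul, intervalIntegral.integral_const,
          smul_eq_mul]
        ring
    _ ≤ T * (16 * K ^ 2 * B ^ 2 * D) + 8 * B ^ 2 / L ^ 2 * (K2 * (T * (L ^ 3 / b))) := by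
        gcongr
    _ = T * (16 * K ^ 2 * B ^ 2 * D) + 8 * B ^ 2 * K2 * T * (L / b) := by
        field_simp
    _ = T * (16 * K ^ 2 * B ^ 2 * D) + 8 * B ^ 2 * K2 * T * M := by rw [hLb]
    _ ≤ T * (16 * K ^ 2 * B ^ 2 * D) + 8 * B ^ 2 * K2 * T * D := by
        have : M ≤ D := by rw [hD]; linarith [show 0 ≤ M ^ 4 / L ^ 2 by positivity]
        gcongr
    _ = _ := by ring

end Pool.Agent.TH800.MS
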