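import Pool.Agent.TH800.MS.Kb
import Pool.Agent.H385R2.NTW2
import Pool.Agent.W542.TCLsq

/-! Prime sums. -/

open Complex Filter Topology Set MeasureTheory
open ArithmeticFunction (vonMangoldt vonMangoldt_nonneg vonMangoldt_apply_prime vonMangoldt_le_log)

namespace Pool.Agent.TH800.MS

/-- the primes up to `N` -/
def PX (N : ℕ) : Finset ℕ := (Finset.Icc 1 N).filter Nat.Prime

/-- `log p / √p` -/
noncomputable def aa (p : ℕ) : ℝ := Real.log p / Real.sqrt p

lemma aa_nonneg (p : ℕ) : 0 ≤ aa p := div_nonneg (Real.log_natCast_nonneg p) (Real.sqrt_nonneg _)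

lemma aa_sq (p : ℕ) : aa p ^ 2 = Real.log p ^ 2 / p := by
  unfold aa
  rw [div_pow, Real.sq_sqrt (Nat.cast_nonneg p)]

lemma mem_PX {N p : ℕ} : p ∈ PX N ↔ p.Prime ∧ p ≤ N := by
  unfold PX
  rw [Finset.mem_filter, Finset.mem_Icc]
  constructor
  · rintro ⟨⟨h1, h2⟩, h3⟩
    exact ⟨h3, h2⟩
  · rintro ⟨h1, h2⟩
    exact ⟨⟨h1.one_lt.le, h2⟩, h1⟩

/-- local Mertens bound with a Gaussian -/
theorem sum_gau : ∃ C : ℝ, 0 < C ∧ ∀ (N : ℕ) (u : ℝ),
    ∑ p ∈ PX N, Real.log p / p * gau0 (u - Real.log p) ≤ C := by
  obtain ⟨C, hC, h⟩ := H385.lam_one_gen (1 / 2) (by norm_num)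
  refine ⟨C, hC, fun N u => ?_⟩
  obtain ⟨h1, h2⟩ := h u
  have hnn : ∀ n : ℕ, 0 ≤ vonMangoldt n / n * Real.exp (-(1 / 2) * (u - Real.log n) ^ 2) :=
    fun n => mul_nonneg (div_nonneg vonMangoldt_nonneg (Nat.cast_nonneg n)) (Real.exp_pos _).le
  calc ∑ p ∈ PX N, Real.log p / p * gau0 (u - Real.log p) ≤
      ∑ p ∈ PX N, vonMangoldt p / p * Real.exp (-(1 / 2) * (u - Real.log p) ^ 2) := by
        refine Finset.sum_le_sum fun p hp => ?_
        have hpp := (mem_PX.1 hp).1
        rw [vonMangoldt_apply_prime hpp]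
        have h3 : 0 ≤ Real.log p / p :=
          div_nonneg (Real.log_natCast_nonneg p) (Nat.cast_nonneg p)
        apply mul_le_mul_of_nonneg_left _ h3
        unfold gau0
        have e : -(1 / 2) * (u - Real.log p) ^ 2 = -(u - Real.log p) ^ 2 / 2 := by ring
        rw [e]
        have h4 := SP.pp_inv_sqrt_le
        have h5 := Real.exp_pos (-(u - Real.log p) ^ 2 / 2)
        calc _ ≤ 1 * Real.exp (-(u - Real.log p) ^ 2 / 2) := by gcongr
          _ = _ := one_mul _
    _ ≤ ∑' n : ℕ, vonMangoldt n / n * Real.exp (-(1 / 2) * (u - Real.log n) ^ 2) :=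
        h1.sum_le_tsum _ fun n _ => hnn n
    _ ≤ C := h2

/-- local Mertens bound with the kernel -/
theorem sum_be : ∃ C : ℝ, 0 < C ∧ ∀ (N : ℕ) (b u : ℝ), 0 < b →
    ∑ p ∈ PX N, Real.log p / p * be b (Real.log p - u) ≤ C := by
  obtain ⟨C, hC, h⟩ := sum_gau
  refine ⟨C, hC, fun N b u hb => ?_⟩
  have h1 : ∀ p : ℕ, Real.log p / p * be b (Real.log p - u) =
      ∫ y, Real.log p / p * (kb b y * gau0 (y - (Real.log p - u))) := fun p => by
    rw [integral_const_mul, ← be_eq hb]
  simp_rw [h1]
  rw [← integral_finsetSum _ fun p _ => (be_integrand hb _).const_mul _]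
  calc ∫ y, ∑ p ∈ PX N, Real.log p / p * (kb b y * gau0 (y - (Real.log p - u))) ≤
      ∫ y, kb b y * C := by
        apply integral_mono_of_nonneg
        · exact Eventually.of_forall fun y => Finset.sum_nonneg fun p _ =>
            mul_nonneg (div_nonneg (Real.log_natCast_nonneg p) (Nat.cast_nonneg p))
              (mul_nonneg (kb_nonneg hb _) (gau0_pos _).le)
        · exact (kb_integrable hb).mul_const _
        · refine Eventually.of_forall fun y => ?_
          simp only
          have h2 := h N (y + u)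
          calc ∑ p ∈ PX N, Real.log p / p * (kb b y * gau0 (y - (Real.log p - u))) =
              kb b y * ∑ p ∈ PX N, Real.log p / p * gau0 (y + u - Real.log p) := by
                rw [Finset.mul_sum]
                refine Finset.sum_congr rfl fun p _ => ?_
                have : y - (Real.log p - u) = y + u - Real.log p := by ring
                rw [this]
                ring
            _ ≤ kb b y * C := mul_le_mul_of_nonneg_left h2 (kb_nonneg hb y)
    _ = C := by rw [integral_mul_const, kb_int_full1 hb, one_mul]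

/-- the same with `log² p / p` -/
theorem sum_aa_be : ∃ C : ℝ, 0 < C ∧ ∀ (N : ℕ) (b u : ℝ), 0 < b → 1 ≤ N →
    ∑ p ∈ PX N, aa p ^ 2 * be b (Real.log p - u) ≤ C * Real.log N := by
  obtain ⟨C, hC, h⟩ := sum_be
  refine ⟨C, hC, fun N b u hb hN => ?_⟩
  calc ∑ p ∈ PX N, aa p ^ 2 * be b (Real.log p - u) ≤
      ∑ p ∈ PX N, Real.log N * (Real.log p / p * be b (Real.log p - u)) := by
        refine Finset.sum_le_sum fun p hp => ?_
        obtain ⟨hpp, hpN⟩ := mem_PX.1 hp
        have h1 : Real.log p ≤ Real.log N :=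
          Real.log_le_log (by exact_mod_cast hpp.pos) (by exact_mod_cast hpN)
        have h2 := Real.log_natCast_nonneg p
        have h3 := be_nonneg hb (Real.log p - u)
        have h4 : (0 : ℝ) ≤ p := Nat.cast_nonneg p
        rw [aa_sq, sq]
        calc Real.log p * Real.log p / p * be b (Real.log p - u) =
            Real.log p * (Real.log p / p * be b (Real.log p - u)) := by ring
          _ ≤ _ := by gcongr
    _ = Real.log N * ∑ p ∈ PX N, Real.log p / p * be b (Real.log p - u) := by
        rw [Finset.mul_sum]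
    _ ≤ Real.log N * C := by
        apply mul_le_mul_of_nonneg_left (h N b u hb) (Real.log_natCast_nonneg N)
    _ = C * Real.log N := mul_comm _ _

/-- Mertens for `log² p / p` -/
theorem sum_aa : ∃ C : ℝ, 0 < C ∧ ∀ N : ℕ, 1 ≤ N →
    |(∑ p ∈ PX N, aa p ^ 2) - Real.log N ^ 2 / 2| ≤ C * (Real.log N + 1) := by
  obtain ⟨C, hC, h⟩ := TC.lsq
  set S := ∑' n : ℕ, (if n.Prime then 0 else vonMangoldt n / (n : ℝ)) with hS
  have hS0 : 0 ≤ S := tsum_nonneg H385.npr_nonneg
  refine ⟨C + S, by positivity, fun N hN => ?_⟩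
  have hlN := Real.log_natCast_nonneg N
  have hsplit : ∑ n ∈ Finset.Icc 1 N, TC.lam n ^ 2 = (∑ p ∈ PX N, aa p ^ 2) +
      ∑ n ∈ (Finset.Icc 1 N).filter (fun n => ¬ n.Prime), TC.lam n ^ 2 := by
    rw [← Finset.sum_filter_add_sum_filter_not _ Nat.Prime]
    congr 1
    refine Finset.sum_congr rfl fun p hp => ?_
    have hpp := (Finset.mem_filter.1 hp).2
    unfold TC.lam aa
    rw [vonMangoldt_apply_prime hpp]
  have hnp : ∑ n ∈ (Finset.Icc 1 N).filter (fun n => ¬ n.Prime), TC.lam n ^ 2 ≤
      S * Real.log N := by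
    calc ∑ n ∈ (Finset.Icc 1 N).filter (fun n => ¬ n.Prime), TC.lam n ^ 2 ≤
        ∑ n ∈ (Finset.Icc 1 N).filter (fun n => ¬ n.Prime),
          (if n.Prime then 0 else vonMangoldt n / (n : ℝ)) * Real.log N := by
          refine Finset.sum_le_sum fun n hn => ?_
          rw [Finset.mem_filter, Finset.mem_Icc] at hn
          rw [if_neg hn.2]
          unfold TC.lam
          rw [div_pow, Real.sq_sqrt (Nat.cast_nonneg n), sq, mul_div_right_comm]
          have h1 : vonMangoldt n ≤ Real.log N := by
            refine (vonMangoldt_le_log).trans (Real.log_le_log ?_ ?_)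
            · have := hn.1.1
              exact_mod_cast this
            · exact_mod_cast hn.1.2
          have h2 : 0 ≤ vonMangoldt n / (n : ℝ) :=
            div_nonneg vonMangoldt_nonneg (Nat.cast_nonneg n)
          gcongr
      _ = (∑ n ∈ (Finset.Icc 1 N).filter (fun n => ¬ n.Prime),
          (if n.Prime then 0 else vonMangoldt n / (n : ℝ))) * Real.log N := by
          rw [Finset.sum_mul]
      _ ≤ S * Real.log N := by
          apply mul_le_mul_of_nonneg_right _ hlN
          exact H385.npr_summable.sum_le_tsum _ fun n _ => H385.npr_nonneg n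
  have hnp0 : 0 ≤ ∑ n ∈ (Finset.Icc 1 N).filter (fun n => ¬ n.Prime), TC.lam n ^ 2 :=
    Finset.sum_nonneg fun n _ => by positivity
  have h1 := h N hN
  rw [hsplit, abs_le] at h1
  rw [abs_le]
  constructor <;> nlinarith [h1.1, h1.2]

/-- non primes are negligible -/
theorem nonprime_gau : ∃ C : ℝ, 0 < C ∧ ∀ u : ℝ,
    Summable (fun n : ℕ => (if n.Prime then 0 else vonMangoldt n / Real.sqrt n) *
      Real.exp (-(1 / 2) * (u - Real.log n) ^ 2)) ∧
    ∑' n : ℕ, (if n.Prime then 0 else vonMangoldt n / Real.sqrt n) *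
      Real.exp (-(1 / 2) * (u - Real.log n) ^ 2) ≤ C := by
  obtain ⟨C0, hC0⟩ := Chebyshev.psi_sub_theta_le_mul_sqrt
  have hC00 : 0 ≤ C0 := by
    have h1 := hC0 1
    have h2 := Chebyshev.theta_le_psi 1
    rw [Real.sqrt_one, mul_one] at h1
    linarith
  set M : ℝ := ∫ v : ℝ, Real.exp (-(1 / 2 / 2) * v ^ 2) with hM
  have hM' : 0 ≤ M := integral_nonneg fun v => by positivity
  set K : ℝ := C0 * Real.exp (1 / 2) with hK
  have hK0 : 0 ≤ K := by positivity
  refine ⟨Real.exp (1 / 2) * (K * M) + 1, by positivity, fun u => ?_⟩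
  have hw : ∀ n : ℕ, 0 ≤ (if n.Prime then 0 else vonMangoldt n / Real.sqrt n) := by
    intro n
    split_ifs
    · exact le_rfl
    · exact div_nonneg vonMangoldt_nonneg (Real.sqrt_nonneg _)
  have hblock : ∀ k N : ℕ, ∑ n ∈ (Finset.range N).filter (fun n : ℕ => ⌊Real.log n⌋₊ = k),
      (if n.Prime then 0 else vonMangoldt n / Real.sqrt n) ≤ K := by
    intro k N
    have he : Real.exp ((k : ℝ) / 2) ^ 2 = Real.exp k := by
      rw [← Real.exp_nat_mul]
      congr 1
      push_cast
      ring
    calc ∑ n ∈ (Finset.range N).filter (fun n : ℕ => ⌊Real.log n⌋₊ = k),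
        (if n.Prime then 0 else vonMangoldt n / Real.sqrt n) ≤
        ∑ n ∈ (Finset.range N).filter (fun n : ℕ => ⌊Real.log n⌋₊ = k),
          (1 / Real.exp ((k : ℝ) / 2)) * (if n.Prime then 0 else vonMangoldt n) := by
          apply Finset.sum_le_sum
          intro n hn
          have hfl := (Finset.mem_filter.1 hn).2
          split_ifs with hp
          · simp
          rcases Nat.eq_zero_or_pos n with rfl | hn0
          · simp
          have hl := H385.block_lower hn0 hfl
          have h3 : 0 ≤ vonMangoldt n := vonMangoldt_nonneg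
          rw [one_div_mul_eq_div]
          have he' := Real.exp_pos ((k : ℝ) / 2)
          have h4 : Real.exp ((k : ℝ) / 2) ≤ Real.sqrt n := by
            apply Real.le_sqrt_of_sq_le
            rw [he]
            exact hl
          gcongr
      _ = (1 / Real.exp ((k : ℝ) / 2)) *
          ∑ n ∈ (Finset.range N).filter (fun n : ℕ => ⌊Real.log n⌋₊ = k),
            (if n.Prime then 0 else vonMangoldt n) := by rw [Finset.mul_sum]
      _ ≤ (1 / Real.exp ((k : ℝ) / 2)) * (C0 * Real.sqrt (Real.exp (k + 1))) := by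
          apply mul_le_mul_of_nonneg_left _ (by positivity)
          refine le_trans ?_ (hC0 (Real.exp (k + 1)))
          rw [Chebyshev.psi_sub_theta_eq_sum_not_prime]
          rw [← Finset.sum_filter_ne_zero]
          have hsub : (((Finset.range N).filter (fun n : ℕ => ⌊Real.log n⌋₊ = k)).filter
              (fun n => (if n.Prime then 0 else vonMangoldt n) ≠ 0)) ⊆
              (Finset.Ioc 0 ⌊Real.exp ((k : ℝ) + 1)⌋₊).filter (fun n => ¬ n.Prime) := by
            intro n hn
            rw [Finset.mem_filter, Finset.mem_filter] at hn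
            obtain ⟨⟨h1, h2⟩, h3⟩ := hn
            have hnp : ¬ n.Prime := by
              intro hp
              rw [if_pos hp] at h3
              exact h3 rfl
            rw [if_neg hnp] at h3
            have hn0 : 0 < n := by
              rcases Nat.eq_zero_or_pos n with rfl | h
              · simp at h3
              · exact h
            rw [Finset.mem_filter, Finset.mem_Ioc]
            refine ⟨⟨hn0, ?_⟩, hnp⟩
            apply Nat.le_floor
            rw [← Real.log_le_iff_le_exp (by exact_mod_cast hn0)]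
            have := Nat.lt_floor_add_one (Real.log n)
            rw [h2] at this
            exact this.le
          refine (Finset.sum_le_sum_of_subset_of_nonneg hsub fun n _ _ => ?_).trans
            (le_of_eq ?_)
          · split_ifs
            · exact le_rfl
            · exact vonMangoldt_nonneg
          · refine Finset.sum_congr rfl fun n hn => ?_
            rw [if_neg (Finset.mem_filter.1 hn).2]
      _ = K := by
          have h5 : Real.sqrt (Real.exp (k + 1)) = Real.exp ((k : ℝ) / 2) * Real.exp (1 / 2) := by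
            rw [← Real.exp_add, Real.sqrt_eq_iff_mul_self_eq (Real.exp_pos _).le
              (Real.exp_pos _).le, ← Real.exp_add]
            congr 1
            ring
          rw [h5, hK]
          have := Real.exp_pos ((k : ℝ) / 2)
          field_simp
  have hint : Integrable (fun s : ℝ => K * Real.exp (-(1 / 2 / 2) * (u - s) ^ 2)) :=
    ((H385.ntw_int0 (1 / 2 / 2) (by norm_num)).comp_sub_left u).const_mul _
  obtain ⟨hs, hb2⟩ := H385.block_gauss
    (fun n : ℕ => (if n.Prime then 0 else vonMangoldt n / Real.sqrt n)) hw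
    (fun _ => K) (by fun_prop) (fun s => hK0) (fun k N s _ _ => hblock k N) (1 / 2) u
    (by norm_num) hint
  refine ⟨hs, hb2.trans ?_⟩
  rw [integral_const_mul, integral_sub_left_eq_self (fun v : ℝ => Real.exp (-(1 / 2 / 2) * v ^ 2))]
  have h9 : Real.exp (1 / 2) * (K * M) ≤ Real.exp (1 / 2) * (K * M) + 1 := by linarith
  exact h9

end Pool.Agent.TH800.MS
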