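import Pool.Agent.TH800.MS.Ze
import Pool.Agent.H345R2.A3.Ker

/-! The local sums in windows of the size of a bounded number of mean spacings. -/

open Complex Filter Topology Set MeasureTheory
open scoped ComplexConjugate

namespace Pool.Agent.TH800.MS

open SP
open H370 (Zf good_zeta)

/-- the window -/
noncomputable def Om (b x : ℝ) : ℝ := Real.exp (-x ^ 2 / 2) * Real.sinc (b * x / 2) ^ 2

/-- the local sum over the zeros in a short window -/
noncomputable def SS (T b t u : ℝ) : ℂ :=
  ∑ s ∈ Zf riemannZeta T (2 * T), (mu s : ℂ) * (Om b (s.im - t) : ℂ) *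
    cexp (I * ((u * (s.im - t) : ℝ) : ℂ))

/-- the prime sum in the short window -/
noncomputable def D1 (N : ℕ) (b t u : ℝ) : ℂ :=
  ∑ p ∈ PX N, ef t p * ((be b (Real.log p - u) : ℝ) : ℂ)

lemma Om_nonneg (b x : ℝ) : 0 ≤ Om b x := by unfold Om; positivity

lemma Om_le_one (b x : ℝ) : Om b x ≤ 1 := by
  unfold Om
  have h1 : Real.exp (-x ^ 2 / 2) ≤ 1 := by
    rw [Real.exp_le_one_iff]
    have := sq_nonneg x
    linarith
  have h2 : Real.sinc (b * x / 2) ^ 2 ≤ 1 := by
    rw [sq_le_one_iff_abs_le_one]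
    exact Real.abs_sinc_le_one _
  calc _ ≤ (1 : ℝ) * 1 := by gcongr
    _ = 1 := one_mul _

lemma Om_cont (b : ℝ) : Continuous (Om b) := by
  unfold Om
  exact (by fun_prop : Continuous fun x : ℝ => Real.exp (-x ^ 2 / 2)).mul
    ((Real.continuous_sinc.comp (by fun_prop)).pow 2)

lemma kb_cos {b : ℝ} (hb : 0 < b) (x : ℝ) :
    ∫ y in (-b)..b, kb b y * Real.cos (y * x) = Real.sinc (b * x / 2) ^ 2 := by
  rw [even_int (f := fun y => kb b y * Real.cos (y * x)) (kb_cont.mul (by fun_prop)) (fun y => by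
    simp only [kb_even, neg_mul, Real.cos_neg])]
  have h1 : ∫ y in (0 : ℝ)..b, kb b y * Real.cos (y * x) =
      ∫ y in (0 : ℝ)..b, 1 / b * ((1 - y / b) * Real.cos ((b * x) * (y / b))) := by
    refine intervalIntegral.integral_congr fun y hy => ?_
    rw [Set.uIcc_of_le hb.le] at hy
    show kb b y * Real.cos (y * x) = 1 / b * ((1 - y / b) * Real.cos ((b * x) * (y / b)))
    rw [kb_pos_part hb hy.1 hy.2]
    have : b * x * (y / b) = y * x := by field_simp
    rw [this]
    ring
  rw [h1, intervalIntegral.integral_const_mul]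
  have h2 := intervalIntegral.integral_comp_div (a := 0) (b := b)
    (fun w => (1 - w) * Real.cos ((b * x) * w)) hb.ne'
  rw [zero_div, div_self hb.ne', smul_eq_mul] at h2
  rw [h2]
  rcases eq_or_ne x 0 with hx | hx
  · subst hx
    simp only [mul_zero, zero_mul, Real.cos_zero, mul_one, zero_div, Real.sinc_zero, one_pow]
    have h3 : ∫ w in (0 : ℝ)..1, (1 - w) = 1 / 2 := by
      rw [intervalIntegral.integral_sub (by simp) (by simp), integral_id,
        intervalIntegral.integral_const, smul_eq_mul]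
      norm_num
    rw [h3]
    field_simp
  · have hk : b * x ≠ 0 := mul_ne_zero hb.ne' hx
    rw [H370.A3.int_cos hk, Real.sinc_of_ne_zero (by positivity)]
    have h3 : 1 - Real.cos (b * x) = 2 * Real.sin (b * x / 2) ^ 2 := by
      have h4 := Real.sin_sq_eq_half_sub (b * x / 2)
      rw [mul_div_cancel₀ (b * x) (two_ne_zero)] at h4
      linarith
    rw [h3]
    field_simp

lemma kb_exp {b : ℝ} (hb : 0 < b) (x : ℝ) :
    ∫ y in (-b)..b, (kb b y : ℂ) * cexp (I * ((y * x : ℝ) : ℂ)) =
      ((Real.sinc (b * x / 2) ^ 2 : ℝ) : ℂ) := by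
  have h1 : ∀ y : ℝ, (kb b y : ℂ) * cexp (I * ((y * x : ℝ) : ℂ)) =
      ((kb b y * Real.cos (y * x) : ℝ) : ℂ) + I * ((kb b y * Real.sin (y * x) : ℝ) : ℂ) := by
    intro y
    rw [mul_comm I, Complex.exp_mul_I]
    push_cast
    ring
  simp_rw [h1]
  rw [intervalIntegral.integral_add, intervalIntegral.integral_const_mul,
    intervalIntegral.integral_ofReal, intervalIntegral.integral_ofReal, kb_cos hb]
  · have h2 : ∫ y in (-b)..b, kb b y * Real.sin (y * x) = 0 := by
      have h3 := intervalIntegral.integral_comp_neg (a := -b) (b := b)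
        (f := fun y => kb b y * Real.sin (y * x))
      rw [neg_neg] at h3
      simp only [kb_even, neg_mul, Real.sin_neg, mul_neg] at h3
      rw [intervalIntegral.integral_neg] at h3
      linarith
    rw [h2]
    simp
  · exact (Complex.continuous_ofReal.comp (kb_cont.mul (by fun_prop))).intervalIntegrable _ _
  · exact (continuous_const.mul
      (Complex.continuous_ofReal.comp (kb_cont.mul (by fun_prop)))).intervalIntegrable _ _

lemma Zt_cont (T t : ℝ) : Continuous (Zt T t) := by
  unfold Zt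
  fun_prop

lemma P1_cont (N : ℕ) (t : ℝ) : Continuous (P1 N t) := by
  unfold P1
  refine continuous_finsetSum _ fun p _ => ?_
  exact continuous_const.mul (Complex.continuous_ofReal.comp (gau0_cont.comp (by fun_prop)))

lemma kbc_cont (b : ℝ) : Continuous (fun y => (kb b y : ℂ)) :=
  Complex.continuous_ofReal.comp kb_cont

lemma SS_eq {b : ℝ} (hb : 0 < b) (T t u : ℝ) :
    ∫ y in (-b)..b, (kb b y : ℂ) * Zt T t (u + y) = SS T b t u := by
  unfold Zt SS
  simp_rw [Finset.mul_sum]
  rw [intervalIntegral.integral_finsetSum]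
  · refine Finset.sum_congr rfl fun s _ => ?_
    have h1 : ∀ y : ℝ, (kb b y : ℂ) * ((mu s : ℂ) * (Real.exp (-(s.im - t) ^ 2 / 2) : ℂ) *
        cexp (I * (((u + y) * (s.im - t) : ℝ) : ℂ))) =
        ((mu s : ℂ) * (Real.exp (-(s.im - t) ^ 2 / 2) : ℂ) *
          cexp (I * ((u * (s.im - t) : ℝ) : ℂ))) *
        ((kb b y : ℂ) * cexp (I * ((y * (s.im - t) : ℝ) : ℂ))) := by
      intro y
      have : cexp (I * (((u + y) * (s.im - t) : ℝ) : ℂ)) =
          cexp (I * ((u * (s.im - t) : ℝ) : ℂ)) * cexp (I * ((y * (s.im - t) : ℝ) : ℂ)) := by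
        rw [← Complex.exp_add]
        congr 1
        push_cast
        ring
      rw [this]
      ring
    simp_rw [h1]
    rw [intervalIntegral.integral_const_mul, kb_exp hb]
    unfold Om
    push_cast
    ring
  · intro s _
    exact ((kbc_cont b).mul (by fun_prop)).intervalIntegrable _ _

lemma D1_eq {b : ℝ} (N : ℕ) (t u : ℝ) :
    ∫ y in (-b)..b, (kb b y : ℂ) * P1 N t (u + y) = D1 N b t u := by
  unfold P1 D1
  simp_rw [Finset.mul_sum]
  rw [intervalIntegral.integral_finsetSum]
  · refine Finset.sum_congr rfl fun p _ => ?_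
    have h1 : ∀ y : ℝ, (kb b y : ℂ) * (ef t p * ((gau0 (u + y - Real.log p) : ℝ) : ℂ)) =
        ef t p * ((kb b y * gau0 (y - (Real.log p - u)) : ℝ) : ℂ) := by
      intro y
      have : u + y - Real.log p = y - (Real.log p - u) := by ring
      rw [this]
      push_cast
      ring
    simp_rw [h1]
    rw [intervalIntegral.integral_const_mul, intervalIntegral.integral_ofReal]
    rfl
  · intro p _
    exact ((kbc_cont b).mul (continuous_const.mul
      (Complex.continuous_ofReal.comp (gau0_cont.comp (by fun_prop))))).intervalIntegrable _ _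

lemma kb_reflect {b : ℝ} (f : ℝ → ℂ) :
    ∫ y in (-b)..b, (kb b y : ℂ) * f (-y) = ∫ y in (-b)..b, (kb b y : ℂ) * f y := by
  have h := intervalIntegral.integral_comp_neg (a := -b) (b := b)
    (f := fun y => (kb b y : ℂ) * f y)
  rw [neg_neg] at h
  rw [← h]
  simp only [kb_even]

lemma D1_eq' {b : ℝ} (hb : 0 < b) (N : ℕ) (t u : ℝ) :
    ∫ y in (-b)..b, (kb b y : ℂ) * conj (P1 N t (-(u + y))) = conj (D1 N b t (-u)) := by
  have hconj : conj (D1 N b t (-u)) = ∫ y in (-b)..b, conj ((kb b y : ℂ) * P1 N t (-u + y)) := by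
    rw [← D1_eq, intervalIntegral.integral_of_le (by linarith),
      intervalIntegral.integral_of_le (by linarith), integral_conj]
  rw [hconj]
  have h := kb_reflect (b := b) (fun y => conj (P1 N t (-u + y)))
  have h1 : ∀ y : ℝ, -(u + y) = -u + -y := fun y => by ring
  simp_rw [h1]
  rw [h]
  refine intervalIntegral.integral_congr fun y _ => ?_
  simp only [map_mul, conj_ofReal]

lemma be_eq_c {b : ℝ} (L u : ℝ) :
    ∫ y in (-b)..b, (kb b y : ℂ) * ((L * gau0 (u + y) : ℝ) : ℂ) = ((L * be b u : ℝ) : ℂ) := by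
  have h := kb_reflect (b := b) (fun y => ((L * gau0 (u - y) : ℝ) : ℂ))
  have h1 : ∀ y : ℝ, u - -y = u + y := fun y => by ring
  simp only [h1] at h
  rw [h]
  have h2 : ∀ y : ℝ, (kb b y : ℂ) * ((L * gau0 (u - y) : ℝ) : ℂ) =
      ((L * (kb b y * gau0 (y - u)) : ℝ) : ℂ) := by
    intro y
    rw [← gau0_even (y - u), neg_sub]
    push_cast
    ring
  simp_rw [h2]
  rw [intervalIntegral.integral_ofReal, intervalIntegral.integral_const_mul]
  rfl

/-- the explicit formula in short windows -/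
theorem SSform (hRH : RHs) (μ1 μ2 : ℝ) (h0 : 0 < μ1) (h12 : μ1 < μ2) (h1 : μ1 ≤ 1) :
    ∃ C T0 : ℝ, 0 < C ∧ 10 ≤ T0 ∧ ∀ T : ℝ, T0 ≤ T → ∀ t : ℝ,
      T + Real.log T ≤ t → t ≤ 2 * T - Real.log T → ∀ N : ℕ,
      μ2 * Real.log T ≤ Real.log (N + 1) → ∀ b u : ℝ, 0 < b → |u| + b ≤ μ1 * Real.log T →
      ‖SS T b t u - (((Real.log T * be b u : ℝ) : ℂ) - D1 N b t u - conj (D1 N b t (-u)))‖ ≤
        C := by
  obtain ⟨C, T0, hC, hT0, h⟩ := Zform hRH μ1 μ2 h0 h12 h1
  refine ⟨C, T0, hC, hT0, fun T hT t ht1 ht2 N hN b u hb hu => ?_⟩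
  set L := Real.log T with hL
  have hgc : Continuous fun y : ℝ => ((L * gau0 (u + y) : ℝ) : ℂ) :=
    Complex.continuous_ofReal.comp (continuous_const.mul (gau0_cont.comp (by fun_prop)))
  have hP1 : Continuous fun y : ℝ => P1 N t (u + y) := (P1_cont N t).comp (by fun_prop)
  have hP2 : Continuous fun y : ℝ => conj (P1 N t (-(u + y))) :=
    Complex.continuous_conj.comp ((P1_cont N t).comp (by fun_prop))
  have hZ : Continuous fun y : ℝ => Zt T t (u + y) := (Zt_cont T t).comp (by fun_prop)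
  have e : SS T b t u - (((L * be b u : ℝ) : ℂ) - D1 N b t u - conj (D1 N b t (-u))) =
      ∫ y in (-b)..b, (kb b y : ℂ) * (Zt T t (u + y) - (((L * gau0 (u + y) : ℝ) : ℂ) -
        P1 N t (u + y) - conj (P1 N t (-(u + y))))) := by
    rw [← SS_eq hb, ← be_eq_c, ← D1_eq, ← D1_eq' hb]
    have i1 : IntervalIntegrable (fun y => (kb b y : ℂ) * ((L * gau0 (u + y) : ℝ) : ℂ))
      volume (-b) b := ((kbc_cont b).mul hgc).intervalIntegrable _ _
    have i2 : IntervalIntegrable (fun y => (kb b y : ℂ) * P1 N t (u + y))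
      volume (-b) b := ((kbc_cont b).mul hP1).intervalIntegrable _ _
    have i3 : IntervalIntegrable (fun y => (kb b y : ℂ) * conj (P1 N t (-(u + y))))
      volume (-b) b := ((kbc_cont b).mul hP2).intervalIntegrable _ _
    have i4 : IntervalIntegrable (fun y => (kb b y : ℂ) * Zt T t (u + y))
      volume (-b) b := ((kbc_cont b).mul hZ).intervalIntegrable _ _
    have i5 : IntervalIntegrable (fun y => (kb b y : ℂ) * ((L * gau0 (u + y) : ℝ) : ℂ) -
      (kb b y : ℂ) * P1 N t (u + y)) volume (-b) b := i1.sub i2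
    have i6 : IntervalIntegrable (fun y => (kb b y : ℂ) * ((L * gau0 (u + y) : ℝ) : ℂ) -
      (kb b y : ℂ) * P1 N t (u + y) - (kb b y : ℂ) * conj (P1 N t (-(u + y)))) volume (-b) b :=
      i5.sub i3
    rw [← intervalIntegral.integral_sub i1 i2, ← intervalIntegral.integral_sub i5 i3,
      ← intervalIntegral.integral_sub i4 i6]
    refine intervalIntegral.integral_congr fun y _ => ?_
    ring
  rw [e]
  calc ‖∫ y in (-b)..b, (kb b y : ℂ) * (Zt T t (u + y) - (((L * gau0 (u + y) : ℝ) : ℂ) -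
        P1 N t (u + y) - conj (P1 N t (-(u + y)))))‖ ≤ ∫ y in (-b)..b, kb b y * C := by
        apply intervalIntegral.norm_integral_le_of_norm_le (by linarith)
        · refine Eventually.of_forall fun y hy => ?_
          rw [norm_mul, Complex.norm_real, Real.norm_of_nonneg (kb_nonneg hb y)]
          apply mul_le_mul_of_nonneg_left _ (kb_nonneg hb y)
          apply h T hT t ht1 ht2 N hN
          have h3 : |y| ≤ b := abs_le.2 ⟨hy.1.le, hy.2⟩
          exact (abs_add_le u y).trans (by linarith)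
        · exact (kb_cont.mul continuous_const).intervalIntegrable _ _
    _ = C := by rw [intervalIntegral.integral_mul_const, kb_int hb, one_mul]

end Pool.Agent.TH800.MS
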