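import Pool.Agent.TH800.MS.Lln
import Pool.Agent.TH800.MS.Pq

/-! Small gaps: the lower and the upper bound for the pair sum. -/

open Complex Filter Topology Set MeasureTheory
open scoped ComplexConjugate

namespace Pool.Agent.TH800.MS

open SP hiding ps
open H370 (Zf good_zeta)
open H370.A3 (gg ps ss HH)

/-- the kernel on the physical side -/
noncomputable def hk (β L d : ℝ) : ℝ := HH (L * d / (2 * Real.pi * β))

lemma hk_le (β L d : ℝ) : hk β L d ≤ 1 := H370.A3.HH_le _

lemma hk_neg {β L d : ℝ} (hβ : 0 < β) (hL : 0 < L) (h : 2 * Real.pi * β / L < |d|) :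
    hk β L d ≤ 0 := by
  have hpi := Real.pi_pos
  apply H370.A3.HH_neg
  rw [abs_div, abs_mul, abs_of_pos hL, abs_of_pos (show 0 < 2 * Real.pi * β by positivity),
    lt_div_iff₀ (by positivity)]
  rw [div_lt_iff₀ hL] at h
  linarith

lemma ker_int {β L : ℝ} (hβ : 0 < β) (hL : 0 < L) (d : ℝ) :
    ∫ u in (0 : ℝ)..(L / β), ps β (u / L) * Real.cos (u * d) = L / 2 * hk β L d := by
  have hpi := Real.pi_pos
  have hc : L / β ≠ 0 := by positivity
  have h2 := intervalIntegral.integral_comp_mul_left (a := 0) (b := 1)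
    (fun u => ps β (u / L) * Real.cos (u * d)) hc
  rw [mul_zero, mul_one, smul_eq_mul] at h2
  have h3 : ∫ u in (0 : ℝ)..(L / β), ps β (u / L) * Real.cos (u * d) =
      L / β * ∫ x in (0 : ℝ)..1, ps β (L / β * x / L) * Real.cos (L / β * x * d) := by
    rw [h2, ← mul_assoc, mul_inv_cancel₀ hc, one_mul]
  rw [h3]
  unfold hk HH
  have h4 : ∫ x in (0 : ℝ)..1, ps β (L / β * x / L) * Real.cos (L / β * x * d) =
      ∫ x in (0 : ℝ)..1, β * (ss x * Real.cos (2 * Real.pi * (L * d / (2 * Real.pi * β)) * x)) := by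
    refine intervalIntegral.integral_congr fun y hy => ?_
    rw [Set.uIcc_of_le zero_le_one] at hy
    have hps : ps β (L / β * y / L) = β * ss y := by
      unfold ps
      have e : β * |L / β * y / L| = y := by
        have : L / β * y / L = y / β := by field_simp
        rw [this, abs_div, abs_of_pos hβ, abs_of_nonneg hy.1]
        field_simp
      rw [e, min_eq_left hy.2]
    show ps β (L / β * y / L) * Real.cos (L / β * y * d) = β * (ss y *
      Real.cos (2 * Real.pi * (L * d / (2 * Real.pi * β)) * y))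
    rw [hps]
    have e2 : 2 * Real.pi * (L * d / (2 * Real.pi * β)) * y = L / β * y * d := by
      field_simp
    rw [e2]
    ring
  rw [h4, intervalIntegral.integral_const_mul]
  field_simp

/-- smooth version of the kernel on the Fourier side -/
lemma psi_deriv (β α : ℝ) : HasDerivAt (fun α => β * ss (β * α))
    (β ^ 2 * (Real.cos (2 * Real.pi * (β * α)) - 1)) α := by
  have hpi := Real.pi_pos
  unfold ss
  have h1 : HasDerivAt (fun α : ℝ => β * α) β α := by
    simpa using (hasDerivAt_id α).const_mul β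
  have h2 := (h1.const_mul (2 * Real.pi)).sin
  have h3 := (((h1.const_sub 1).add (h2.div_const (2 * Real.pi))).const_mul β)
  refine h3.congr_deriv ?_
  field_simp
  ring

theorem low (hRH : RHs) (β lam μ1 μ2 : ℝ) (hβ : 0 < β) (hβ1 : β ≤ 1) (h0 : 0 < lam)
    (hlm : lam < μ1) (h12 : μ1 < μ2) (h2 : μ2 < 1 / 2) :
    ∃ C K T0 : ℝ, 0 < C ∧ 0 < K ∧ 10 ≤ T0 ∧ ∀ T : ℝ, T0 ≤ T → ∀ b : ℝ, 1 ≤ b →
      b ≤ lam * Real.log T → b ≤ (μ1 - lam) * Real.log T →
      ∀ t : ℝ, T + Real.log T ≤ t → t ≤ 2 * T - Real.log T →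
      2 * Real.log T / (3 * b) * gg β lam ≤ PS T b t (hk β (Real.log T)) +
        (K * (1 + Real.log T / b ^ 2) +
          4 / Real.log T * YY (Real.log T) C ⌊T ^ μ2⌋₊ b (lam * Real.log T) t) := by
  obtain ⟨C, K, T0, hC, hK, hT0, h⟩ := lln hRH lam μ1 μ2 h0 hlm h12 h2
  refine ⟨C, 4 * K, T0, hC, by positivity, hT0, fun T hT b hb1 hbl hbm t ht1 ht2 => ?_⟩
  have hT10 : 10 ≤ T := hT0.trans hT
  have hb : 0 < b := by linarith
  have hL0 : 0 < Real.log T := Real.log_pos (by linarith)
  have hB : ∀ α : ℝ, 0 ≤ α → α ≤ lam → |β * ss (β * α)| ≤ 2 ∧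
      |β ^ 2 * (Real.cos (2 * Real.pi * (β * α)) - 1)| ≤ 2 := by
    intro α h3 h4
    have h5 : β * α ≤ 1 := by nlinarith
    have h6 := H370.A3.ss_nonneg h5
    have h7 := H370.A3.ss_le (show 0 ≤ β * α by positivity)
    constructor
    · rw [abs_of_nonneg (by positivity)]
      nlinarith
    · have h8 := Real.neg_one_le_cos (2 * Real.pi * (β * α))
      have h9 := Real.cos_le_one (2 * Real.pi * (β * α))
      have h10 : β ^ 2 ≤ 1 := by nlinarith
      rw [abs_le]
      constructor <;> nlinarith [sq_nonneg β]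
  have hl := h T hT b hb1 hbl hbm t ht1 ht2 (fun α => β * ss (β * α))
    (fun α => β ^ 2 * (Real.cos (2 * Real.pi * (β * α)) - 1)) 2 (psi_deriv β) (by fun_prop) hB
  set L := Real.log T with hL
  have hgg : (β * ss (β * 0) + 2 * ∫ α in (0 : ℝ)..lam, α * (β * ss (β * α))) = gg β lam := by
    unfold gg
    have h3 : ∫ α in (0 : ℝ)..lam, α * (β * ss (β * α)) =
        β * ∫ α in (0 : ℝ)..lam, α * ss (β * α) := by
      rw [← intervalIntegral.integral_const_mul]
      refine intervalIntegral.integral_congr fun α _ => ?_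
      show α * (β * ss (β * α)) = β * (α * ss (β * α))
      ring
    rw [mul_zero, H370.A3.ss_zero, mul_one, h3]
    ring
  rw [hgg] at hl
  have hfc : Continuous fun u : ℝ => ‖SS T b t u‖ ^ 2 := (SS_cont T b t).norm.pow 2
  have hpsc : Continuous fun u : ℝ => ps β (u / L) := (H370.A3.ps_cont β).comp (by fun_prop)
  have h3 : ∫ u in (0 : ℝ)..(lam * L), β * ss (β * (u / L)) * ‖SS T b t u‖ ^ 2 =
      ∫ u in (0 : ℝ)..(lam * L), ps β (u / L) * ‖SS T b t u‖ ^ 2 := by
    refine intervalIntegral.integral_congr fun u hu => ?_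
    rw [Set.uIcc_of_le (by positivity)] at hu
    have h4 : u / L ≤ lam := by rw [div_le_iff₀ hL0]; exact hu.2
    have h5 : 0 ≤ u / L := div_nonneg hu.1 hL0.le
    show β * ss (β * (u / L)) * ‖SS T b t u‖ ^ 2 = ps β (u / L) * ‖SS T b t u‖ ^ 2
    unfold ps
    rw [abs_of_nonneg h5, min_eq_left (by nlinarith)]
  have h4 : ∫ u in (0 : ℝ)..(lam * L), ps β (u / L) * ‖SS T b t u‖ ^ 2 ≤
      ∫ u in (0 : ℝ)..(L / β), ps β (u / L) * ‖SS T b t u‖ ^ 2 := by
    refine intervalIntegral.integral_mono_interval le_rfl (by positivity) ?_ ?_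
      ((hpsc.mul hfc).intervalIntegrable _ _)
    · rw [le_div_iff₀ hβ]
      have : lam * β ≤ 1 := by nlinarith
      nlinarith
    · exact Filter.Eventually.of_forall fun u => mul_nonneg (H370.A3.ps_nonneg hβ.le _)
        (by positivity)
  have h5 := PS_int hpsc T b t (L / β)
  have h6 : PS T b t (fun d => ∫ u in (0 : ℝ)..(L / β), ps β (u / L) * Real.cos (u * d)) =
      L / 2 * PS T b t (hk β L) := by
    simp_rw [ker_int hβ hL0]
    unfold PS
    rw [Finset.mul_sum]
    refine Finset.sum_congr rfl fun s _ => ?_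
    rw [Finset.mul_sum]
    refine Finset.sum_congr rfl fun s' _ => ?_
    ring
  have h7 := (abs_le.1 hl).1
  rw [h3] at h7
  rw [h5, h6] at h4
  have h8 : L ^ 2 / (3 * b) * gg β lam ≤ L / 2 * PS T b t (hk β L) +
      2 * (K * (L + L ^ 2 / b ^ 2) + YY L C ⌊T ^ μ2⌋₊ b (lam * L) t) := by linarith
  have h9 : 2 * L / (3 * b) * gg β lam = 2 / L * (L ^ 2 / (3 * b) * gg β lam) := by
    field_simp
  have h10 : PS T b t (hk β L) + (4 * K * (1 + L / b ^ 2) +
      4 / L * YY L C ⌊T ^ μ2⌋₊ b (lam * L) t) = 2 / L * (L / 2 * PS T b t (hk β L) +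
      2 * (K * (L + L ^ 2 / b ^ 2) + YY L C ⌊T ^ μ2⌋₊ b (lam * L) t)) := by
    field_simp
    ring
  rw [h9, h10]
  gcongr

/-- linear form in the prime sum -/
noncomputable def XD (N : ℕ) (b t : ℝ) : ℝ := ‖∫ u in (-b)..b, (kb b u : ℂ) * D1 N b t u‖

lemma XD_nonneg (N : ℕ) (b t : ℝ) : 0 ≤ XD N b t := norm_nonneg _

lemma XD_cont (N : ℕ) (b : ℝ) : Continuous (XD N b) := by
  unfold XD
  apply Continuous.norm
  apply intervalIntegral.continuous_parametric_intervalIntegral_of_continuous'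
  show Continuous fun q : ℝ × ℝ => (kb b q.2 : ℂ) * D1 N b q.1 q.2
  exact (Complex.continuous_ofReal.comp (kb_cont.comp continuous_snd)).mul (D1_cont2 N b)

lemma kbbe {b : ℝ} (hb : 0 < b) : ∫ y in (-b)..b, kb b y * be b y ≤ 2 / (3 * b) + 1 / b ^ 2 := by
  have h1 : ∫ y in (-b)..b, kb b y * be b y ≤
      ∫ y in (-b)..b, (kb b y ^ 2 + 1 / b ^ 2 * kb b y) := by
    refine intervalIntegral.integral_mono_on (by linarith)
      ((kb_cont.mul be_cont).intervalIntegrable _ _)
      (((kb_cont.pow 2).add (continuous_const.mul kb_cont)).intervalIntegrable _ _)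
      fun y _ => ?_
    have h2 := (abs_le.1 (be_close hb y)).2
    have h3 := kb_nonneg hb y
    nlinarith
  have i1 : IntervalIntegrable (fun y => kb b y ^ 2) volume (-b) b :=
    (kb_cont.pow 2).intervalIntegrable _ _
  have i2 : IntervalIntegrable (fun y => 1 / b ^ 2 * kb b y) volume (-b) b :=
    (continuous_const.mul kb_cont).intervalIntegrable _ _
  rw [intervalIntegral.integral_add i1 i2, intervalIntegral.integral_const_mul, kb_int hb] at h1
  have h2 : ∫ y in (-b)..b, kb b y ^ 2 = 2 / (3 * b) := by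
    rw [even_int (f := fun y => kb b y ^ 2) (kb_cont.pow 2) (fun y => by
      show kb b (-y) ^ 2 = kb b y ^ 2
      rw [kb_even]), kb_sq_half hb]
    ring
  rw [h2, mul_one] at h1
  exact h1

/-- splitting of an integral -/
lemma decomp (b : ℝ) {F G1 G2 S : ℝ → ℂ} (hF : Continuous F) (h1 : Continuous G1)
    (h2 : Continuous G2) (hS : Continuous S) :
    ∫ y in (-b)..b, (kb b y : ℂ) * S y = ((∫ y in (-b)..b, (kb b y : ℂ) * F y) -
      (∫ y in (-b)..b, (kb b y : ℂ) * G1 y) - (∫ y in (-b)..b, (kb b y : ℂ) * G2 y)) +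
      ∫ y in (-b)..b, (kb b y : ℂ) * (S y - (F y - G1 y - G2 y)) := by
  have i1 : IntervalIntegrable (fun y => (kb b y : ℂ) * F y)
    volume (-b) b := ((kbc_cont b).mul hF).intervalIntegrable _ _
  have i2 : IntervalIntegrable (fun y => (kb b y : ℂ) * G1 y)
    volume (-b) b := ((kbc_cont b).mul h1).intervalIntegrable _ _
  have i3 : IntervalIntegrable (fun y => (kb b y : ℂ) * G2 y)
    volume (-b) b := ((kbc_cont b).mul h2).intervalIntegrable _ _
  have i4 : IntervalIntegrable (fun y => (kb b y : ℂ) * (S y - (F y - G1 y - G2 y)))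
    volume (-b) b := ((kbc_cont b).mul (hS.sub ((hF.sub h1).sub h2))).intervalIntegrable _ _
  have i5 : IntervalIntegrable (fun y => (kb b y : ℂ) * F y -
    (kb b y : ℂ) * G1 y) volume (-b) b := i1.sub i2
  have i6 : IntervalIntegrable (fun y => (kb b y : ℂ) * F y -
    (kb b y : ℂ) * G1 y - (kb b y : ℂ) * G2 y) volume (-b) b := i5.sub i3
  rw [← intervalIntegral.integral_sub i1 i2, ← intervalIntegral.integral_sub i5 i3,
    ← intervalIntegral.integral_add i6 i4]
  refine intervalIntegral.integral_congr fun y _ => ?_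
  ring

attribute [local irreducible] D1 SS be kb Wd

theorem Wd_up (hRH : RHs) (μ1 μ2 : ℝ) (h0 : 0 < μ1) (h12 : μ1 < μ2) (h1 : μ1 ≤ 1) :
    ∃ C T0 : ℝ, 0 < C ∧ 10 ≤ T0 ∧ ∀ T : ℝ, T0 ≤ T → ∀ t : ℝ,
      T + Real.log T ≤ t → t ≤ 2 * T - Real.log T → ∀ N : ℕ,
      μ2 * Real.log T ≤ Real.log (N + 1) → ∀ b : ℝ, 0 < b → 2 * b ≤ μ1 * Real.log T →
      Wd T b t ≤ 2 * Real.log T / (3 * b) + Real.log T / b ^ 2 + C + 2 * XD N b t := by
  obtain ⟨C, T0, hC, hT0, h⟩ := SSform hRH μ1 μ2 h0 h12 h1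
  refine ⟨C, T0, hC, hT0, fun T hT t ht1 ht2 N hN b hb hb2 => ?_⟩
  have hT10 : 10 ≤ T := hT0.trans hT
  have hL0 : 0 < Real.log T := Real.log_pos (by linarith)
  set L := Real.log T with hL
  have hD1 : Continuous fun y : ℝ => D1 N b t y := (D1_cont2 N b).comp (Continuous.prodMk_right t)
  have hD2 : Continuous fun y : ℝ => conj (D1 N b t (-y)) :=
    Complex.continuous_conj.comp (hD1.comp (by fun_prop))
  have hbc : Continuous fun y : ℝ => ((L * be b y : ℝ) : ℂ) :=
    Complex.continuous_ofReal.comp (continuous_const.mul be_cont)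
  have hSc : Continuous fun y : ℝ => SS T b t y := SS_cont T b t
  have e1 := decomp b hbc hD1 hD2 hSc
  rw [Wd_eq hb] at e1
  have e2 : ∫ y in (-b)..b, (kb b y : ℂ) * ((L * be b y : ℝ) : ℂ) =
      ((∫ y in (-b)..b, kb b y * (L * be b y) : ℝ) : ℂ) := by
    rw [← intervalIntegral.integral_ofReal]
    refine intervalIntegral.integral_congr fun y _ => ?_
    show (kb b y : ℂ) * ((L * be b y : ℝ) : ℂ) = ((kb b y * (L * be b y) : ℝ) : ℂ)
    rw [ofReal_mul (kb b y)]
  rw [e2] at e1
  set E : ℝ → ℂ := fun y => SS T b t y - (((L * be b y : ℝ) : ℂ) - D1 N b t y -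
    conj (D1 N b t (-y))) with hE
  have e3 : ‖∫ y in (-b)..b, (kb b y : ℂ) * conj (D1 N b t (-y))‖ = XD N b t := by
    have h3 := kb_reflect (b := b) (fun y => conj (D1 N b t y))
    rw [h3]
    unfold XD
    have h4 : ∫ y in (-b)..b, (kb b y : ℂ) * conj (D1 N b t y) =
        conj (∫ y in (-b)..b, (kb b y : ℂ) * D1 N b t y) := by
      rw [intervalIntegral.integral_of_le (by linarith),
        intervalIntegral.integral_of_le (by linarith), ← integral_conj]
      congr 1
      funext y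
      rw [map_mul, conj_ofReal]
    rw [h4, Complex.norm_conj]
  have e4 : ‖∫ y in (-b)..b, (kb b y : ℂ) * E y‖ ≤ C := by
    calc ‖∫ y in (-b)..b, (kb b y : ℂ) * E y‖ ≤ ∫ y in (-b)..b, kb b y * C := by
          apply intervalIntegral.norm_integral_le_of_norm_le (by linarith)
          · refine Eventually.of_forall fun y hy => ?_
            rw [norm_mul, Complex.norm_real, Real.norm_of_nonneg (kb_nonneg hb y)]
            apply mul_le_mul_of_nonneg_left _ (kb_nonneg hb y)
            apply h T hT t ht1 ht2 N hN b y hb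
            have h3 : |y| ≤ b := abs_le.2 ⟨hy.1.le, hy.2⟩
            linarith
          · exact (kb_cont.mul continuous_const).intervalIntegrable _ _
      _ = C := by rw [intervalIntegral.integral_mul_const, kb_int hb, one_mul]
  have e5 : ∫ y in (-b)..b, kb b y * (L * be b y) ≤ 2 * L / (3 * b) + L / b ^ 2 := by
    have h3 : ∫ y in (-b)..b, kb b y * (L * be b y) = L * ∫ y in (-b)..b, kb b y * be b y := by
      rw [← intervalIntegral.integral_const_mul]
      refine intervalIntegral.integral_congr fun y _ => ?_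
      ring
    rw [h3]
    calc _ ≤ L * (2 / (3 * b) + 1 / b ^ 2) := by
          have := kbbe hb
          gcongr
      _ = _ := by ring
  have e6 := congrArg Complex.re e1
  rw [ofReal_re, add_re, sub_re, sub_re, ofReal_re] at e6
  have r1 := (abs_le.1 (Complex.abs_re_le_norm (∫ y in (-b)..b, (kb b y : ℂ) * D1 N b t y))).1
  have r2 := (abs_le.1 (Complex.abs_re_le_norm
    (∫ y in (-b)..b, (kb b y : ℂ) * conj (D1 N b t (-y))))).1
  have r3 := (abs_le.1 (Complex.abs_re_le_norm (∫ y in (-b)..b, (kb b y : ℂ) * E y))).2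
  have r4 : XD N b t = ‖∫ y in (-b)..b, (kb b y : ℂ) * D1 N b t y‖ := rfl
  rw [e3] at r2
  rw [← r4] at r1
  linarith

end Pool.Agent.TH800.MS
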