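import Pool.Agent.TH800.MS.Sg1
import Pool.Agent.TH800.MS.Sg2

/-! Small gaps: the detector of windows without small gaps. -/

open Complex Filter Topology Set MeasureTheory
open scoped ComplexConjugate

namespace Pool.Agent.TH800.MS

open SP hiding ps
open H370 (Zf good_zeta)
open H370.A3 (gg)

/-- the detector -/
noncomputable def Ph (L C : ℝ) (N : ℕ) (T b X r ρ q t : ℝ) : ℝ :=
  (2 / q) ^ 2 * XD N b t ^ 2 + (1 / q) * TB T b r ρ t + (4 / (L * q)) ^ 2 * YY L C N b X t ^ 2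

lemma Ph_nonneg {L C : ℝ} {N : ℕ} {T b X r ρ q : ℝ} (hq : 0 < q) (t : ℝ) :
    0 ≤ Ph L C N T b X r ρ q t := by
  unfold Ph
  have := TB_nonneg T b r ρ t
  positivity

lemma Ph_cont {L C : ℝ} {N : ℕ} {T b X r ρ q : ℝ} (hr : 0 < r) :
    Continuous (Ph L C N T b X r ρ q) := by
  unfold Ph
  exact ((continuous_const.mul ((XD_cont N b).pow 2)).add
    (continuous_const.mul (TB_cont hr))).add (continuous_const.mul ((YY_cont L C N b X).pow 2))

lemma sq_or {a q : ℝ} (hq : 0 < q) (h : q ≤ a) : 1 ≤ (a / q) ^ 2 := by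
  have : 1 ≤ a / q := by rw [le_div_iff₀ hq]; linarith
  nlinarith

theorem XD_var (μ2 : ℝ) (h0 : 0 < μ2) (h2 : μ2 < 1 / 2) :
    ∃ K T0 : ℝ, 0 < K ∧ 10 ≤ T0 ∧ ∀ T : ℝ, T0 ≤ T → ∀ b : ℝ, 1 ≤ b →
      ∫ t in T..(2 * T), XD ⌊T ^ μ2⌋₊ b t ^ 2 ≤ K * (T * (Real.log T / b)) := by
  obtain ⟨T1, hT1, hsm⟩ := small_off μ2 h0 h2
  obtain ⟨Cl, hCl, hvl⟩ := var_lin
  have hev : ∀ᶠ T : ℝ in atTop, 2 ≤ Real.log T :=
    Real.tendsto_log_atTop.eventually_ge_atTop _
  obtain ⟨T2, hT2⟩ := hev.exists_forall_of_atTop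
  refine ⟨4 * (Cl + 1), max T1 T2, by positivity,
    hT1.trans (le_max_left _ _), fun T hT b hb1 => ?_⟩
  have hT10 : 10 ≤ T := hT1.trans ((le_max_left _ _).trans hT)
  have hTpos : 0 < T := by linarith
  have hL2 : 2 ≤ Real.log T := hT2 T ((le_max_right _ _).trans hT)
  set L := Real.log T with hL
  set N := ⌊T ^ μ2⌋₊ with hN
  have hTμ : 1 ≤ T ^ μ2 := Real.one_le_rpow (by linarith) h0.le
  have hN1 : 1 ≤ N := Nat.le_floor (by exact_mod_cast hTμ)
  have hN0 : (0 : ℝ) < N := by exact_mod_cast hN1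
  have hNle : (N : ℝ) ≤ T ^ μ2 := Nat.floor_le (by positivity)
  have hlogT : Real.log (T ^ μ2) = μ2 * L := Real.log_rpow hTpos _
  have hN3 : Real.log N ≤ μ2 * L := by
    rw [← hlogT]
    exact Real.log_le_log hN0 hNle
  have hlNL : Real.log N ≤ L := by nlinarith
  have hb : 0 < b := by linarith
  have hoff : (N : ℝ) ^ 4 / b ^ 2 * Real.exp (-(T ^ 2 * (1 / (N : ℝ) ^ 2) ^ 2) / 2) ≤ 1 / b ^ 2 := by
    have h3 := hsm T ((le_max_left _ _).trans hT) N hN1 hNle
    calc (N : ℝ) ^ 4 / b ^ 2 * Real.exp (-(T ^ 2 * (1 / (N : ℝ) ^ 2) ^ 2) / 2) =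
        (N : ℝ) ^ 4 * Real.exp (-(T ^ 2 * (1 / (N : ℝ) ^ 2) ^ 2) / 2) / b ^ 2 := by ring
      _ ≤ 1 / b ^ 2 := by gcongr
  have h3 := hvl N b (-b) b T (kb b) hb (by linarith) hN1 hTpos kb_cont (kb_nonneg hb)
    (kb_int hb).le
  have h4 : 1 / b ^ 2 ≤ L / b := by
    rw [div_le_div_iff₀ (by positivity) hb]
    nlinarith
  calc ∫ t in T..(2 * T), XD N b t ^ 2 ≤ 4 * T * (Cl * Real.log N / b + (N : ℝ) ^ 4 / b ^ 2 *
        Real.exp (-(T ^ 2 * (1 / (N : ℝ) ^ 2) ^ 2) / 2)) := h3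
    _ ≤ 4 * T * (Cl * L / b + L / b) := by
        have h5 : Cl * Real.log N / b ≤ Cl * L / b := by gcongr
        have h6 := hoff.trans h4
        gcongr
    _ = _ := by ring

attribute [local irreducible] XD YY TB PS Wd Tl

/-- the detector: windows in which all zeros are isolated are rare -/
theorem phi (hRH : RHs) (β lam μ1 μ2 : ℝ) (hβ : 0 < β) (hβ1 : β ≤ 1) (h0 : 0 < lam)
    (hlm : lam < μ1) (h12 : μ1 < μ2) (h2 : μ2 < 1 / 2) (hg : 1 < gg β lam) :
    ∃ K T0 b0 M0 : ℝ, 0 < K ∧ 10 ≤ T0 ∧ 1 ≤ b0 ∧ 1 ≤ M0 ∧ ∀ T : ℝ, T0 ≤ T → ∀ b : ℝ, b0 ≤ b →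
      M0 * b ≤ Real.log T → ∀ r : ℝ, 0 < r → ∃ Φ : ℝ → ℝ, Continuous Φ ∧ (∀ t, 0 ≤ Φ t) ∧
      (∀ t, T + 6 * Real.log T ≤ t → t ≤ 2 * T - 6 * Real.log T →
        Iso T t r (2 * Real.pi * β / Real.log T) → 1 ≤ Φ t) ∧
      ∫ t in T..(2 * T), Φ t ≤ K * (T * (b / Real.log T + 1 / (b * r) ^ 3)) := by
  have hpi := Real.pi_pos
  obtain ⟨C, K1, T1, hC, hK1, hT1, hlow⟩ := low hRH β lam μ1 μ2 hβ hβ1 h0 hlm h12 h2
  obtain ⟨C2, T2, hC2, hT2, hWd⟩ := Wd_up hRH μ1 μ2 (h0.trans hlm) h12 (by linarith)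
  obtain ⟨K3, T3, hK3, hT3, hY⟩ := YY_var μ2 C (h0.trans (hlm.trans h12)) h2 hC.le
  obtain ⟨K4, T4, hK4, hT4, hX⟩ := XD_var μ2 (h0.trans (hlm.trans h12)) h2
  obtain ⟨K5, T5, hK5, hT5, hta⟩ := tail hRH
  set ε := gg β lam - 1 with hε
  have hε0 : 0 < ε := by rw [hε]; linarith
  have hev : ∀ᶠ T : ℝ in atTop, 2 * Real.pi ≤ Real.log T :=
    Real.tendsto_log_atTop.eventually_ge_atTop _
  obtain ⟨T6, hT6⟩ := hev.exists_forall_of_atTop
  have hlm0 : 0 < μ1 - lam := by linarith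
  set b0 := max 1 (6 * (1 + K1) / ε) with hb0
  set M0 := max (max 1 (6 * (C2 + K1) / ε)) (max (1 / lam) (1 / (μ1 - lam))) with hM0
  refine ⟨(2 * 9 / ε) ^ 2 * K4 + (9 / ε) * K5 + (4 * 9 / ε) ^ 2 * K3,
    max (max (max T1 T2) (max T3 T4)) (max T5 T6), b0, M0, by positivity,
    hT1.trans (((le_max_left _ _).trans (le_max_left _ _)).trans (le_max_left _ _)),
    le_max_left _ _, (le_max_left _ _).trans (le_max_left _ _), fun T hT b hb hM r hr => ?_⟩
  have hTT1 : T1 ≤ T := (((le_max_left _ _).trans (le_max_left _ _)).trans (le_max_left _ _)).trans hT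
  have hTT2 : T2 ≤ T := (((le_max_right _ _).trans (le_max_left _ _)).trans (le_max_left _ _)).trans hT
  have hTT3 : T3 ≤ T := (((le_max_left _ _).trans (le_max_right _ _)).trans (le_max_left _ _)).trans hT
  have hTT4 : T4 ≤ T := (((le_max_right _ _).trans (le_max_right _ _)).trans (le_max_left _ _)).trans hT
  have hTT5 : T5 ≤ T := ((le_max_left _ _).trans (le_max_right _ _)).trans hT
  have hTT6 : T6 ≤ T := ((le_max_right _ _).trans (le_max_right _ _)).trans hT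
  have hT10 : 10 ≤ T := hT1.trans hTT1
  have hT0 : 0 < T := by linarith
  have hL2p := hT6 T hTT6
  have hb1 : 1 ≤ b := (le_max_left _ _).trans hb
  have hbp : 0 < b := by linarith
  have hbK : 6 * (1 + K1) / ε ≤ b := (le_max_right _ _).trans hb
  have hpi3 := Real.pi_gt_three
  have hL0 : 0 < Real.log T := by linarith
  set L := Real.log T with hL
  have hMb : ∀ x : ℝ, x ≤ M0 → x * b ≤ L := fun x hx =>
    (mul_le_mul_of_nonneg_right hx hbp.le).trans hM
  have m1 := hMb _ ((le_max_right _ _).trans (le_max_left _ _) : 6 * (C2 + K1) / ε ≤ M0)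
  have m2 := hMb _ ((le_max_left _ _).trans (le_max_right _ _) : 1 / lam ≤ M0)
  have m3 := hMb _ ((le_max_right _ _).trans (le_max_right _ _) : 1 / (μ1 - lam) ≤ M0)
  have m0 := hMb _ ((le_max_left _ _).trans (le_max_left _ _) : (1 : ℝ) ≤ M0)
  rw [one_mul] at m0
  have hbl : b ≤ lam * L := by
    rw [div_mul_eq_mul_div, one_mul, div_le_iff₀ h0] at m2
    linarith
  have hbm : b ≤ (μ1 - lam) * L := by
    rw [div_mul_eq_mul_div, one_mul, div_le_iff₀ hlm0] at m3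
    linarith
  set N := ⌊T ^ μ2⌋₊ with hN
  have hNlog : μ2 * L ≤ Real.log (N + 1) := by
    have h3 : Real.log (T ^ μ2) = μ2 * L := Real.log_rpow hT0 _
    rw [← h3]
    exact Real.log_le_log (by positivity) (Nat.lt_floor_add_one _).le
  set ρ := 2 * Real.pi * β / L with hρ
  have hρ1 : ρ ≤ 2 * Real.pi / L := by
    rw [hρ]
    apply div_le_div_of_nonneg_right _ hL0.le
    nlinarith
  have hρL : ρ ≤ L := by
    refine hρ1.trans ?_
    rw [div_le_iff₀ hL0]
    nlinarith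
  have hρ0 : 0 ≤ ρ := by positivity
  set q := ε * L / (9 * b) with hq
  have hq0 : 0 < q := by positivity
  refine ⟨Ph L C N T b (lam * L) r ρ q, Ph_cont hr, Ph_nonneg hq0, fun t ht1 ht2 hiso => ?_, ?_⟩
  · have a1 := hlow T hTT1 b hb1 hbl hbm t (by linarith) (by linarith)
    have a2 : PS T b t (hk β L) ≤ Wd T b t + Tl T b t r ρ :=
      PS_upper hiso (hk_le β L) (fun d hd => hk_neg hβ hL0 hd)
    have a3 := hWd T hTT2 t (by linarith) (by linarith) N hNlog b hbp (by linarith)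
    have a4 : Tl T b t r ρ ≤ TB T b r ρ t := Tl_le (by linarith) hL0 hbp hr hρL ht1 ht2
    have e1 : 2 * L / (3 * b) * gg β lam = 2 * L / (3 * b) + 6 * q := by
      rw [hq, hε]
      field_simp
      ring
    rw [← hL, ← hN, e1] at a1
    rw [← hL] at a3
    have e2 : (1 + K1) * (L / b ^ 2) ≤ 3 / 2 * q := by
      rw [div_le_iff₀ hε0] at hbK
      have h5 : (1 + K1) * (L / b ^ 2) = 6 * (1 + K1) * (L / (6 * b ^ 2)) := by
        field_simp
      rw [h5]
      calc 6 * (1 + K1) * (L / (6 * b ^ 2)) ≤ b * ε * (L / (6 * b ^ 2)) := by gcongr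
        _ = 3 / 2 * q := by rw [hq]; field_simp; norm_num
    have e3 : C2 + K1 ≤ 3 / 2 * q := by
      rw [div_mul_eq_mul_div, div_le_iff₀ hε0] at m1
      rw [hq]
      have h5 : 3 / 2 * (ε * L / (9 * b)) = ε * L / (6 * b) := by field_simp; norm_num
      rw [h5, le_div_iff₀ (by positivity)]
      linarith
    have e4 : K1 * (1 + L / b ^ 2) = K1 + K1 * (L / b ^ 2) := by ring
    have e5 : (1 + K1) * (L / b ^ 2) = L / b ^ 2 + K1 * (L / b ^ 2) := by ring
    have key : 3 * q ≤ 2 * XD N b t + TB T b r ρ t + 4 / L * YY L C N b (lam * L) t := by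
      rw [e4] at a1
      rw [e5] at e2
      linarith
    have hXD := XD_nonneg N b t
    have hTB := TB_nonneg T b r ρ t
    unfold Ph
    have hs1 : 0 ≤ (2 / q) ^ 2 * XD N b t ^ 2 := by positivity
    have hs2 : 0 ≤ (1 / q) * TB T b r ρ t := by positivity
    have hs3 : 0 ≤ (4 / (L * q)) ^ 2 * YY L C N b (lam * L) t ^ 2 := by positivity
    by_cases c1 : q ≤ 2 * XD N b t
    · have := sq_or hq0 c1
      have h5 : (2 * XD N b t / q) ^ 2 = (2 / q) ^ 2 * XD N b t ^ 2 := by ring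
      rw [h5] at this
      linarith
    by_cases c2 : q ≤ TB T b r ρ t
    · have h5 : 1 ≤ 1 / q * TB T b r ρ t := by
        rw [div_mul_eq_mul_div, one_mul, le_div_iff₀ hq0]
        linarith
      linarith
    · have c3 : q ≤ 4 / L * YY L C N b (lam * L) t := by linarith
      have := sq_or hq0 c3
      have h5 : (4 / L * YY L C N b (lam * L) t / q) ^ 2 =
          (4 / (L * q)) ^ 2 * YY L C N b (lam * L) t ^ 2 := by
        field_simp
      rw [h5] at this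
      linarith
  · have i1 : IntervalIntegrable (fun t => (2 / q) ^ 2 * XD N b t ^ 2) volume T (2 * T) :=
      (continuous_const.mul ((XD_cont N b).pow 2)).intervalIntegrable _ _
    have i2 : IntervalIntegrable (fun t => (1 / q) * TB T b r ρ t) volume T (2 * T) :=
      (continuous_const.mul (TB_cont hr)).intervalIntegrable _ _
    have i3 : IntervalIntegrable (fun t => (4 / (L * q)) ^ 2 * YY L C N b (lam * L) t ^ 2)
        volume T (2 * T) :=
      (continuous_const.mul ((YY_cont L C N b (lam * L)).pow 2)).intervalIntegrable _ _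
    have hint : ∫ t in T..(2 * T), Ph L C N T b (lam * L) r ρ q t =
        (2 / q) ^ 2 * (∫ t in T..(2 * T), XD N b t ^ 2) +
        (1 / q) * (∫ t in T..(2 * T), TB T b r ρ t) +
        (4 / (L * q)) ^ 2 * ∫ t in T..(2 * T), YY L C N b (lam * L) t ^ 2 := by
      unfold Ph
      rw [intervalIntegral.integral_add (i1.add i2) i3, intervalIntegral.integral_add i1 i2]
      simp only [intervalIntegral.integral_const_mul]
    rw [hint]
    have c1 := hX T hTT4 b hb1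
    have c2 := hta T hTT5 b r ρ hbp hr hρ1
    have c3 := hY T hTT3 b (lam * L) hb1 hbl (by nlinarith)
    rw [← hL, ← hN] at c1 c3
    rw [← hL] at c2
    have d1 : (2 / q) ^ 2 * (∫ t in T..(2 * T), XD N b t ^ 2) ≤
        (2 * 9 / ε) ^ 2 * K4 * (T * (b / L)) := by
      calc _ ≤ (2 / q) ^ 2 * (K4 * (T * (L / b))) := by gcongr
        _ = _ := by rw [hq]; field_simp
    have d2 : (1 / q) * (∫ t in T..(2 * T), TB T b r ρ t) ≤
        (9 / ε) * K5 * (T * (b / L + 1 / (b * r) ^ 3)) := by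
      calc _ ≤ (1 / q) * (K5 * (T * L / (b ^ 4 * r ^ 3) + 1)) := by gcongr
        _ ≤ (1 / q) * (K5 * (T * L / (b ^ 4 * r ^ 3) + T)) := by
            gcongr
            linarith
        _ = _ := by rw [hq]; field_simp; ring
    have d3 : (4 / (L * q)) ^ 2 * (∫ t in T..(2 * T), YY L C N b (lam * L) t ^ 2) ≤
        (4 * 9 / ε) ^ 2 * K3 * (T * (b / L)) := by
      calc _ ≤ (4 / (L * q)) ^ 2 * (K3 * (T * (L ^ 3 / b))) := by gcongr
        _ = _ := by rw [hq]; field_simp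
    have hr3 : 0 ≤ 1 / (b * r) ^ 3 := by positivity
    have g1 : T * (b / L) ≤ T * (b / L + 1 / (b * r) ^ 3) := by
      gcongr
      linarith
    calc _ ≤ (2 * 9 / ε) ^ 2 * K4 * (T * (b / L)) +
        (9 / ε) * K5 * (T * (b / L + 1 / (b * r) ^ 3)) +
        (4 * 9 / ε) ^ 2 * K3 * (T * (b / L)) := add_le_add (add_le_add d1 d2) d3
      _ ≤ (2 * 9 / ε) ^ 2 * K4 * (T * (b / L + 1 / (b * r) ^ 3)) +
        (9 / ε) * K5 * (T * (b / L + 1 / (b * r) ^ 3)) +
        (4 * 9 / ε) ^ 2 * K3 * (T * (b / L + 1 / (b * r) ^ 3)) := by gcongr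
      _ = _ := by ring

end Pool.Agent.TH800.MS
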