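import Pool.Agent.TH800.MS.Sg4
import Pool.Agent.H345R2.A3.Num
import Pool.Agent.H345R2.CT.C

/-! Small gaps: summation over the blocks. -/

open Complex Filter Topology Set MeasureTheory
open scoped ComplexConjugate

namespace Pool.Agent.TH800.MS

open SP hiding ps
open H370 (Zf good_zeta)
open H370.A3 (gg)
open SG (ord NZ zmult ZS)

/-- the normalised gaps -/
noncomputable def dlt (n : ℕ) : ℝ :=
  (ord (n + 1) * Real.log (ord (n + 1)) - ord n * Real.log (ord n)) / (2 * Real.pi)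

lemma choose (β : ℝ) (hβ : 0 < β) (hg : 1 < gg β (1 / 2)) :
    ∃ β' lam : ℝ, 0 < β' ∧ β' < β ∧ 0 < lam ∧ lam < 1 / 2 ∧ 1 < gg β' lam := by
  obtain ⟨b, hb0, hb1, hb2⟩ : ∃ b : ℝ, 0 < b ∧ b < β ∧ 1 < gg b (1 / 2) := by
    have e1 : ∀ᶠ x : ℝ in 𝓝[<] β, x < β := self_mem_nhdsWithin
    have e2 : ∀ᶠ x : ℝ in 𝓝[<] β, 0 < x := nhdsWithin_le_nhds (lt_mem_nhds hβ)
    have e3 : ∀ᶠ x : ℝ in 𝓝[<] β, 1 < gg x (1 / 2) :=
      nhdsWithin_le_nhds ((H370.A3.gg_cont_beta _).continuousAt.eventually (lt_mem_nhds hg))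
    obtain ⟨x, ⟨h1, h2⟩, h3⟩ := ((e1.and e2).and e3).exists
    exact ⟨x, h2, h1, h3⟩
  obtain ⟨l, hl0, hl1, hl2⟩ : ∃ l : ℝ, 0 < l ∧ l < 1 / 2 ∧ 1 < gg b l := by
    have e1 : ∀ᶠ x : ℝ in 𝓝[<] (1 / 2 : ℝ), x < 1 / 2 := self_mem_nhdsWithin
    have e2 : ∀ᶠ x : ℝ in 𝓝[<] (1 / 2 : ℝ), 0 < x :=
      nhdsWithin_le_nhds (lt_mem_nhds (by norm_num))
    have e3 : ∀ᶠ x : ℝ in 𝓝[<] (1 / 2 : ℝ), 1 < gg b x :=
      nhdsWithin_le_nhds ((H370.A3.gg_cont b).continuousAt.eventually (lt_mem_nhds hb2))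
    obtain ⟨x, ⟨h1, h2⟩, h3⟩ := ((e1.and e2).and e3).exists
    exact ⟨x, h2, h1, h3⟩
  exact ⟨b, l, hb0, hb1, hl0, hl1, hl2⟩

/-- runs of large normalised gaps in a block -/
theorem dlt_block (hRH : RiemannHypothesis) (β : ℝ) (hβ : 0 < β) (hβ1 : β ≤ 1)
    (hg : 1 < gg β (1 / 2)) :
    ∃ K c T0 m0 : ℝ, 0 < K ∧ 0 < c ∧ 10 ≤ T0 ∧ 4 ≤ m0 ∧ ∀ T : ℝ, T0 ≤ T → ∀ m : ℕ, m0 ≤ m →
      (m : ℝ) ^ (3 / 4 : ℝ) ≤ c * Real.log T →
      ({n : ℕ | 1 ≤ n ∧ T ≤ ord n ∧ ord n ≤ 3 / 2 * T ∧ ∀ i < m, β ≤ dlt (n + i)}.ncard : ℝ) ≤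
        K * (m : ℝ) ^ (-(3 / 4) : ℝ) * (T * Real.log T) := by
  classical
  have hpi := Real.pi_pos
  obtain ⟨β', lam, hβ'0, hβ'β, hlam0, hlam1, hg'⟩ := choose β hβ hg
  obtain ⟨K, c, T1, m0, hK, hc, hT1, hm0, h⟩ :=
    run_block hRH β' lam hβ'0 (by linarith) hlam0 hlam1 hg'
  obtain ⟨A, hA, hsh⟩ := ord_short (rhs_of hRH)
  obtain ⟨TL, hTL, hlog⟩ := LG.CTAux.log_ev (max 2 (3 * β' / (β - β') + 2))
  have hev : ∀ᶠ T : ℝ in atTop, (c * Real.log T) ^ 2 ≤ T / 10000 := by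
    have h1 := (isLittleO_log_rpow_atTop (show (0 : ℝ) < 1 / 2 by norm_num)).bound
      (show (0 : ℝ) < 1 / (100 * c) by positivity)
    filter_upwards [h1, eventually_ge_atTop 1] with T h2 h3
    have hl0 : 0 ≤ Real.log T := Real.log_nonneg h3
    rw [Real.norm_of_nonneg hl0, Real.norm_of_nonneg (by positivity)] at h2
    have h4 : c * Real.log T ≤ 1 / 100 * T ^ (1 / 2 : ℝ) := by
      calc c * Real.log T ≤ c * (1 / (100 * c) * T ^ (1 / 2 : ℝ)) := by gcongr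
        _ = _ := by field_simp
    have h5 : (T ^ (1 / 2 : ℝ)) ^ 2 = T := by
      rw [← Real.rpow_natCast, ← Real.rpow_mul (by linarith)]
      norm_num
    calc (c * Real.log T) ^ 2 ≤ (1 / 100 * T ^ (1 / 2 : ℝ)) ^ 2 := by gcongr
      _ = 1 / 10000 * (T ^ (1 / 2 : ℝ)) ^ 2 := by ring
      _ = _ := by rw [h5]; ring
  obtain ⟨T2, hT2⟩ := hev.exists_forall_of_atTop
  refine ⟨K, c / 2, max (max (2 * T1) A) (max (2 * TL) (max T2 100000)), m0, hK, by positivity,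
    ?_, hm0, fun T hT m hm hmL => ?_⟩
  · exact hA.trans ((le_max_right _ _).trans (le_max_left _ _))
  have hT21 : 2 * T1 ≤ T := ((le_max_left _ _).trans (le_max_left _ _)).trans hT
  have hTA : A ≤ T := ((le_max_right _ _).trans (le_max_left _ _)).trans hT
  have hTTL : 2 * TL ≤ T := ((le_max_left _ _).trans (le_max_right _ _)).trans hT
  have hTT2 : T2 ≤ T :=
    (((le_max_left _ _).trans (le_max_right _ _)).trans (le_max_right _ _)).trans hT
  have hT5 : 100000 ≤ T :=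
    (((le_max_right _ _).trans (le_max_right _ _)).trans (le_max_right _ _)).trans hT
  have hT0 : 0 < T := by linarith
  set S : ℝ := 9 / 10 * T with hS
  have hS0 : 0 < S := by positivity
  obtain ⟨hL1, hL2⟩ := hlog S (by linarith)
  obtain ⟨hL3, hL4⟩ := hlog T (by linarith)
  have hLS2 : 2 ≤ Real.log S := (le_max_left _ _).trans hL1
  have hLSb : 3 * β' / (β - β') + 2 ≤ Real.log S := (le_max_right _ _).trans hL1
  have hLST : Real.log S ≤ Real.log T := Real.log_le_log hS0 (by linarith)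
  have hLST' : Real.log T ≤ Real.log S + 1 := by
    have h1 : Real.log T = Real.log (10 / 9) + Real.log S := by
      rw [← Real.log_mul (by norm_num) hS0.ne', hS]
      congr 1
      ring
    have h2 := Real.log_le_sub_one_of_pos (show (0 : ℝ) < 10 / 9 by norm_num)
    linarith
  set L := Real.log T with hL
  have hm4 : (4 : ℝ) ≤ m := hm0.trans hm
  have hm0' : (0 : ℝ) < m := by linarith
  have hmT : (m : ℝ) ≤ T / 10000 := by
    have h1 : (m : ℝ) ≤ ((m : ℝ) ^ (3 / 4 : ℝ)) ^ 2 := by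
      rw [← Real.rpow_natCast, ← Real.rpow_mul hm0'.le]
      conv_lhs => rw [← Real.rpow_one (m : ℝ)]
      apply Real.rpow_le_rpow_of_exponent_le (by linarith)
      norm_num
    have h2 : ((m : ℝ) ^ (3 / 4 : ℝ)) ^ 2 ≤ (c * L) ^ 2 := by
      have : (m : ℝ) ^ (3 / 4 : ℝ) ≤ c * L := by
        refine hmL.trans ?_
        have : 0 ≤ L := by linarith
        nlinarith
      gcongr
    exact h1.trans (h2.trans (hT2 T hTT2))
  have hmS : (m : ℝ) ^ (3 / 4 : ℝ) ≤ c * Real.log S := by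
    refine hmL.trans ?_
    have h1 : L ≤ 2 * Real.log S := by linarith
    calc c / 2 * L ≤ c / 2 * (2 * Real.log S) := by gcongr
      _ = _ := by ring
  set B : Set ℕ := {n : ℕ | 1 ≤ n ∧ T ≤ ord n ∧ ord n ≤ 3 / 2 * T ∧ ∀ i < m, β ≤ dlt (n + i)} with hB
  have hBfin : B.Finite := LG.GapAux.fin_ord (3 / 2 * T) B fun n hn => ⟨hn.1, hn.2.2.1⟩
  rw [Set.ncard_eq_toFinset_card B hBfin]
  have h1 := h S (by linarith) m hm hmS hBfin.toFinset (fun n hn => by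
    rw [Set.Finite.mem_toFinset] at hn
    obtain ⟨a1, a2, a3, a4⟩ := hn
    have hs1 := hsh n a1 (by linarith) m
    refine ⟨a1, by linarith, by linarith, fun i hi => ?_⟩
    have a5 := a4 i hi
    have g1 : ord n ≤ ord (n + i) := SG.ord_mono a1 (by omega)
    have g2 : ord (n + i) ≤ ord (n + i + 1) := SG.ord_mono (by omega) (by omega)
    have g3 : ord (n + i + 1) ≤ ord (n + m) := SG.ord_mono (by omega) (by omega)
    have hx0 : 0 < ord (n + i) := by linarith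
    have h5 := H370.A3.xlog_aux hx0 g2
    have hy : ord (n + i + 1) ≤ 2 * T := by linarith
    have hlog3 : Real.log (ord (n + i + 1)) + 1 ≤ Real.log S + 3 := by
      have h6 : Real.log (ord (n + i + 1)) ≤ Real.log (2 * T) :=
        Real.log_le_log (by linarith) hy
      have h6' : Real.log (2 * T) = Real.log (20 / 9) + Real.log S := by
        rw [← Real.log_mul (by norm_num) hS0.ne', hS]
        congr 1
        ring
      have h7 := Real.log_le_sub_one_of_pos (show (0 : ℝ) < 20 / 9 by norm_num)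
      linarith
    have hd : (ord (n + i + 1) * Real.log (ord (n + i + 1)) - ord (n + i) *
        Real.log (ord (n + i))) / (2 * Real.pi) = dlt (n + i) := rfl
    have h6 : β * (2 * Real.pi) ≤ (ord (n + i + 1) - ord (n + i)) * (Real.log S + 3) := by
      have h7 : dlt (n + i) * (2 * Real.pi) ≤
          (ord (n + i + 1) - ord (n + i)) * (Real.log (ord (n + i + 1)) + 1) := by
        rw [← hd, div_mul_cancel₀ _ (by positivity)]
        exact h5
      calc β * (2 * Real.pi) ≤ dlt (n + i) * (2 * Real.pi) := by gcongr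
        _ ≤ _ := h7
        _ ≤ _ := by
            apply mul_le_mul_of_nonneg_left hlog3
            linarith
    have h8 : β' * (Real.log S + 3) < β * Real.log S := by
      have h9 : 3 * β' / (β - β') < Real.log S := by linarith
      rw [div_lt_iff₀ (by linarith)] at h9
      linarith
    rw [div_lt_iff₀ (by linarith)]
    have h10 : 2 * Real.pi * β' * (Real.log S + 3) < 2 * Real.pi * β * Real.log S := by
      have := mul_lt_mul_of_pos_left h8 (show 0 < 2 * Real.pi by positivity)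
      linarith
    have h11 : 0 < Real.log S + 3 := by linarith
    by_contra hcon
    push Not at hcon
    have h12 : β * (2 * Real.pi) * Real.log S ≤
        (ord (n + i + 1) - ord (n + i)) * (Real.log S + 3) * Real.log S :=
      mul_le_mul_of_nonneg_right h6 (by linarith)
    have h13 : (ord (n + i + 1) - ord (n + i)) * Real.log S * (Real.log S + 3) ≤
        2 * Real.pi * β' * (Real.log S + 3) := mul_le_mul_of_nonneg_right hcon h11.le
    linarith)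
  refine h1.trans ?_
  gcongr
  linarith

/-- crude upper bound for the number of zeros -/
lemma NZ_sq : ∃ K : ℝ, 0 < K ∧ ∀ T : ℝ, 10 ≤ T → (NZ T : ℝ) ≤ K * T ^ 2 := by
  obtain ⟨C, hC, h⟩ := LG.CU.NZ_inc
  have hN3 : (0 : ℝ) ≤ NZ 3 := Nat.cast_nonneg _
  refine ⟨NZ 3 + 6 * C, by positivity, fun a ha1 => ?_⟩
  set j := ⌈a⌉₊ with hj
  have hj1 : a ≤ j := Nat.le_ceil _
  have hj2 : (j : ℝ) < a + 1 := Nat.ceil_lt_add_one (by linarith)
  have h1 := h 3 le_rfl j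
  have h2 : NZ a ≤ NZ (3 + 2 * j) := SG.NZ_mono (by linarith)
  have h3 : (NZ a : ℝ) ≤ NZ (3 + 2 * j) := by exact_mod_cast h2
  have h4 : Real.log (3 + 2 * j) ≤ 3 * a := by
    have := Real.log_le_sub_one_of_pos (show (0 : ℝ) < 3 + 2 * j by positivity)
    linarith
  have h5 : C * j * Real.log (3 + 2 * j) ≤ C * (2 * a) * (3 * a) := by
    apply mul_le_mul _ h4 (Real.log_nonneg (by linarith)) (by positivity)
    apply mul_le_mul_of_nonneg_left (by linarith) hC.le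
  have h6 : (NZ 3 : ℝ) ≤ NZ 3 * a ^ 2 := by
    apply le_mul_of_one_le_right hN3
    nlinarith
  nlinarith

/-- the number of runs, short runs -/
theorem runs_short (hRH : RiemannHypothesis) (β : ℝ) (hβ : 0 < β) (hβ1 : β ≤ 1)
    (hg : 1 < gg β (1 / 2)) :
    ∃ K c m0 : ℝ, ∃ N0 : ℕ, 0 < K ∧ 0 < c ∧ 4 ≤ m0 ∧ 3 ≤ N0 ∧ ∀ N : ℕ, N0 ≤ N → ∀ m : ℕ,
      m0 ≤ m → (m : ℝ) ^ (3 / 4 : ℝ) ≤ c * Real.log N →
      ({n : ℕ | 1 ≤ n ∧ n ≤ N ∧ ∀ i < m, β ≤ dlt (n + i)}.ncard : ℝ) ≤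
        K * (N * (m : ℝ) ^ (-(3 / 4) : ℝ) + (N : ℝ) ^ (1 / 2 : ℝ)) := by
  obtain ⟨K, c, T0, m0, hK, hc, hT0, hm0, hblock⟩ := dlt_block hRH β hβ hβ1 hg
  obtain ⟨K2, hK2, hsq⟩ := NZ_sq
  obtain ⟨c1, T2, hc1, hT2, hlow⟩ := LG.GapAux.NZ_low
  obtain ⟨N1, hN1⟩ := (SG.ord_tendsto.eventually_ge_atTop (3 * T2 + 3)).exists_forall_of_atTop
  refine ⟨3 * K * (3 * (2 / c1)) + K2 * (4 * (T0 ^ 2 + 1)), c / 4, m0, max N1 3, by positivity,
    by positivity, hm0, le_max_right _ _, fun N hN m hm hmL => ?_⟩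
  have hNN1 : N1 ≤ N := (le_max_left _ _).trans hN
  have hN3 : 3 ≤ N := (le_max_right _ _).trans hN
  have hN3r : (3 : ℝ) ≤ N := by exact_mod_cast hN3
  have hN0 : (0 : ℝ) < N := by linarith
  have hlN : 0 < Real.log N := Real.log_pos (by linarith)
  set Y := ord N with hY
  have hY1 : 3 * T2 + 3 ≤ Y := hN1 N hNN1
  have hYpos : 0 < Y := by linarith
  have hm4 : (4 : ℝ) ≤ m := hm0.trans hm
  have hm0' : (0 : ℝ) < m := by linarith
  set x := (m : ℝ) ^ (3 / 4 : ℝ) with hx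
  have hx0 : 0 < x := Real.rpow_pos_of_pos hm0' _
  set T1 := max T0 (Real.exp (x / c)) with hT1
  have hT110 : 10 ≤ T1 := hT0.trans (le_max_left _ _)
  have h1 := LG.CU.sum_blocks (fun n => ∀ i < m, β ≤ dlt (n + i))
    (K * (m : ℝ) ^ (-(3 / 4) : ℝ)) T1 (by positivity) hT110 (fun T hT => by
      apply hblock T ((le_max_left _ _).trans hT) m hm
      have h2 : Real.exp (x / c) ≤ T := (le_max_right _ _).trans hT
      have h3 : x / c ≤ Real.log T := by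
        rw [Real.le_log_iff_exp_le (by linarith [Real.exp_pos (x / c)])]
        exact h2
      rw [div_le_iff₀ hc] at h3
      linarith) (2 * T1) le_rfl Y (by linarith)
  set S : Set ℕ := {n : ℕ | 1 ≤ n ∧ n ≤ N ∧ ∀ i < m, β ≤ dlt (n + i)} with hS
  set S1 : Set ℕ := Set.Icc 1 (NZ (2 * T1)) with hS1
  set S2 : Set ℕ := {n : ℕ | 1 ≤ n ∧ 2 * T1 < ord n ∧ ord n ≤ Y ∧ ∀ i < m, β ≤ dlt (n + i)} with hS2
  have hsub : S ⊆ S1 ∪ S2 := by
    rintro n ⟨a1, a2, a3⟩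
    by_cases hc : ord n ≤ 2 * T1
    · left
      rw [hS1, Set.mem_Icc]
      exact ⟨a1, (SG.ord_le_iff a1 _).mp hc⟩
    · right
      exact ⟨a1, not_le.1 hc, SG.ord_mono a1 a2, a3⟩
  have hfin2 : S2.Finite := LG.GapAux.fin_ord Y _ (fun n hn => ⟨hn.1, hn.2.2.1⟩)
  have hcard1 : S1.ncard = NZ (2 * T1) := by
    rw [hS1, ← Finset.coe_Icc, Set.ncard_coe_finset, Nat.card_Icc]
    omega
  have h2 : S.ncard ≤ NZ (2 * T1) + S2.ncard := by
    rw [← hcard1]
    exact (Set.ncard_le_ncard hsub ((Set.finite_Icc _ _).union hfin2)).trans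
      (Set.ncard_union_le _ _)
  have h2r : (S.ncard : ℝ) ≤ NZ (2 * T1) + S2.ncard := by exact_mod_cast h2
  -- small ordinates
  have hT1sq : T1 ^ 2 ≤ (T0 ^ 2 + 1) * (N : ℝ) ^ (1 / 2 : ℝ) := by
    have hN1' : 1 ≤ (N : ℝ) ^ (1 / 2 : ℝ) := Real.one_le_rpow (by linarith) (by norm_num)
    have h3 : Real.exp (x / c) ^ 2 ≤ (N : ℝ) ^ (1 / 2 : ℝ) := by
      rw [← Real.exp_nat_mul, Real.rpow_def_of_pos hN0]
      apply Real.exp_le_exp.2
      have h4 : x / c ≤ 1 / 4 * Real.log N := by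
        rw [div_le_iff₀ hc]
        linarith
      push_cast
      linarith
    rcases le_total T0 (Real.exp (x / c)) with h4 | h4
    · rw [hT1, max_eq_right h4]
      refine h3.trans ?_
      have : 0 ≤ T0 ^ 2 := sq_nonneg _
      nlinarith
    · rw [hT1, max_eq_left h4]
      have : 0 ≤ T0 ^ 2 := sq_nonneg _
      nlinarith
  have h3 : (NZ (2 * T1) : ℝ) ≤ K2 * (4 * (T0 ^ 2 + 1)) * (N : ℝ) ^ (1 / 2 : ℝ) := by
    calc (NZ (2 * T1) : ℝ) ≤ K2 * (2 * T1) ^ 2 := hsq _ (by linarith)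
      _ = K2 * 4 * T1 ^ 2 := by ring
      _ ≤ K2 * 4 * ((T0 ^ 2 + 1) * (N : ℝ) ^ (1 / 2 : ℝ)) := by gcongr
      _ = _ := by ring
  -- large ordinates
  have h4 := hlow (Y / 3) (by linarith)
  have h5 : NZ (2 * (Y / 3)) < N := by
    by_contra hcon
    push Not at hcon
    have h5 : ord N ≤ 2 * (Y / 3) := (SG.ord_le_iff (by omega) _).mpr hcon
    rw [← hY] at h5
    linarith
  have h6 : (NZ (2 * (Y / 3)) : ℝ) ≤ N := by exact_mod_cast h5.le
  have h7 : Real.log Y ≤ 2 * Real.log (Y / 3) := by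
    have h7 : Y ≤ (Y / 3) ^ 2 := by nlinarith
    have h8 := Real.log_le_log hYpos h7
    rw [Real.log_pow] at h8
    push_cast at h8
    exact h8
  have h9 : Y * Real.log Y ≤ 3 * (2 / c1) * N := by
    have h10 : c1 * (Y / 3 * Real.log (Y / 3)) ≤ N := h4.trans h6
    have h11 : Y * Real.log Y ≤ Y * (2 * Real.log (Y / 3)) := mul_le_mul_of_nonneg_left h7 hYpos.le
    have h12 : Y * (2 * Real.log (Y / 3)) = 3 * (2 / c1) * (c1 * (Y / 3 * Real.log (Y / 3))) := by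
      field_simp
    rw [h12] at h11
    refine h11.trans (mul_le_mul_of_nonneg_left h10 (by positivity))
  have h10 : (S2.ncard : ℝ) ≤ 3 * K * (3 * (2 / c1)) * (N * (m : ℝ) ^ (-(3 / 4) : ℝ)) := by
    calc (S2.ncard : ℝ) ≤ 3 * (K * (m : ℝ) ^ (-(3 / 4) : ℝ)) * (Y * Real.log Y) := h1
      _ ≤ 3 * (K * (m : ℝ) ^ (-(3 / 4) : ℝ)) * (3 * (2 / c1) * N) := by gcongr
      _ = _ := by ring
  have p1 : 0 ≤ (N : ℝ) * (m : ℝ) ^ (-(3 / 4) : ℝ) := by positivity
  have p2 : 0 ≤ (N : ℝ) ^ (1 / 2 : ℝ) := by positivity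
  have p3 : 0 ≤ 3 * K * (3 * (2 / c1)) := by positivity
  have p4 : 0 ≤ K2 * (4 * (T0 ^ 2 + 1)) := by positivity
  calc (S.ncard : ℝ) ≤ K2 * (4 * (T0 ^ 2 + 1)) * (N : ℝ) ^ (1 / 2 : ℝ) +
      3 * K * (3 * (2 / c1)) * (N * (m : ℝ) ^ (-(3 / 4) : ℝ)) := h2r.trans (add_le_add h3 h10)
    _ ≤ _ := by
        have e : (3 * K * (3 * (2 / c1)) + K2 * (4 * (T0 ^ 2 + 1))) *
            (N * (m : ℝ) ^ (-(3 / 4) : ℝ) + (N : ℝ) ^ (1 / 2 : ℝ)) =
            K2 * (4 * (T0 ^ 2 + 1)) * (N : ℝ) ^ (1 / 2 : ℝ) +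
            3 * K * (3 * (2 / c1)) * (N * (m : ℝ) ^ (-(3 / 4) : ℝ)) +
            (3 * K * (3 * (2 / c1)) * (N : ℝ) ^ (1 / 2 : ℝ) +
            K2 * (4 * (T0 ^ 2 + 1)) * (N * (m : ℝ) ^ (-(3 / 4) : ℝ))) := by ring
        rw [e]
        have q1 := mul_nonneg p3 p2
        have q2 := mul_nonneg p4 p1
        linarith

/-- **runs of large gaps** -/
theorem runs (hRH : RiemannHypothesis) (β : ℝ) (hβ : 0 < β) (hβ1 : β ≤ 1)
    (hg : 1 < gg β (1 / 2)) :
    ∃ C : ℝ, 0 < C ∧ ∀ N : ℕ, 2 ≤ N → ∀ m : ℕ, 1 ≤ m →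
      ({n : ℕ | 1 ≤ n ∧ n ≤ N ∧ ∀ i < m, β ≤ dlt (n + i)}.ncard : ℝ) ≤
        C * (N * ((m : ℝ) ^ (-(3 / 4) : ℝ) + 1 / Real.log N)) := by
  obtain ⟨K, c, m0, N0, hK, hc, hm0, hN0, h⟩ := runs_short hRH β hβ hβ1 hg
  -- `√N ≤ N / log N`
  have hsqrt : ∀ N : ℕ, 2 ≤ N → (N : ℝ) ^ (1 / 2 : ℝ) ≤ 2 * (N * (1 / Real.log N)) := by
    intro N hN
    have hN2 : (2 : ℝ) ≤ N := by exact_mod_cast hN
    have hNp : (0 : ℝ) < N := by linarith
    have hl := Real.log_pos (show (1 : ℝ) < N by linarith)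
    have h1 := Real.log_le_rpow_div hNp.le (show (0 : ℝ) < 1 / 2 by norm_num)
    have h2 : (N : ℝ) ^ (1 / 2 : ℝ) * (N : ℝ) ^ (1 / 2 : ℝ) = N := by
      rw [← Real.rpow_add hNp]
      norm_num
    have h3 : 2 * ((N : ℝ) * (1 / Real.log N)) = 2 * N / Real.log N := by ring
    rw [h3, le_div_iff₀ hl]
    have h4 : 0 ≤ (N : ℝ) ^ (1 / 2 : ℝ) := by positivity
    have h5 : Real.log N ≤ 2 * (N : ℝ) ^ (1 / 2 : ℝ) := by
      have : (N : ℝ) ^ (1 / 2 : ℝ) / (1 / 2) = 2 * (N : ℝ) ^ (1 / 2 : ℝ) := by ring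
      linarith
    nlinarith
  obtain ⟨N2, hN2⟩ : ∃ N2 : ℕ, ∀ N : ℕ, N2 ≤ N → m0 + 1 ≤ (c * Real.log N) ^ (4 / 3 : ℝ) := by
    have h1 : Tendsto (fun N : ℕ => (c * Real.log N) ^ (4 / 3 : ℝ)) atTop atTop :=
      (tendsto_rpow_atTop (by norm_num)).comp
        ((Real.tendsto_log_atTop.comp tendsto_natCast_atTop_atTop).const_mul_atTop hc)
    exact (h1.eventually_ge_atTop _).exists_forall_of_atTop
  set N3 := max N0 N2 with hN3
  have hN33 : 3 ≤ N3 := hN0.trans (le_max_left _ _)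
  have hN33r : (3 : ℝ) ≤ N3 := by exact_mod_cast hN33
  have hlN3 : 0 < Real.log N3 := Real.log_pos (by linarith)
  set C := Real.log N3 + m0 ^ (3 / 4 : ℝ) + K * (2 / c + 3) with hC
  have hm0p : 0 < m0 ^ (3 / 4 : ℝ) := Real.rpow_pos_of_pos (by linarith) _
  have hC0 : 0 < C := by positivity
  refine ⟨C, hC0, fun N hN m hm => ?_⟩
  have hN2r : (2 : ℝ) ≤ N := by exact_mod_cast hN
  have hNp : (0 : ℝ) < N := by linarith
  have hlN : 0 < Real.log N := Real.log_pos (by linarith)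
  have hm1 : (1 : ℝ) ≤ m := by exact_mod_cast hm
  have hmp : (0 : ℝ) < m := by linarith
  have hmr : 0 < (m : ℝ) ^ (-(3 / 4) : ℝ) := Real.rpow_pos_of_pos hmp _
  set S : ℕ → Set ℕ := fun m => {n : ℕ | 1 ≤ n ∧ n ≤ N ∧ ∀ i < m, β ≤ dlt (n + i)} with hS
  have hSfin : ∀ m, (S m).Finite := fun m =>
    (Set.finite_Icc 1 N).subset fun n hn => ⟨hn.1, hn.2.1⟩
  have htriv : ((S m).ncard : ℝ) ≤ N := by
    have h1 : (S m).ncard ≤ (Set.Icc 1 N).ncard :=
      Set.ncard_le_ncard (fun n hn => ⟨hn.1, hn.2.1⟩) (Set.finite_Icc 1 N)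
    rw [← Finset.coe_Icc, Set.ncard_coe_finset, Nat.card_Icc] at h1
    have h2 : (S m).ncard ≤ N := by omega
    exact_mod_cast h2
  show ((S m).ncard : ℝ) ≤ _
  have hinv : 0 < 1 / Real.log N := by positivity
  by_cases hNN : N < N3
  · have h1 : Real.log N ≤ Real.log N3 := Real.log_le_log hNp (by exact_mod_cast hNN.le)
    have h2 : (N : ℝ) ≤ Real.log N3 * (N * (1 / Real.log N)) := by
      have : Real.log N3 * (N * (1 / Real.log N)) = N * (Real.log N3 / Real.log N) := by ring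
      rw [this]
      apply le_mul_of_one_le_right hNp.le
      rw [le_div_iff₀ hlN]
      linarith
    calc ((S m).ncard : ℝ) ≤ N := htriv
      _ ≤ Real.log N3 * (N * (1 / Real.log N)) := h2
      _ ≤ C * (N * ((m : ℝ) ^ (-(3 / 4) : ℝ) + 1 / Real.log N)) := by
          gcongr
          · rw [hC]
            have : 0 ≤ K * (2 / c + 3) := by positivity
            linarith
          · linarith
  push Not at hNN
  have hNN0 : N0 ≤ N := (le_max_left _ _).trans hNN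
  have hNN2 : N2 ≤ N := (le_max_right _ _).trans hNN
  by_cases hmm : (m : ℝ) < m0
  · have h1 : 1 ≤ m0 ^ (3 / 4 : ℝ) * (m : ℝ) ^ (-(3 / 4) : ℝ) := by
      rw [Real.rpow_neg hmp.le, ← div_eq_mul_inv, le_div_iff₀ (Real.rpow_pos_of_pos hmp _), one_mul]
      exact Real.rpow_le_rpow hmp.le hmm.le (by norm_num)
    calc ((S m).ncard : ℝ) ≤ N := htriv
      _ ≤ N * (m0 ^ (3 / 4 : ℝ) * (m : ℝ) ^ (-(3 / 4) : ℝ)) := le_mul_of_one_le_right hNp.le h1
      _ = m0 ^ (3 / 4 : ℝ) * (N * (m : ℝ) ^ (-(3 / 4) : ℝ)) := by ring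
      _ ≤ C * (N * ((m : ℝ) ^ (-(3 / 4) : ℝ) + 1 / Real.log N)) := by
          gcongr
          · rw [hC]
            have : 0 ≤ K * (2 / c + 3) := by positivity
            linarith
          · linarith
  push Not at hmm
  by_cases hmL : (m : ℝ) ^ (3 / 4 : ℝ) ≤ c * Real.log N
  · have h1 := h N hNN0 m hmm hmL
    calc ((S m).ncard : ℝ) ≤ K * (N * (m : ℝ) ^ (-(3 / 4) : ℝ) + (N : ℝ) ^ (1 / 2 : ℝ)) := h1
      _ ≤ K * (N * (m : ℝ) ^ (-(3 / 4) : ℝ) + 2 * (N * (1 / Real.log N))) := by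
          have := hsqrt N hN
          gcongr
      _ ≤ K * (3 * (N * ((m : ℝ) ^ (-(3 / 4) : ℝ) + 1 / Real.log N))) := by
          gcongr
          have q1 : 0 ≤ (N : ℝ) * (m : ℝ) ^ (-(3 / 4) : ℝ) := by positivity
          have q2 : 0 ≤ (N : ℝ) * (1 / Real.log N) := by positivity
          linarith
      _ = (K * 3) * (N * ((m : ℝ) ^ (-(3 / 4) : ℝ) + 1 / Real.log N)) := by ring
      _ ≤ C * (N * ((m : ℝ) ^ (-(3 / 4) : ℝ) + 1 / Real.log N)) := by
          gcongr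
          rw [hC]
          have : 0 ≤ K * (2 / c) := by positivity
          linarith
  · push Not at hmL
    set z := (c * Real.log N) ^ (4 / 3 : ℝ) with hz
    have hcl : 0 < c * Real.log N := by positivity
    have hzm : z ≤ m := by
      have h1 : (c * Real.log N) ^ (4 / 3 : ℝ) ≤ ((m : ℝ) ^ (3 / 4 : ℝ)) ^ (4 / 3 : ℝ) :=
        Real.rpow_le_rpow hcl.le hmL.le (by norm_num)
      rw [← Real.rpow_mul hmp.le] at h1
      norm_num at h1
      exact h1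
    have hz1 := hN2 N hNN2
    rw [← hz] at hz1
    have hz0 : 0 < z := by linarith
    set m' := ⌊z⌋₊ with hm'
    have hm'1 : (m' : ℝ) ≤ z := Nat.floor_le hz0.le
    have hm'2 : z < m' + 1 := Nat.lt_floor_add_one z
    have hm'm : m' ≤ m := by
      have : (m' : ℝ) ≤ m := hm'1.trans hzm
      exact_mod_cast this
    have hm'0 : m0 ≤ m' := by linarith
    have hm'p : (0 : ℝ) < m' := by linarith
    have hz34 : z ^ (3 / 4 : ℝ) = c * Real.log N := by
      rw [hz, ← Real.rpow_mul hcl.le]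
      norm_num
    have h1 := h N hNN0 m' hm'0 (by
      rw [← hz34]
      exact Real.rpow_le_rpow hm'p.le hm'1 (by norm_num))
    have h2 : (m' : ℝ) ^ (-(3 / 4) : ℝ) ≤ 2 / c * (1 / Real.log N) := by
      have h3 : (z / 2) ^ (3 / 4 : ℝ) ≤ (m' : ℝ) ^ (3 / 4 : ℝ) :=
        Real.rpow_le_rpow (by positivity) (by linarith) (by norm_num)
      have h4 : c * Real.log N / 2 ≤ (z / 2) ^ (3 / 4 : ℝ) := by
        rw [Real.div_rpow hz0.le (by norm_num), hz34]
        have h5 : (2 : ℝ) ^ (3 / 4 : ℝ) ≤ 2 := by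
          conv_rhs => rw [← Real.rpow_one (2 : ℝ)]
          exact Real.rpow_le_rpow_of_exponent_le (by norm_num) (by norm_num)
        have h6 : 0 < (2 : ℝ) ^ (3 / 4 : ℝ) := by positivity
        gcongr
      rw [Real.rpow_neg hm'p.le]
      calc ((m' : ℝ) ^ (3 / 4 : ℝ))⁻¹ ≤ (c * Real.log N / 2)⁻¹ :=
            inv_anti₀ (by positivity) (h4.trans h3)
        _ = _ := by field_simp
    have hsub : S m ⊆ S m' := fun n hn => ⟨hn.1, hn.2.1, fun i hi => hn.2.2 i (by omega)⟩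
    have h3 : ((S m).ncard : ℝ) ≤ (S m').ncard := by
      exact_mod_cast Set.ncard_le_ncard hsub (hSfin m')
    calc ((S m).ncard : ℝ) ≤ K * (N * (m' : ℝ) ^ (-(3 / 4) : ℝ) + (N : ℝ) ^ (1 / 2 : ℝ)) :=
          h3.trans h1
      _ ≤ K * (N * (2 / c * (1 / Real.log N)) + 2 * (N * (1 / Real.log N))) := by
          have := hsqrt N hN
          gcongr
      _ = (K * (2 / c + 2)) * (N * (1 / Real.log N)) := by ring
      _ ≤ C * (N * ((m : ℝ) ^ (-(3 / 4) : ℝ) + 1 / Real.log N)) := by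
          gcongr
          · rw [hC]
            linarith
          · linarith

end Pool.Agent.TH800.MS
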