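import Pool.Agent.TH800.MS.Sd
import Pool.Agent.TH800.MS.Gm

/-! Second moments of the prime sums. -/

open Complex Filter Topology Set MeasureTheory
open scoped ComplexConjugate

namespace Pool.Agent.TH800.MS

/-- overlap integral -/
noncomputable def Bc (b c d : ℝ) (p q : ℕ) : ℝ :=
  ∫ u in c..d, be b (Real.log p - u) * be b (Real.log q - u)

lemma be_comp (b v : ℝ) : Continuous fun u : ℝ => be b (v - u) := be_cont.comp (by fun_prop)

lemma Bc_nonneg {b c d : ℝ} (hb : 0 < b) (hcd : c ≤ d) (p q : ℕ) : 0 ≤ Bc b c d p q :=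
  intervalIntegral.integral_nonneg hcd fun u _ => mul_nonneg (be_nonneg hb _) (be_nonneg hb _)

lemma Bc_le {b c d : ℝ} (hb : 0 < b) (hcd : c ≤ d) (p q : ℕ) : Bc b c d p q ≤ 1 / b := by
  unfold Bc
  calc ∫ u in c..d, be b (Real.log p - u) * be b (Real.log q - u) ≤
      ∫ u in c..d, be b (Real.log p - u) * (1 / b) := by
        refine intervalIntegral.integral_mono_on hcd
          (((be_comp b _).mul (be_comp b _)).intervalIntegrable _ _)
          (((be_comp b _).mul continuous_const).intervalIntegrable _ _) fun u _ => ?_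
        exact mul_le_mul_of_nonneg_left (be_le hb _) (be_nonneg hb _)
    _ = (∫ u in c..d, be b (Real.log p - u)) * (1 / b) := by
        rw [intervalIntegral.integral_mul_const]
    _ ≤ 1 * (1 / b) := by
        apply mul_le_mul_of_nonneg_right (be_int_le hb _ c d hcd) (by positivity)
    _ = 1 / b := one_mul _

/-- the diagonal -/
noncomputable def diag (N : ℕ) (b c d : ℝ) : ℝ := ∑ p ∈ PX N, aa p ^ 2 * Bc b c d p p

lemma aa_le_one (p : ℕ) : aa p ≤ 1 := by
  rcases Nat.eq_zero_or_pos p with h | h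
  · subst h; simp [aa]
  have hp : (0 : ℝ) < p := by exact_mod_cast h
  have hs : 0 < Real.sqrt p := Real.sqrt_pos.2 hp
  unfold aa
  rw [div_le_one hs]
  have h1 : Real.log p = 2 * Real.log (Real.sqrt p) := by
    rw [Real.log_sqrt hp.le]; ring
  have h2 : Real.log (Real.sqrt p) = 2 * Real.log (Real.sqrt (Real.sqrt p)) := by
    rw [Real.log_sqrt hs.le]; ring
  have h3 := Real.log_le_sub_one_of_pos (Real.sqrt_pos.2 hs)
  have h4 := Real.sq_sqrt hs.le
  nlinarith [sq_nonneg (Real.sqrt (Real.sqrt p) - 2)]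

lemma D1_cont (N : ℕ) (b t : ℝ) : Continuous (D1 N b t) := by
  unfold D1
  refine continuous_finsetSum _ fun p _ => ?_
  exact continuous_const.mul (Complex.continuous_ofReal.comp (be_comp b _))

/-- the quadratic form -/
lemma quad (N : ℕ) (b c d t : ℝ) :
    (((∫ u in c..d, ‖D1 N b t u‖ ^ 2) - diag N b c d : ℝ) : ℂ) =
      ∑ x ∈ (PX N).offDiag, ((aa x.1 * aa x.2 * Bc b c d x.1 x.2 : ℝ) : ℂ) *
        cexp (((t * (Real.log x.2 - Real.log x.1) : ℝ) : ℂ) * I) := by
  have h1 : ∀ u, ((‖D1 N b t u‖ ^ 2 : ℝ) : ℂ) = ∑ p ∈ PX N, ∑ q ∈ PX N,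
      ((aa p * aa q : ℝ) : ℂ) * cexp (((t * (Real.log q - Real.log p) : ℝ) : ℂ) * I) *
        ((be b (Real.log p - u) * be b (Real.log q - u) : ℝ) : ℂ) := by
    intro u
    rw [ofReal_pow, ← Complex.mul_conj']
    unfold D1
    rw [map_sum, Finset.sum_mul_sum]
    refine Finset.sum_congr rfl fun p _ => Finset.sum_congr rfl fun q _ => ?_
    unfold ef
    rw [map_mul, map_mul, conj_ofReal, conj_ofReal, ← Complex.exp_conj, map_mul, conj_I,
      conj_ofReal]
    have : cexp (((t * (Real.log q - Real.log p) : ℝ) : ℂ) * I) =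
        cexp (((t * (-Real.log p) : ℝ) : ℂ) * I) * cexp (((t * (-Real.log q) : ℝ) : ℂ) * -I) := by
      rw [← Complex.exp_add]
      congr 1
      push_cast
      ring
    rw [this]
    push_cast
    ring
  have h2 : ((∫ u in c..d, ‖D1 N b t u‖ ^ 2 : ℝ) : ℂ) = ∑ p ∈ PX N, ∑ q ∈ PX N,
      ((aa p * aa q * Bc b c d p q : ℝ) : ℂ) *
        cexp (((t * (Real.log q - Real.log p) : ℝ) : ℂ) * I) := by
    rw [← intervalIntegral.integral_ofReal]
    simp_rw [h1]
    have hc : ∀ p q : ℕ, Continuous fun u : ℝ => ((aa p * aa q : ℝ) : ℂ) *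
        cexp (((t * (Real.log q - Real.log p) : ℝ) : ℂ) * I) *
        ((be b (Real.log p - u) * be b (Real.log q - u) : ℝ) : ℂ) := fun p q =>
      continuous_const.mul (Complex.continuous_ofReal.comp ((be_comp b _).mul (be_comp b _)))
    rw [intervalIntegral.integral_finsetSum fun p _ =>
      (continuous_finsetSum _ fun q _ => hc p q).intervalIntegrable _ _]
    refine Finset.sum_congr rfl fun p _ => ?_
    rw [intervalIntegral.integral_finsetSum fun q _ => (hc p q).intervalIntegrable _ _]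
    refine Finset.sum_congr rfl fun q _ => ?_
    rw [intervalIntegral.integral_const_mul, intervalIntegral.integral_ofReal]
    unfold Bc
    push_cast
    ring
  rw [ofReal_sub, h2, ← Finset.sum_product', ← Finset.diag_union_offDiag,
    Finset.sum_union (Finset.disjoint_diag_offDiag _), Finset.sum_diag]
  have h3 : ∑ p ∈ PX N, ((aa p * aa p * Bc b c d p p : ℝ) : ℂ) *
        cexp (((t * (Real.log p - Real.log p) : ℝ) : ℂ) * I) = (diag N b c d : ℂ) := by
    unfold diag
    rw [ofReal_sum]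
    refine Finset.sum_congr rfl fun p _ => ?_
    rw [sub_self, mul_zero, ofReal_zero, zero_mul, Complex.exp_zero, mul_one, sq]
  rw [h3]
  ring

lemma sum_Bc : ∃ C : ℝ, 0 < C ∧ ∀ (N : ℕ) (b c d : ℝ), 0 < b → c ≤ d → 1 ≤ N →
    ∑ p ∈ PX N, ∑ q ∈ PX N, (aa p * aa q * Bc b c d p q) ^ 2 ≤
      C * (Real.log N + 1) ^ 3 / b := by
  obtain ⟨C1, hC1, h1⟩ := sum_aa_be
  obtain ⟨C2, hC2, h2⟩ := sum_aa
  refine ⟨C1 * (C2 + 1), by positivity, fun N b c d hb hcd hN => ?_⟩
  have hl := Real.log_natCast_nonneg N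
  set l := Real.log N with hlN
  have hA : ∑ p ∈ PX N, aa p ^ 2 ≤ (C2 + 1) * (l + 1) ^ 2 := by
    have h3 := (abs_le.1 (h2 N hN)).2
    nlinarith
  have hA0 : 0 ≤ ∑ p ∈ PX N, aa p ^ 2 := Finset.sum_nonneg fun p _ => sq_nonneg _
  calc ∑ p ∈ PX N, ∑ q ∈ PX N, (aa p * aa q * Bc b c d p q) ^ 2 ≤
      ∑ p ∈ PX N, ∑ q ∈ PX N, 1 / b * (aa p ^ 2 * aa q ^ 2 * Bc b c d p q) := by
        refine Finset.sum_le_sum fun p _ => Finset.sum_le_sum fun q _ => ?_
        have h3 := Bc_le hb hcd p q
        have h4 := Bc_nonneg hb hcd p q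
        calc (aa p * aa q * Bc b c d p q) ^ 2 =
            Bc b c d p q * (aa p ^ 2 * aa q ^ 2 * Bc b c d p q) := by ring
          _ ≤ _ := by gcongr
    _ = 1 / b * ∑ p ∈ PX N, aa p ^ 2 * ∫ u in c..d, be b (Real.log p - u) *
          ∑ q ∈ PX N, aa q ^ 2 * be b (Real.log q - u) := by
        rw [Finset.mul_sum]
        refine Finset.sum_congr rfl fun p _ => ?_
        rw [← Finset.mul_sum]
        congr 1
        have h5 : ∀ u : ℝ, be b (Real.log p - u) *
            ∑ q ∈ PX N, aa q ^ 2 * be b (Real.log q - u) =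
            ∑ q ∈ PX N, aa q ^ 2 * (be b (Real.log p - u) * be b (Real.log q - u)) := by
          intro u
          rw [Finset.mul_sum]
          refine Finset.sum_congr rfl fun q _ => ?_
          ring
        simp_rw [h5]
        have hi : ∀ q ∈ PX N, IntervalIntegrable (fun u => aa q ^ 2 *
            (be b (Real.log p - u) * be b (Real.log q - u))) volume c d := fun q _ =>
          (continuous_const.mul ((be_comp b _).mul (be_comp b _))).intervalIntegrable _ _
        rw [intervalIntegral.integral_finsetSum hi, Finset.mul_sum]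
        refine Finset.sum_congr rfl fun q _ => ?_
        rw [intervalIntegral.integral_const_mul]
        unfold Bc
        ring
    _ ≤ 1 / b * ∑ p ∈ PX N, aa p ^ 2 * (C1 * l) := by
        gcongr with p hp
        have hcc : Continuous fun u : ℝ => ∑ q ∈ PX N, aa q ^ 2 * be b (Real.log q - u) :=
          continuous_finsetSum _ fun q _ => continuous_const.mul (be_comp b _)
        calc ∫ u in c..d, be b (Real.log p - u) *
            ∑ q ∈ PX N, aa q ^ 2 * be b (Real.log q - u) ≤
            ∫ u in c..d, be b (Real.log p - u) * (C1 * l) := by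
              refine intervalIntegral.integral_mono_on hcd
                (((be_comp b _).mul hcc).intervalIntegrable _ _)
                (((be_comp b _).mul continuous_const).intervalIntegrable _ _) fun u _ => ?_
              exact mul_le_mul_of_nonneg_left (h1 N b u hb hN) (be_nonneg hb _)
          _ = (∫ u in c..d, be b (Real.log p - u)) * (C1 * l) := by
              rw [intervalIntegral.integral_mul_const]
          _ ≤ 1 * (C1 * l) := by
              apply mul_le_mul_of_nonneg_right (be_int_le hb _ c d hcd) (by positivity)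
          _ = C1 * l := one_mul _
    _ = 1 / b * ((∑ p ∈ PX N, aa p ^ 2) * (C1 * l)) := by rw [Finset.sum_mul]
    _ ≤ 1 / b * (((C2 + 1) * (l + 1) ^ 2) * (C1 * (l + 1))) := by
        gcongr
        linarith
    _ = _ := by ring

lemma PX_card_le (N : ℕ) : ((PX N).card : ℝ) ≤ N := by
  unfold PX
  have := (Finset.card_filter_le (Finset.Icc 1 N) Nat.Prime)
  rw [Nat.card_Icc, Nat.add_sub_cancel] at this
  exact_mod_cast this

/-- variance of the quadratic form -/
theorem var_quad : ∃ C : ℝ, 0 < C ∧ ∀ (N : ℕ) (b c d T : ℝ), 0 < b → c ≤ d → 1 ≤ N → 0 < T →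
    ∫ t in T..(2 * T), ((∫ u in c..d, ‖D1 N b t u‖ ^ 2) - diag N b c d) ^ 2 ≤
      4 * T * (C * (Real.log N + 1) ^ 3 / b + (N : ℝ) ^ 4 / b ^ 2 *
        Real.exp (-(T ^ 2 * (1 / (N : ℝ) ^ 2) ^ 2) / 2)) := by
  obtain ⟨C, hC, hS⟩ := sum_Bc
  refine ⟨C, hC, fun N b c d T hb hcd hN hT => ?_⟩
  have hN0 : (0 : ℝ) < N := by exact_mod_cast hN
  have hmain := gm_sep (PX N).offDiag
    (fun x : ℕ × ℕ => ((aa x.1 * aa x.2 * Bc b c d x.1 x.2 : ℝ) : ℂ))
    (fun x => Real.log x.2 - Real.log x.1) T (1 / (N : ℝ) ^ 2) hT (by positivity) (by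
      rintro ⟨p, q⟩ hx ⟨p', q'⟩ hy hne
      rw [Finset.mem_offDiag] at hx hy
      obtain ⟨hp, hq, hpq⟩ := hx
      obtain ⟨hp', hq', hpq'⟩ := hy
      simp only at hp hq hpq hp' hq' hpq' ⊢
      obtain ⟨pp, pN⟩ := mem_PX.1 hp
      obtain ⟨qp, qN⟩ := mem_PX.1 hq
      obtain ⟨pp', pN'⟩ := mem_PX.1 hp'
      obtain ⟨qp', qN'⟩ := mem_PX.1 hq'
      have hne2 : q * p' ≠ q' * p := by
        intro h
        have h1 : q ∣ q' * p := ⟨p', h.symm⟩
        rcases (Nat.Prime.dvd_mul qp).1 h1 with h2 | h2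
        · have h3 := (Nat.prime_dvd_prime_iff_eq qp qp').1 h2
          subst h3
          have h4 : p' = p := Nat.eq_of_mul_eq_mul_left qp.pos h
          subst h4
          exact hne rfl
        · exact hpq ((Nat.prime_dvd_prime_iff_eq qp pp).1 h2).symm
      have h5 := log_sep (a := q * p') (b := q' * p)
        (Nat.mul_pos qp.pos pp'.pos) (Nat.mul_pos qp'.pos pp.pos) hne2 (N := (N : ℝ) ^ 2)
        (by rw [sq]; exact_mod_cast Nat.mul_le_mul qN pN')
        (by rw [sq]; exact_mod_cast Nat.mul_le_mul qN' pN)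
      refine h5.trans (le_of_eq ?_)
      have e : ∀ a b : ℕ, a.Prime → b.Prime → Real.log ((a * b : ℕ) : ℝ) =
          Real.log a + Real.log b := by
        intro a b ha hb
        rw [Nat.cast_mul, Real.log_mul (by exact_mod_cast ha.ne_zero)
          (by exact_mod_cast hb.ne_zero)]
      rw [e q p' qp pp', e q' p qp' pp]
      congr 1
      ring)
  have heq : ∀ t : ℝ, ((∫ u in c..d, ‖D1 N b t u‖ ^ 2) - diag N b c d) ^ 2 =
      ‖∑ x ∈ (PX N).offDiag, ((aa x.1 * aa x.2 * Bc b c d x.1 x.2 : ℝ) : ℂ) *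
        cexp (((t * (Real.log x.2 - Real.log x.1) : ℝ) : ℂ) * I)‖ ^ 2 := by
    intro t
    rw [← quad, Complex.norm_real, Real.norm_eq_abs, sq_abs]
  simp_rw [heq]
  refine hmain.trans ?_
  apply mul_le_mul_of_nonneg_left _ (by positivity)
  have hnn : ∀ x : ℕ × ℕ, ‖((aa x.1 * aa x.2 * Bc b c d x.1 x.2 : ℝ) : ℂ)‖ =
      aa x.1 * aa x.2 * Bc b c d x.1 x.2 := by
    intro x
    rw [Complex.norm_real, Real.norm_of_nonneg]
    exact mul_nonneg (mul_nonneg (aa_nonneg _) (aa_nonneg _)) (Bc_nonneg hb hcd _ _)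
  simp_rw [hnn]
  have hoff : (PX N).offDiag ⊆ PX N ×ˢ PX N := by
    intro x hx
    rw [Finset.mem_offDiag] at hx
    exact Finset.mem_product.2 ⟨hx.1, hx.2.1⟩
  apply add_le_add
  · refine le_trans ?_ (hS N b c d hb hcd hN)
    rw [← Finset.sum_product']
    exact Finset.sum_le_sum_of_subset_of_nonneg hoff fun x _ _ => sq_nonneg _
  · apply mul_le_mul_of_nonneg_right _ (Real.exp_pos _).le
    have h6 : ∑ x ∈ (PX N).offDiag, aa x.1 * aa x.2 * Bc b c d x.1 x.2 ≤ (N : ℝ) ^ 2 / b := by
      calc ∑ x ∈ (PX N).offDiag, aa x.1 * aa x.2 * Bc b c d x.1 x.2 ≤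
          ∑ x ∈ PX N ×ˢ PX N, aa x.1 * aa x.2 * Bc b c d x.1 x.2 := by
            refine Finset.sum_le_sum_of_subset_of_nonneg hoff fun x _ _ => ?_
            exact mul_nonneg (mul_nonneg (aa_nonneg _) (aa_nonneg _)) (Bc_nonneg hb hcd _ _)
        _ ≤ ∑ x ∈ PX N ×ˢ PX N, 1 / b := by
            refine Finset.sum_le_sum fun x _ => ?_
            have h7 := aa_le_one x.1
            have h8 := aa_le_one x.2
            have h9 := Bc_le hb hcd x.1 x.2
            have h10 := Bc_nonneg hb hcd x.1 x.2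
            have h11 := aa_nonneg x.1
            have h12 := aa_nonneg x.2
            calc aa x.1 * aa x.2 * Bc b c d x.1 x.2 ≤ 1 * 1 * (1 / b) := by gcongr
              _ = 1 / b := by ring
        _ = ((PX N).card : ℝ) * ((PX N).card : ℝ) * (1 / b) := by
            rw [Finset.sum_const, Finset.card_product, nsmul_eq_mul]
            push_cast
            ring
        _ ≤ (N : ℝ) * N * (1 / b) := by
            have := PX_card_le N
            gcongr
        _ = _ := by ring
    have h7 : 0 ≤ ∑ x ∈ (PX N).offDiag, aa x.1 * aa x.2 * Bc b c d x.1 x.2 :=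
      Finset.sum_nonneg fun x _ =>
        mul_nonneg (mul_nonneg (aa_nonneg _) (aa_nonneg _)) (Bc_nonneg hb hcd _ _)
    calc (∑ x ∈ (PX N).offDiag, aa x.1 * aa x.2 * Bc b c d x.1 x.2) ^ 2 ≤
        ((N : ℝ) ^ 2 / b) ^ 2 := by gcongr
      _ = _ := by ring

/-- variance of a linear form -/
theorem var_lin : ∃ C : ℝ, 0 < C ∧ ∀ (N : ℕ) (b c d T : ℝ) (w : ℝ → ℝ), 0 < b → c ≤ d → 1 ≤ N →
    0 < T → Continuous w → (∀ u, 0 ≤ w u) → ∫ u in c..d, w u ≤ 1 →
    ∫ t in T..(2 * T), ‖∫ u in c..d, (w u : ℂ) * D1 N b t u‖ ^ 2 ≤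
      4 * T * (C * Real.log N / b + (N : ℝ) ^ 4 / b ^ 2 *
        Real.exp (-(T ^ 2 * (1 / (N : ℝ) ^ 2) ^ 2) / 2)) := by
  obtain ⟨C, hC, hS⟩ := sum_aa_be
  refine ⟨C, hC, fun N b c d T w hb hcd hN hT hw hw0 hw1 => ?_⟩
  have hN0 : (0 : ℝ) < N := by exact_mod_cast hN
  have hN1 : (1 : ℝ) ≤ N := by exact_mod_cast hN
  set g : ℕ → ℝ := fun p => ∫ u in c..d, w u * be b (Real.log p - u) with hg
  have hg0 : ∀ p, 0 ≤ g p := fun p =>
    intervalIntegral.integral_nonneg hcd fun u _ => mul_nonneg (hw0 u) (be_nonneg hb _)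
  have hg1 : ∀ p, g p ≤ 1 / b := by
    intro p
    calc g p ≤ ∫ u in c..d, w u * (1 / b) := by
          refine intervalIntegral.integral_mono_on hcd
            ((hw.mul (be_comp b _)).intervalIntegrable _ _)
            ((hw.mul continuous_const).intervalIntegrable _ _) fun u _ => ?_
          exact mul_le_mul_of_nonneg_left (be_le hb _) (hw0 u)
      _ = (∫ u in c..d, w u) * (1 / b) := by rw [intervalIntegral.integral_mul_const]
      _ ≤ 1 * (1 / b) := mul_le_mul_of_nonneg_right hw1 (by positivity)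
      _ = 1 / b := one_mul _
  have heq : ∀ t : ℝ, ∫ u in c..d, (w u : ℂ) * D1 N b t u =
      ∑ p ∈ PX N, ((aa p * g p : ℝ) : ℂ) * cexp (((t * (-Real.log p) : ℝ) : ℂ) * I) := by
    intro t
    unfold D1
    simp_rw [Finset.mul_sum]
    have hc : ∀ p : ℕ, Continuous fun u : ℝ => (w u : ℂ) *
        (ef t p * ((be b (Real.log p - u) : ℝ) : ℂ)) := fun p =>
      (Complex.continuous_ofReal.comp hw).mul (continuous_const.mul
        (Complex.continuous_ofReal.comp (be_comp b _)))
    rw [intervalIntegral.integral_finsetSum fun p _ => (hc p).intervalIntegrable _ _]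
    refine Finset.sum_congr rfl fun p _ => ?_
    have h1 : ∀ u : ℝ, (w u : ℂ) * (ef t p * ((be b (Real.log p - u) : ℝ) : ℂ)) =
        ef t p * ((w u * be b (Real.log p - u) : ℝ) : ℂ) := by
      intro u
      push_cast
      ring
    simp_rw [h1]
    rw [intervalIntegral.integral_const_mul, intervalIntegral.integral_ofReal]
    unfold ef
    push_cast
    ring
  simp_rw [heq]
  have hNN : (N : ℝ) ≤ (N : ℝ) ^ 2 := by nlinarith
  have hmain := gm_sep (PX N) (fun p : ℕ => ((aa p * g p : ℝ) : ℂ))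
    (fun p => -Real.log p) T (1 / (N : ℝ) ^ 2) hT (by positivity) (by
      intro p hp q hq hne
      obtain ⟨pp, pN⟩ := mem_PX.1 hp
      obtain ⟨qp, qN⟩ := mem_PX.1 hq
      have h5 := log_sep (a := p) (b := q) pp.pos qp.pos hne (N := (N : ℝ))
        (by exact_mod_cast pN) (by exact_mod_cast qN)
      have h6 : 1 / (N : ℝ) ^ 2 ≤ 1 / N := one_div_le_one_div_of_le hN0 hNN
      refine h6.trans (h5.trans (le_of_eq ?_))
      rw [← abs_neg]
      congr 1
      ring)
  refine hmain.trans ?_
  apply mul_le_mul_of_nonneg_left _ (by positivity)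
  have hnn : ∀ p : ℕ, ‖((aa p * g p : ℝ) : ℂ)‖ = aa p * g p := by
    intro x
    rw [Complex.norm_real, Real.norm_of_nonneg]
    exact mul_nonneg (aa_nonneg _) (hg0 _)
  simp_rw [hnn]
  apply add_le_add
  · calc ∑ p ∈ PX N, (aa p * g p) ^ 2 ≤ ∑ p ∈ PX N, 1 / b * (aa p ^ 2 * g p) := by
          refine Finset.sum_le_sum fun p _ => ?_
          have h3 := hg1 p
          have h4 := hg0 p
          calc (aa p * g p) ^ 2 = g p * (aa p ^ 2 * g p) := by ring
            _ ≤ _ := by gcongr
      _ = 1 / b * ∫ u in c..d, w u * ∑ p ∈ PX N, aa p ^ 2 * be b (Real.log p - u) := by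
          rw [← Finset.mul_sum]
          congr 1
          have h5 : ∀ u : ℝ, w u * ∑ p ∈ PX N, aa p ^ 2 * be b (Real.log p - u) =
              ∑ p ∈ PX N, aa p ^ 2 * (w u * be b (Real.log p - u)) := by
            intro u
            rw [Finset.mul_sum]
            refine Finset.sum_congr rfl fun q _ => ?_
            ring
          simp_rw [h5]
          have hi : ∀ q ∈ PX N, IntervalIntegrable (fun u => aa q ^ 2 *
              (w u * be b (Real.log q - u))) volume c d := fun q _ =>
            (continuous_const.mul (hw.mul (be_comp b _))).intervalIntegrable _ _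
          rw [intervalIntegral.integral_finsetSum hi]
          refine Finset.sum_congr rfl fun q _ => ?_
          rw [intervalIntegral.integral_const_mul]
      _ ≤ 1 / b * ∫ u in c..d, w u * (C * Real.log N) := by
          gcongr
          have hcc : Continuous fun u : ℝ => ∑ q ∈ PX N, aa q ^ 2 * be b (Real.log q - u) :=
            continuous_finsetSum _ fun q _ => continuous_const.mul (be_comp b _)
          refine intervalIntegral.integral_mono_on hcd
            ((hw.mul hcc).intervalIntegrable _ _)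
            ((hw.mul continuous_const).intervalIntegrable _ _) fun u _ => ?_
          exact mul_le_mul_of_nonneg_left (hS N b u hb hN) (hw0 u)
      _ = 1 / b * ((∫ u in c..d, w u) * (C * Real.log N)) := by
          rw [intervalIntegral.integral_mul_const]
      _ ≤ 1 / b * (1 * (C * Real.log N)) := by
          have := Real.log_natCast_nonneg N
          gcongr
      _ = _ := by ring
  · apply mul_le_mul_of_nonneg_right _ (Real.exp_pos _).le
    have h6 : ∑ p ∈ PX N, aa p * g p ≤ (N : ℝ) ^ 2 / b := by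
      calc ∑ p ∈ PX N, aa p * g p ≤ ∑ p ∈ PX N, 1 / b := by
            refine Finset.sum_le_sum fun p _ => ?_
            have h7 := aa_le_one p
            have h8 := hg1 p
            have h9 := hg0 p
            have h10 := aa_nonneg p
            calc aa p * g p ≤ 1 * (1 / b) := by gcongr
              _ = 1 / b := by ring
        _ = ((PX N).card : ℝ) * (1 / b) := by
            rw [Finset.sum_const, nsmul_eq_mul]
        _ ≤ (N : ℝ) ^ 2 * (1 / b) := by
            have := (PX_card_le N).trans hNN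
            gcongr
        _ = _ := by ring
    have h7 : 0 ≤ ∑ p ∈ PX N, aa p * g p :=
      Finset.sum_nonneg fun x _ => mul_nonneg (aa_nonneg _) (hg0 _)
    calc (∑ p ∈ PX N, aa p * g p) ^ 2 ≤ ((N : ℝ) ^ 2 / b) ^ 2 := by gcongr
      _ = _ := by ring

end Pool.Agent.TH800.MS
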